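import Pool.Agent.H16.GF.Defs
import Pool.Agent.H18.RS.Fib

/-!
# Job GF-4: sums over pairs (place, exponent) and over prime powers

For a place `v` of `k` of norm `q`: `q = p ^ f` with `p = q.minFac` prime, `f = q.factorization p`, `1 ≤ f ≤ [k : ℚ]`, `v` lies over `p`
(`Ideal.absNorm_mem`, `over_finite` in H18/RS/Fib.lean bounds the number of such `v` by `[k : ℚ]`; `f ≤ [k : ℚ]` because
`Ideal.span {(p : 𝓞 k)}` is divisible by `v`, so `q ∣ absNorm (span {p}) = p ^ [k : ℚ]`; `q` is a prime power because `𝓞 k ⧸ v` is a finite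
field, `FiniteField.card` / `Ideal.absNorm` of a prime ideal, or from `q ∣ p ^ n`).
`ppow v n = (p, f (n + 1) - 1)` stands for `q ^ (n + 1)`. The fibre of `(p, j)` under `(v, n) ↦ ppow v n` injects into the set of the `v` over
`p` (for given `v`, `f (n + 1) = j + 1` determines `n`), so it has at most `[k : ℚ]` elements and
`∑ (v, n), G (ppow v n) ≤ [k : ℚ] ∑ G` for `G ≥ 0`: `Equiv.sigmaFiberEquiv`, `summable_sigma_of_nonneg`, `tsum_sigma'`; the tsum over a finite fibre of a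
constant is `card * constant`. (See the proof of `hasSum_fib` in H18/RS/Fib.lean.)
-/

open NumberField IsDedekindDomain Filter Topology Polynomial

namespace Pool.Agent.H16.GF

open Pool.Agent.H3.TatePole Pool.Agent.H18.RS

noncomputable section

variable {k : Type*} [Field k] [NumberField k]

/-- the residue characteristic of `v` -/
def pch (v : HeightOneSpectrum (𝓞 k)) : ℕ := (Ideal.absNorm v.asIdeal).minFac

/-- the residue degree of `v` -/
def rdg (v : HeightOneSpectrum (𝓞 k)) : ℕ := (Ideal.absNorm v.asIdeal).factorization (pch v)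

theorem place_facts (v : HeightOneSpectrum (𝓞 k)) :
    (pch v).Prime ∧ Ideal.absNorm v.asIdeal = pch v ^ rdg v ∧ 1 ≤ rdg v ∧
      rdg v ≤ Module.finrank ℚ k ∧ (pch v : 𝓞 k) ∈ v.asIdeal := by
  have hmax : v.asIdeal.IsMaximal := v.isMaximal
  obtain ⟨p, n, hn, hmem, hp, hpow⟩ := Ideal.exists_prime_and_absNorm_eq_pow v.asIdeal
  have hn' : n ≠ 0 := by omega
  have h1 : pch v = p := by
    unfold pch
    rw [hpow]
    exact hp.pow_minFac hn'
  have h2 : rdg v = n := by
    unfold rdg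
    rw [h1, hpow, hp.factorization_pow, Finsupp.single_eq_same]
  rw [h1, h2]
  refine ⟨hp, hpow, by omega, ?_, hmem⟩
  have h3 : Ideal.absNorm v.asIdeal ∣ Ideal.absNorm (Ideal.span {((p : ℤ) : 𝓞 k)}) := by
    apply Ideal.absNorm_dvd_absNorm_of_le
    rw [Ideal.span_singleton_le_iff_mem]
    simpa using hmem
  rw [hpow, Ideal.absNorm_span_singleton] at h3
  have h4 : Algebra.norm ℤ (((p : ℤ) : 𝓞 k)) = (p : ℤ) ^ Module.finrank ℚ k := by
    rw [← RingOfIntegers.rank k]
    have := Algebra.norm_algebraMap (R := ℤ) (S := 𝓞 k) (p : ℤ)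
    simpa using this
  rw [h4, Int.natAbs_pow, Int.natAbs_natCast] at h3
  exact (Nat.pow_dvd_pow_iff_le_right hp.one_lt).1 h3

/-- the prime power `q ^ (n + 1)`, `q` the norm of `v` -/
def ppow (x : HeightOneSpectrum (𝓞 k) × ℕ) : Nat.Primes × ℕ :=
  (⟨pch x.1, (place_facts x.1).1⟩, rdg x.1 * (x.2 + 1) - 1)

theorem gf4_fiber (y : Nat.Primes × ℕ) :
    Finite {x : HeightOneSpectrum (𝓞 k) × ℕ // ppow x = y} ∧
      Nat.card {x : HeightOneSpectrum (𝓞 k) × ℕ // ppow x = y} ≤ Module.finrank ℚ k := by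
  obtain ⟨h1, h2⟩ := over_finite (k := k) y.1 y.1.2
  have hm : ∀ x : {x : HeightOneSpectrum (𝓞 k) × ℕ // ppow x = y},
      (((y.1 : Nat.Primes) : ℕ) : 𝓞 k) ∈ x.1.1.asIdeal := by
    intro x
    have h3 := (place_facts x.1.1).2.2.2.2
    have h4 : ((y.1 : Nat.Primes) : ℕ) = pch x.1.1 :=
      (congrArg (fun z : Nat.Primes × ℕ => ((z.1 : Nat.Primes) : ℕ)) x.2).symm
    rw [h4]
    exact h3
  let f : {x : HeightOneSpectrum (𝓞 k) × ℕ // ppow x = y} →
      {v : HeightOneSpectrum (𝓞 k) // (((y.1 : Nat.Primes) : ℕ) : 𝓞 k) ∈ v.asIdeal} :=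
    fun x => ⟨x.1.1, hm x⟩
  have hf : Function.Injective f := by
    intro x x' h
    have h3 : x.1.1 = x'.1.1 := congrArg (fun z => z.1) h
    have h4 : (ppow x.1).2 = (ppow x'.1).2 := by rw [x.2, x'.2]
    have h5 := (place_facts x.1.1).2.2.1
    apply Subtype.ext
    refine Prod.ext h3 ?_
    change rdg x.1.1 * (x.1.2 + 1) - 1 = rdg x'.1.1 * (x'.1.2 + 1) - 1 at h4
    rw [← h3] at h4
    have h6 : 1 ≤ rdg x.1.1 * (x.1.2 + 1) := Nat.mul_pos h5 (Nat.succ_pos _)
    have h7 : 1 ≤ rdg x.1.1 * (x'.1.2 + 1) := Nat.mul_pos h5 (Nat.succ_pos _)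
    have h8 : rdg x.1.1 * (x.1.2 + 1) = rdg x.1.1 * (x'.1.2 + 1) := by omega
    have h9 := Nat.eq_of_mul_eq_mul_left (by omega) h8
    omega
  exact ⟨Finite.of_injective f hf, (Nat.card_le_card_of_injective f hf).trans h2⟩

theorem sum_ppow_le {G : Nat.Primes × ℕ → ℝ} (hG : ∀ y, 0 ≤ G y) (hs : Summable G) :
    Summable (fun x : HeightOneSpectrum (𝓞 k) × ℕ => G (ppow x)) ∧
      ∑' x : HeightOneSpectrum (𝓞 k) × ℕ, G (ppow x) ≤ Module.finrank ℚ k * ∑' y, G y := by
  have e1 : ∀ z : (Σ y : Nat.Primes × ℕ, {x : HeightOneSpectrum (𝓞 k) × ℕ // ppow x = y}),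
      G (ppow ((Equiv.sigmaFiberEquiv (ppow (k := k))) z)) = G z.1 := by
    intro z
    have : ppow ((Equiv.sigmaFiberEquiv (ppow (k := k))) z) = z.1 := z.2.2
    rw [this]
  have hle : ∀ y : Nat.Primes × ℕ,
      ∑' _x : {x : HeightOneSpectrum (𝓞 k) × ℕ // ppow x = y}, G y ≤
        (Module.finrank ℚ k : ℝ) * G y := by
    intro y
    obtain ⟨hfin, hcard⟩ := gf4_fiber (k := k) y
    rw [tsum_const, nsmul_eq_mul]
    refine mul_le_mul_of_nonneg_right ?_ (hG y)
    exact_mod_cast hcard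
  have hS : Summable (fun z : (Σ y : Nat.Primes × ℕ,
      {x : HeightOneSpectrum (𝓞 k) × ℕ // ppow x = y}) => G z.1) := by
    rw [summable_sigma_of_nonneg (fun x => hG x.1)]
    constructor
    · intro y
      have := (gf4_fiber (k := k) y).1
      exact Summable.of_finite
    · exact Summable.of_nonneg_of_le (fun y => tsum_nonneg fun _ => hG y) hle (hs.mul_left _)
  have hS2 : Summable (fun x : HeightOneSpectrum (𝓞 k) × ℕ => G (ppow x)) := by
    rw [← (Equiv.sigmaFiberEquiv (ppow (k := k))).summable_iff]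
    exact hS.congr fun z => (e1 z).symm
  refine ⟨hS2, ?_⟩
  have h1 : ∑' x : HeightOneSpectrum (𝓞 k) × ℕ, G (ppow x) =
      ∑' z : (Σ y : Nat.Primes × ℕ, {x : HeightOneSpectrum (𝓞 k) × ℕ // ppow x = y}), G z.1 := by
    rw [← (Equiv.sigmaFiberEquiv (ppow (k := k))).tsum_eq]
    exact tsum_congr e1
  have h2 : Summable (fun y : Nat.Primes × ℕ =>
      ∑' _x : {x : HeightOneSpectrum (𝓞 k) × ℕ // ppow x = y}, G y) :=
    Summable.of_nonneg_of_le (fun y => tsum_nonneg fun _ => hG y) hle (hs.mul_left _)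
  rw [h1, hS.tsum_sigma, ← tsum_mul_left]
  exact h2.tsum_le_tsum hle (hs.mul_left _)

end

end Pool.Agent.H16.GF
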