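import Pool.Agent.H16.GF.Defs

/-!
# Job GF-5b: the weight on the prime powers

`wgt_summable`: `∑_j (p ^ (-t)) ^ (j + 1) / (j + 1) ≤ 2 p ^ (-t)` (geometric, `p ^ (-t) ≤ 1/2`), `Nat.Primes.summable_rpow`;
`wgt_tail`: the terms with `j ≥ 1` are at most `(p ^ (-1)) ^ (j + 1)` for `t ≥ 1`, their sum over `j ≥ 1` is `p ^ (-2) / (1 - 1 / p) ≤ 2 p ^ (-2)`; so
`C = ∑' y, if y.2 = 0 then 0 else ((y.1 : ℝ)⁻¹) ^ (y.2 + 1)`, which converges (`summable_prod_of_nonneg`).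
-/

namespace Pool.Agent.H16.GF

theorem wgt_nonneg (s : ℝ) (y : Nat.Primes × ℕ) : 0 ≤ wgt s y := by
  unfold wgt
  positivity

theorem gf5b_inv_le (p : Nat.Primes) : ((p : ℕ) : ℝ)⁻¹ ≤ 1 / 2 := by
  have h : (2 : ℝ) ≤ (p : ℕ) := by exact_mod_cast p.2.two_le
  rw [one_div]
  exact inv_anti₀ (by norm_num) h

theorem gf5b_rpow_le {t : ℝ} (ht : 1 < t) (p : Nat.Primes) :
    ((p : ℕ) : ℝ) ^ (-t) ≤ ((p : ℕ) : ℝ)⁻¹ := by
  have h : (1 : ℝ) ≤ (p : ℕ) := by exact_mod_cast p.2.one_lt.le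
  rw [← Real.rpow_neg_one]
  exact Real.rpow_le_rpow_of_exponent_le h (by linarith)

theorem gf5b_wgt_le {t : ℝ} (ht : 1 < t) (y : Nat.Primes × ℕ) :
    wgt t y ≤ (((y.1 : ℕ) : ℝ) ^ (-t)) * (1 / 2) ^ y.2 := by
  have hr0 : 0 ≤ ((y.1 : ℕ) : ℝ) ^ (-t) := Real.rpow_nonneg (Nat.cast_nonneg _) _
  have hr : ((y.1 : ℕ) : ℝ) ^ (-t) ≤ 1 / 2 := (gf5b_rpow_le ht y.1).trans (gf5b_inv_le y.1)
  unfold wgt
  rw [div_le_iff₀ (by positivity), pow_succ]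
  calc (((y.1 : ℕ) : ℝ) ^ (-t)) ^ y.2 * ((y.1 : ℕ) : ℝ) ^ (-t)
      ≤ (1 / 2) ^ y.2 * ((y.1 : ℕ) : ℝ) ^ (-t) :=
        mul_le_mul_of_nonneg_right (pow_le_pow_left₀ hr0 hr _) hr0
    _ = ((y.1 : ℕ) : ℝ) ^ (-t) * (1 / 2) ^ y.2 * 1 := by ring
    _ ≤ ((y.1 : ℕ) : ℝ) ^ (-t) * (1 / 2) ^ y.2 * ((y.2 : ℝ) + 1) := by
        apply mul_le_mul_of_nonneg_left _ (by positivity)
        have : (0 : ℝ) ≤ y.2 := Nat.cast_nonneg _
        linarith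

theorem wgt_summable {t : ℝ} (ht : 1 < t) : Summable (wgt t) := by
  have h1 : Summable fun p : Nat.Primes => ((p : ℕ) : ℝ) ^ (-t) :=
    Nat.Primes.summable_rpow.mpr (by linarith)
  have h2 := h1.mul_of_nonneg summable_geometric_two
    (fun p => Real.rpow_nonneg (Nat.cast_nonneg _) _) (fun n => by positivity)
  exact Summable.of_nonneg_of_le (wgt_nonneg t) (gf5b_wgt_le ht) h2

theorem wgt_tail : ∃ C : ℝ, ∀ t : ℝ, 1 < t →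
    ∑' y : Nat.Primes × ℕ, (if y.2 = 0 then 0 else wgt t y) ≤ C := by
  have h1 : Summable fun p : Nat.Primes => ((p : ℕ) : ℝ) ^ (-2 : ℝ) :=
    Nat.Primes.summable_rpow.mpr (by norm_num)
  have h2 := (h1.mul_left 2).mul_of_nonneg summable_geometric_two
    (fun p => mul_nonneg (by norm_num) (Real.rpow_nonneg (Nat.cast_nonneg _) _))
    (fun n => by positivity)
  refine ⟨∑' y : Nat.Primes × ℕ, 2 * ((y.1 : ℕ) : ℝ) ^ (-2 : ℝ) * (1 / 2) ^ y.2, fun t ht => ?_⟩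
  have hle : ∀ y : Nat.Primes × ℕ, (if y.2 = 0 then 0 else wgt t y) ≤
      2 * ((y.1 : ℕ) : ℝ) ^ (-2 : ℝ) * (1 / 2) ^ y.2 := by
    rintro ⟨p, j⟩
    have hp0 : 0 ≤ ((p : ℕ) : ℝ)⁻¹ := by positivity
    have e2 : ((p : ℕ) : ℝ) ^ (-2 : ℝ) = (((p : ℕ) : ℝ)⁻¹) ^ 2 := by
      rw [Real.rpow_neg (Nat.cast_nonneg _), inv_pow]
      norm_num
    cases j with
    | zero => simp only [if_true]; positivity
    | succ j =>
      rw [if_neg (Nat.succ_ne_zero j)]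
      have hr0 : 0 ≤ ((p : ℕ) : ℝ) ^ (-t) := Real.rpow_nonneg (Nat.cast_nonneg _) _
      have h3 := gf5b_rpow_le ht p
      unfold wgt
      simp only
      rw [e2]
      have h4 : (((p : ℕ) : ℝ) ^ (-t)) ^ (j + 1 + 1) ≤ (((p : ℕ) : ℝ)⁻¹) ^ 2 * (1 / 2) ^ j := by
        calc (((p : ℕ) : ℝ) ^ (-t)) ^ (j + 1 + 1) ≤ (((p : ℕ) : ℝ)⁻¹) ^ (j + 1 + 1) :=
              pow_le_pow_left₀ hr0 h3 _
          _ = (((p : ℕ) : ℝ)⁻¹) ^ 2 * (((p : ℕ) : ℝ)⁻¹) ^ j := by ring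
          _ ≤ (((p : ℕ) : ℝ)⁻¹) ^ 2 * (1 / 2) ^ j :=
              mul_le_mul_of_nonneg_left (pow_le_pow_left₀ hp0 (gf5b_inv_le p) _) (by positivity)
      have h5 : (((p : ℕ) : ℝ) ^ (-t)) ^ (j + 1 + 1) / (((j + 1 : ℕ) : ℝ) + 1) ≤
          (((p : ℕ) : ℝ) ^ (-t)) ^ (j + 1 + 1) := by
        apply div_le_self (by positivity)
        have : (0 : ℝ) ≤ ((j + 1 : ℕ) : ℝ) := Nat.cast_nonneg _
        linarith
      refine h5.trans (h4.trans (le_of_eq ?_))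
      rw [pow_succ (1 / 2 : ℝ) j]
      ring
  have hnn : ∀ y : Nat.Primes × ℕ, 0 ≤ (if y.2 = 0 then 0 else wgt t y) := by
    intro y
    split_ifs
    · exact le_refl _
    · exact wgt_nonneg t y
  exact (Summable.of_nonneg_of_le hnn hle h2).tsum_le_tsum hle h2

end Pool.Agent.H16.GF
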