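import Pool.Agent.H16.GF.LogG
import Pool.Agent.H16.GF.Places
import Pool.Agent.H16.GF.Wgt

/-!
# Job GF-5a: termwise bounds for the mixed Euler product

`hA` says `‖a v n‖ ≤ B √q ^ n` outside `R`, and `hNR` that the level `N` is prime to the places outside `R`. For `x = (v, n)`, `v ∉ R`,
`ppow x = (p, j)` with `j + 1 = f (n + 1)` (`place_facts` (job GF-4, use it), `rdg v * (n + 1) ≥ 1`):
`√q ^ (n + 1) = √p ^ (j + 1)`, `(q ^ (-(t + 1))) ^ (n + 1) = (p ^ (-(t + 1))) ^ (j + 1)`,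
`formTrace fa q (n + 1) = powTr (fa p) p (j + 1) = evec N fa (p, j)` (`p ∤ N`, otherwise `N ∈ v` and `v ∈ R`; `cst N p = p`), and
`1 / (n + 1) ≤ [k : ℚ] / (j + 1)`. So with `u² = wgt t y`, `w² = evec ² wgt (t + 1) y`, `y = ppow x`
(`wgt t y * (evec ² wgt (t + 1) y) * p ^ (-(j + 1))`... in short `√p ^ (j + 1) |evec| (p ^ (-(t + 1))) ^ (j + 1) / (j + 1) = √(wgt t y) √(evec² wgt (t + 1) y)`,
because `p ^ (-(t + 1)) √p = √(p ^ (-t) p ^ (-(t + 1)))`):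
`‖trm‖ ≤ B [k : ℚ] u w ≤ B [k : ℚ] (lam u² + w² / lam) / 2`.
-/

open NumberField IsDedekindDomain Filter Topology Polynomial

namespace Pool.Agent.H16.GF

open Pool.Agent.H3.TatePole Pool.Agent.H18.RS

noncomputable section

variable {k : Type*} [Field k] [NumberField k]

/-- the traces on `H¹(Y) ⊗ V_f` -/
def cr (a : HeightOneSpectrum (𝓞 k) → ℕ → ℂ) (fa : ℕ → ℝ) (v : HeightOneSpectrum (𝓞 k)) (n : ℕ) :
    ℂ := a v n * (formTrace fa (Ideal.absNorm v.asIdeal) n : ℂ)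

theorem gf5a_alg {p : ℝ} (hp : 0 < p) (t : ℝ) (J : ℕ) :
    Real.sqrt ((p ^ (-t)) ^ J) * Real.sqrt ((p ^ (-(t + 1))) ^ J) =
      Real.sqrt p ^ J * (p ^ (-(t + 1))) ^ J := by
  have h1 : 0 ≤ p ^ (-t) := (Real.rpow_pos_of_pos hp _).le
  have h2 : 0 ≤ p ^ (-(t + 1)) := (Real.rpow_pos_of_pos hp _).le
  have h3 : p ^ (-t) = p * p ^ (-(t + 1)) := by
    nth_rewrite 2 [← Real.rpow_one p]
    rw [← Real.rpow_add hp]
    congr 1
    ring
  rw [← Real.sqrt_mul (pow_nonneg h1 J), ← mul_pow, h3]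
  have h4 : p * p ^ (-(t + 1)) * p ^ (-(t + 1)) = (Real.sqrt p * p ^ (-(t + 1))) ^ 2 := by
    rw [mul_pow, Real.sq_sqrt hp.le]
    ring
  rw [h4, ← pow_mul, mul_comm 2 J, pow_mul, Real.sqrt_sq (by positivity), mul_pow]

theorem gf5a_amgm {lam w₁ w₂ e : ℝ} (hlam : 0 < lam) (h1 : 0 ≤ w₁) (h2 : 0 ≤ w₂) :
    Real.sqrt w₁ * Real.sqrt w₂ * |e| ≤ (lam * w₁ + e ^ 2 * w₂ / lam) / 2 := by
  have h3 : lam * w₁ + e ^ 2 * w₂ / lam - 2 * (Real.sqrt w₁ * Real.sqrt w₂ * |e|) =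
      (lam * Real.sqrt w₁ - Real.sqrt w₂ * |e|) ^ 2 / lam := by
    have e1 := Real.sq_sqrt h1
    have e2 := Real.sq_sqrt h2
    have e3 := sq_abs e
    rw [← e3]
    generalize Real.sqrt w₁ = s₁ at *
    generalize Real.sqrt w₂ = s₂ at *
    subst e1 e2
    field_simp
    ring
  have h4 : 0 ≤ (lam * Real.sqrt w₁ - Real.sqrt w₂ * |e|) ^ 2 / lam := by positivity
  linarith

theorem cross_bound {R : Finset (HeightOneSpectrum (𝓞 k))}
    {a : HeightOneSpectrum (𝓞 k) → ℕ → ℂ} {B : ℝ} (hB : 0 ≤ B)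
    (hA : ∀ v ∉ R, ∀ n, 0 < n → ‖a v n‖ ≤ B * Real.sqrt (Ideal.absNorm v.asIdeal) ^ n)
    {N : ℕ} {fa : ℕ → ℝ} (hNR : ∀ v : HeightOneSpectrum (𝓞 k), (N : 𝓞 k) ∈ v.asIdeal → v ∈ R)
    {t : ℝ} (ht : 1 < t) {lam : ℝ} (hlam : 0 < lam) (x : HeightOneSpectrum (𝓞 k) × ℕ) :
    ‖trmR R (cr a fa) t x‖ ≤ B * Module.finrank ℚ k *
      ((lam * wgt t (ppow x) + evec N fa (ppow x) ^ 2 * wgt (t + 1) (ppow x) / lam) / 2) := by
  obtain ⟨v, n⟩ := x
  have hw1 := wgt_nonneg t (ppow (v, n))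
  have hw2 := wgt_nonneg (t + 1) (ppow (v, n))
  by_cases hv : v ∈ R
  · unfold trmR
    rw [if_pos hv, norm_zero]
    positivity
  obtain ⟨hp, hq, hf1, hf2, hmem⟩ := place_facts v
  have hN : ¬ pch v ∣ N := by
    rintro ⟨m, hm⟩
    apply hv
    apply hNR
    rw [hm]
    push_cast
    exact Ideal.mul_mem_right _ _ hmem
  have hp0 : (0 : ℝ) < (pch v : ℝ) := by exact_mod_cast hp.pos
  set p : ℝ := (pch v : ℝ) with hpdef
  set J : ℕ := rdg v * (n + 1) with hJ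
  have hJ1 : 1 ≤ J := Nat.mul_pos hf1 (Nat.succ_pos n)
  have hy : ppow (v, n) = (⟨pch v, hp⟩, J - 1) := rfl
  have hJ2 : ((J - 1 : ℕ) : ℝ) + 1 = J := by
    rw [Nat.cast_sub hJ1]
    push_cast
    ring
  have hev : evec N fa (ppow (v, n)) = formTrace fa (Ideal.absNorm v.asIdeal) (n + 1) := by
    rw [hy]
    unfold evec formTrace cst
    simp only
    rw [if_neg hN, Nat.sub_add_cancel hJ1]
    rfl
  have hqr : nrm v = p ^ rdg v := by
    unfold nrm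
    rw [hq]
    push_cast
    rfl
  have hJr : (J : ℝ) = (rdg v : ℝ) * ((n : ℝ) + 1) := by
    rw [hJ]
    push_cast
    ring
  have hJ0 : (0 : ℝ) < J := by exact_mod_cast hJ1
  have hn0 : (0 : ℝ) < (n : ℝ) + 1 := by positivity
  -- the norm
  have hx0 : 0 ≤ nrm v ^ (-(t + 1)) := (Real.rpow_pos_of_pos (nrm_pos v) _).le
  have hnorm : ‖trmR R (cr a fa) t (v, n)‖ = ‖a v (n + 1)‖ * |evec N fa (ppow (v, n))| *
      (nrm v ^ (-(t + 1))) ^ (n + 1) / ((n : ℝ) + 1) := by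
    unfold trmR trm cr
    simp only
    rw [if_neg hv, norm_div, norm_mul, norm_mul, norm_pow, Complex.norm_real, Complex.norm_real,
      Real.norm_of_nonneg hx0, Real.norm_eq_abs, hev]
    congr 1
    have : ((n : ℂ) + 1) = ((n + 1 : ℕ) : ℂ) := by push_cast; rfl
    rw [this, Complex.norm_natCast]
    push_cast
    rfl
  have hx1 : (nrm v ^ (-(t + 1))) ^ (n + 1) = (p ^ (-(t + 1))) ^ J := by
    rw [hqr, hJ, pow_mul]
    congr 1
    rw [← Real.rpow_natCast p, ← Real.rpow_natCast (p ^ (-(t + 1))), ← Real.rpow_mul hp0.le,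
      ← Real.rpow_mul hp0.le, mul_comm]
  have hs1 : Real.sqrt (Ideal.absNorm v.asIdeal) ^ (n + 1) = Real.sqrt p ^ J := by
    have : ((Ideal.absNorm v.asIdeal : ℕ) : ℝ) = p ^ rdg v := hqr
    rw [this, hJ, pow_mul]
    congr 1
    rw [Real.sqrt_eq_iff_mul_self_eq (by positivity) (by positivity), ← mul_pow,
      Real.mul_self_sqrt hp0.le]
  have hA' := hA v hv (n + 1) (Nat.succ_pos n)
  rw [hs1] at hA'
  have hw1' : wgt t (ppow (v, n)) = (p ^ (-t)) ^ J / J := by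
    rw [hy]
    unfold wgt
    simp only
    rw [hJ2, Nat.sub_add_cancel hJ1]
  have hw2' : wgt (t + 1) (ppow (v, n)) = (p ^ (-(t + 1))) ^ J / J := by
    rw [hy]
    unfold wgt
    simp only
    rw [hJ2, Nat.sub_add_cancel hJ1]
  have hkey : Real.sqrt (wgt t (ppow (v, n))) * Real.sqrt (wgt (t + 1) (ppow (v, n))) =
      Real.sqrt p ^ J * (p ^ (-(t + 1))) ^ J / J := by
    rw [hw1', hw2', Real.sqrt_div' _ hJ0.le, Real.sqrt_div' _ hJ0.le, div_mul_div_comm,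
      Real.mul_self_sqrt hJ0.le, gf5a_alg hp0]
  have ham := gf5a_amgm (e := evec N fa (ppow (v, n))) hlam hw1 hw2
  rw [hkey] at ham
  rw [hnorm, hx1]
  have hinv : 1 / ((n : ℝ) + 1) ≤ (Module.finrank ℚ k : ℝ) / J := by
    rw [div_le_div_iff₀ hn0 hJ0, hJr, one_mul]
    exact mul_le_mul_of_nonneg_right (by exact_mod_cast hf2) hn0.le
  have hpow0 : 0 ≤ (p ^ (-(t + 1))) ^ J := pow_nonneg (Real.rpow_pos_of_pos hp0 _).le _
  calc ‖a v (n + 1)‖ * |evec N fa (ppow (v, n))| * (p ^ (-(t + 1))) ^ J / ((n : ℝ) + 1)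
      ≤ (B * Real.sqrt p ^ J) * |evec N fa (ppow (v, n))| * (p ^ (-(t + 1))) ^ J /
          ((n : ℝ) + 1) := by gcongr
    _ = (B * Real.sqrt p ^ J) * |evec N fa (ppow (v, n))| * (p ^ (-(t + 1))) ^ J *
          (1 / ((n : ℝ) + 1)) := by ring
    _ ≤ (B * Real.sqrt p ^ J) * |evec N fa (ppow (v, n))| * (p ^ (-(t + 1))) ^ J *
          ((Module.finrank ℚ k : ℝ) / J) := mul_le_mul_of_nonneg_left hinv (by positivity)
    _ = B * Module.finrank ℚ k * (Real.sqrt p ^ J * (p ^ (-(t + 1))) ^ J / J *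
          |evec N fa (ppow (v, n))|) := by ring
    _ ≤ _ := mul_le_mul_of_nonneg_left ham (by positivity)

end

end Pool.Agent.H16.GF
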