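import Pool.Agent.H16.GF.EulerLog
import Pool.Agent.H18.RS.RSFinal

/-!
# The two Rankin-Selberg upper bounds over the prime powers
-/

open UpperHalfPlane MeasureTheory CongruenceSubgroup
open scoped MatrixGroups Modular ComplexConjugate

namespace Pool.Agent.H16.GF

open Pool.Agent.H18.RS

theorem evec_summable {N : ℕ} (hN : 0 < N) {f : CuspForm (Gamma0 N : Subgroup (GL (Fin 2) ℝ)) 2}
    {a : ℕ → ℝ} (h : IsEigenform N f a) {s : ℝ} (hs : 2 < s) :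
    Summable fun x : Nat.Primes × ℕ => evec N a x ^ 2 * wgt s x := by
  obtain ⟨hd, hh⟩ := datum_of_eigenform hN h
  obtain ⟨C₁, hC₁⟩ := sq_series hd
  exact diag_summable hN hh (fun s hs => (hC₁ s hs).1) hs

theorem rs_diag {N : ℕ} (hN : 0 < N) {f : CuspForm (Gamma0 N : Subgroup (GL (Fin 2) ℝ)) 2}
    {a : ℕ → ℝ} (h : IsEigenform N f a) :
    ∃ C : ℝ, ∀ s : ℝ, 2 < s → s ≤ 3 →
      ∑' x : Nat.Primes × ℕ, evec N a x * evec N a x * wgt s x ≤ Real.log (1 / (s - 2)) + C := by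
  obtain ⟨hd, hh⟩ := datum_of_eigenform hN h
  obtain ⟨C₁, hC₁⟩ := sq_series hd
  obtain ⟨C₂, hC₂, hC₂'⟩ := euler_log hN hN hh hh (fun s hs => (hC₁ s hs).1)
    (fun s hs => (hC₁ s hs).1)
  refine ⟨Real.log (C₂ * C₁), fun s hs1 hs2 => ?_⟩
  have h0 : 0 < s - 2 := by linarith
  have h1 := hC₂' s hs1 hs2
  have h2 := (hC₁ s hs1).2 hs2
  have h3 : ∑' n : ℕ, a n * a n * (n : ℝ) ^ (-s) ≤ C₁ / (s - 2) := by
    refine le_of_eq_of_le (tsum_congr fun n => ?_) h2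
    rw [sq]
  have h4 : Real.exp (∑' x : Nat.Primes × ℕ, evec N a x * evec N a x * wgt s x) ≤
      C₂ * (C₁ / (s - 2)) :=
    h1.trans (mul_le_mul_of_nonneg_left h3 hC₂.le)
  have h5 : 0 < C₂ * (C₁ / (s - 2)) := (Real.exp_pos _).trans_le h4
  have h6 : 0 < C₂ * C₁ := by
    have : C₂ * C₁ = C₂ * (C₁ / (s - 2)) * (s - 2) := by field_simp
    rw [this]
    positivity
  rw [← Real.log_exp (∑' x : Nat.Primes × ℕ, evec N a x * evec N a x * wgt s x)]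
  refine (Real.log_le_log (Real.exp_pos _) h4).trans ?_
  have h7 : C₂ * (C₁ / (s - 2)) = (1 / (s - 2)) * (C₂ * C₁) := by field_simp
  rw [h7, Real.log_mul (by positivity) h6.ne']

theorem rs_offdiag {N₁ N₂ : ℕ} (hN₁ : 0 < N₁) (hN₂ : 0 < N₂)
    {f : CuspForm (Gamma0 N₁ : Subgroup (GL (Fin 2) ℝ)) 2}
    {g : CuspForm (Gamma0 N₂ : Subgroup (GL (Fin 2) ℝ)) 2}
    {a b : ℕ → ℝ} (hf : IsEigenform N₁ f a) (hg : IsEigenform N₂ g b)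
    (hne : {p : ℕ | p.Prime ∧ a p ≠ b p}.Infinite) :
    ∃ C : ℝ, ∀ s : ℝ, 2 < s → s ≤ 3 →
      ∑' x : Nat.Primes × ℕ, evec N₁ a x * evec N₂ b x * wgt s x ≤ C := by
  obtain ⟨hd1, hh1⟩ := datum_of_eigenform hN₁ hf
  obtain ⟨hd2, hh2⟩ := datum_of_eigenform hN₂ hg
  obtain ⟨C₁, hC₁⟩ := sq_series hd1
  obtain ⟨C₂, hC₂⟩ := sq_series hd2
  obtain ⟨C₃, hC₃, hC₃'⟩ := euler_log hN₁ hN₂ hh1 hh2 (fun s hs => (hC₁ s hs).1)
    (fun s hs => (hC₂ s hs).1)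
  obtain ⟨q, ⟨hq, hab⟩, hqn⟩ : ∃ q ∈ {p : ℕ | p.Prime ∧ a p ≠ b p}, ¬ q ≤ N₁ * N₂ := by
    by_contra hcon
    push Not at hcon
    exact hne ((Set.finite_Iic (N₁ * N₂)).subset fun p hp => hcon p hp)
  have hN : 0 < N₁ * N₂ := Nat.mul_pos hN₁ hN₂
  have hq1 : ¬ q ∣ N₁ * N₂ := fun h => hqn (Nat.le_of_dvd hN h)
  have hqa : ¬ q ∣ N₁ := fun h => hq1 (h.mul_right _)
  have hqb : ¬ q ∣ N₂ := fun h => hq1 (h.mul_left _)
  obtain ⟨C₄, hC₄⟩ := orth hN hq hq1 (hd1.mono (Dvd.intro _ rfl)) (hd2.mono (Dvd.intro_left _ rfl))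
  have hab' : 0 < |a q - b q| := abs_pos.mpr (sub_ne_zero.mpr hab)
  refine ⟨Real.log (C₃ * (C₄ / |a q - b q|)), fun s hs1 hs2 => ?_⟩
  have h1 := twist_relation hh1 hh2 hq hqa hqb (hC₁ s hs1).1 (hC₂ s hs1).1
  have h2 := hC₄ s hs1 hs2
  set Δ := (∑' n : ℕ, a (q * n) * b n * (n : ℝ) ^ (-s)) -
    ∑' n : ℕ, a n * b (q * n) * (n : ℝ) ^ (-s) with hΔ
  set A := ∑' n : ℕ, a n * b n * (n : ℝ) ^ (-s) with hA
  have hq0 : (0 : ℝ) < q := Nat.cast_pos.mpr hq.pos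
  have h3 : |1 - (q : ℝ) ^ (1 - s)| ≤ 1 := by
    have e1 : 0 < (q : ℝ) ^ (1 - s) := Real.rpow_pos_of_pos hq0 _
    have e2 : (q : ℝ) ^ (1 - s) ≤ 1 :=
      Real.rpow_le_one_of_one_le_of_nonpos (by exact_mod_cast hq.one_lt.le) (by linarith)
    rw [abs_le]
    constructor <;> linarith
  have h4 : |a q - b q| * |A| ≤ C₄ := by
    rw [← abs_mul, ← h1, abs_mul]
    calc |Δ| * |1 - (q : ℝ) ^ (1 - s)| ≤ |Δ| * 1 := mul_le_mul_of_nonneg_left h3 (abs_nonneg _)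
      _ = |Δ| := mul_one _
      _ ≤ C₄ := h2
  have h5 : A ≤ C₄ / |a q - b q| := by
    rw [le_div_iff₀ hab']
    have := le_abs_self A
    nlinarith
  have h6 : Real.exp (∑' x : Nat.Primes × ℕ, evec N₁ a x * evec N₂ b x * wgt s x) ≤
      C₃ * (C₄ / |a q - b q|) :=
    (hC₃' s hs1 hs2).trans (mul_le_mul_of_nonneg_left h5 hC₃.le)
  rw [← Real.log_exp (∑' x : Nat.Primes × ℕ, evec N₁ a x * evec N₂ b x * wgt s x)]
  exact Real.log_le_log (Real.exp_pos _) h6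

end Pool.Agent.H16.GF
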