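import Pool.Agent.H16.GF.CrossA
import Pool.Agent.H16.GF.Rs

/-!
# The mixed Euler product: summability
-/

open NumberField IsDedekindDomain Filter Topology Polynomial CongruenceSubgroup
open scoped MatrixGroups

namespace Pool.Agent.H16.GF

open Pool.Agent.H3.TatePole Pool.Agent.H18.RS Pool.Agent.H1.Tate

noncomputable section

variable {k : Type*} [Field k] [NumberField k]

open Classical in
/-- the normalised real part of the first trace of `Y`, `0` on `R` -/
def bU (R : Finset (HeightOneSpectrum (𝓞 k))) (a : HeightOneSpectrum (𝓞 k) → ℕ → ℂ)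
    (v : HeightOneSpectrum (𝓞 k)) : ℝ :=
  if v ∈ R then 0 else (a v 1).re / Real.sqrt (Ideal.absNorm v.asIdeal)

/-- the bound of `cross_bound` as a function of the prime power -/
def bnd (N : ℕ) (fa : ℕ → ℝ) (t lam : ℝ) (y : Nat.Primes × ℕ) : ℝ :=
  (lam * wgt t y + evec N fa y ^ 2 * wgt (t + 1) y / lam) / 2

theorem bnd_nonneg (N : ℕ) (fa : ℕ → ℝ) (t : ℝ) {lam : ℝ} (hlam : 0 < lam) (y : Nat.Primes × ℕ) :
    0 ≤ bnd N fa t lam y := by
  unfold bnd
  have h1 := wgt_nonneg t y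
  have h2 := wgt_nonneg (t + 1) y
  positivity

theorem bnd_summable {N : ℕ} (hN : 0 < N)
    {f : CuspForm (Gamma0 N : Subgroup (GL (Fin 2) ℝ)) 2} {fa : ℕ → ℝ}
    (hf : IsEigenform N f fa) {t : ℝ} (ht : 1 < t) (lam : ℝ) : Summable (bnd N fa t lam) := by
  unfold bnd
  exact (((wgt_summable ht).mul_left lam).add
    ((evec_summable hN hf (by linarith : (2 : ℝ) < t + 1)).div_const lam)).div_const 2

theorem cross_summable {R : Finset (HeightOneSpectrum (𝓞 k))}
    {a : HeightOneSpectrum (𝓞 k) → ℕ → ℂ} {B : ℝ} (hB : 0 ≤ B)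
    (hA : ∀ v ∉ R, ∀ n, 0 < n → ‖a v n‖ ≤ B * Real.sqrt (Ideal.absNorm v.asIdeal) ^ n)
    {N : ℕ} (hN : 0 < N) {f : CuspForm (Gamma0 N : Subgroup (GL (Fin 2) ℝ)) 2} {fa : ℕ → ℝ}
    (hf : IsEigenform N f fa)
    (hNR : ∀ v : HeightOneSpectrum (𝓞 k), (N : 𝓞 k) ∈ v.asIdeal → v ∈ R) {t : ℝ} (ht : 1 < t) :
    Summable (trmR R (cr a fa) t) := by
  have h1 := (sum_ppow_le (k := k) (G := bnd N fa t 1) (bnd_nonneg N fa t one_pos)
    (bnd_summable hN hf ht 1)).1
  exact Summable.of_norm_bounded (h1.mul_left (B * Module.finrank ℚ k))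
    fun x => cross_bound hB hA hNR ht one_pos x

end

end Pool.Agent.H16.GF
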