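import Pool.Agent.H16.GF.CrossB

/-!
# Job GF-6b: the places of degree one in the mixed Euler product

`(ppow x).2 = 0` iff `rdg v = 1` and `x.2 = 0` (`x = (v, n)`, `ppow x = (pch v, rdg v (n + 1) - 1)`, `rdg v ≥ 1`; `place_facts`, `sum_ppow_le`
are job GF-4, use them); then the norm `q = p` of `v` is prime and for `v ∉ R` the real part of the term is
`Re (a v 1) * fa q * q ^ (-(t + 1)) = bU v * (√q * fa q) * q ^ (-(t + 1))` (`formTrace fa q 1 = powTr (fa q) q 1 = fa q`: `q.minFac = q`,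
`q.factorization q = 1`; `nrm v` is the real number `Ideal.absNorm v.asIdeal`); for `v ∈ R` it is `0` and `bU v = 0`. Summability of the real
parts: `cross_summable`. The sum over these `x` is the sum over the `v` of prime norm (the function vanishes unless `x.2 = 0`: `tsum_prod` +
`tsum_eq_single 0`, or `Function.Injective.tsum_eq` for `v ↦ (v, 0)`; `rdg v = 1` iff the norm is prime), which is
`∑' p, fib (bU R a) p * (√p * fa p) * p ^ (-(t + 1))` by the fibres of the norm (`hasSum_fib` in H18/RS/Fib.lean or its proof;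
`fib U p` is a finite sum, `tsum_mul_right`).
-/

open NumberField IsDedekindDomain Filter Topology Polynomial CongruenceSubgroup
open scoped MatrixGroups

namespace Pool.Agent.H16.GF

open Pool.Agent.H3.TatePole Pool.Agent.H18.RS Pool.Agent.H1.Tate

variable {k : Type*} [Field k] [NumberField k]

theorem gf6b_formTrace (fa : ℕ → ℝ) {p : ℕ} (hp : p.Prime) : formTrace fa p 1 = fa p := by
  unfold formTrace
  rw [hp.minFac_eq, hp.factorization_self, mul_one]
  rfl

/-- the first exponent and the residue degree one -/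
theorem gf6b_ppow (x : HeightOneSpectrum (𝓞 k) × ℕ) :
    (ppow x).2 = 0 ↔ (Ideal.absNorm x.1.asIdeal).Prime ∧ x.2 = 0 := by
  obtain ⟨h1, h2, h3, -, -⟩ := place_facts x.1
  have e : (ppow x).2 = rdg x.1 * (x.2 + 1) - 1 := rfl
  rw [e]
  constructor
  · intro h
    have h4 : rdg x.1 * (x.2 + 1) ≤ 1 := by omega
    have h5 : rdg x.1 * 1 ≤ rdg x.1 * (x.2 + 1) := Nat.mul_le_mul_left _ (by omega)
    have h6 : rdg x.1 = 1 := by omega
    rw [h6] at h4
    refine ⟨?_, by omega⟩
    rw [h2, h6, pow_one]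
    exact h1
  · rintro ⟨h4, h5⟩
    have h6 : rdg x.1 = 1 := by
      by_contra hne
      rw [h2] at h4
      exact Nat.Prime.not_prime_pow (by omega) h4
    rw [h5, h6]

/-- the term at a place of prime norm -/
theorem gf6b_term (R : Finset (HeightOneSpectrum (𝓞 k)))
    (a : HeightOneSpectrum (𝓞 k) → ℕ → ℂ) (fa : ℕ → ℝ) (t : ℝ) {p : ℕ} (hp : p.Prime)
    (v : HeightOneSpectrum (𝓞 k)) (hv : Ideal.absNorm v.asIdeal = p) :
    (trmR R (cr a fa) t (v, 0)).re =
      bU R a v * ((Real.sqrt p * fa p) * (p : ℝ) ^ (-(t + 1))) := by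
  classical
  unfold trmR bU
  by_cases h : v ∈ R
  · simp [h]
  · rw [if_neg h, if_neg h]
    have hp0 : (0 : ℝ) < Real.sqrt p := Real.sqrt_pos.2 (by exact_mod_cast hp.pos)
    have e1 : trm (cr a fa) t (v, 0) =
        (((fa p * (p : ℝ) ^ (-(t + 1)) : ℝ)) : ℂ) * a v 1 := by
      unfold trm cr nrm
      simp only [hv, zero_add, pow_one, gf6b_formTrace fa hp, Nat.cast_zero, div_one]
      push_cast
      ring
    rw [e1, Complex.re_ofReal_mul, hv]
    field_simp

theorem cross_prime {R : Finset (HeightOneSpectrum (𝓞 k))}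
    {a : HeightOneSpectrum (𝓞 k) → ℕ → ℂ} {B : ℝ} (hB : 0 ≤ B)
    (hA : ∀ v ∉ R, ∀ n, 0 < n → ‖a v n‖ ≤ B * Real.sqrt (Ideal.absNorm v.asIdeal) ^ n)
    {N : ℕ} (hN : 0 < N) {f : CuspForm (Gamma0 N : Subgroup (GL (Fin 2) ℝ)) 2} {fa : ℕ → ℝ}
    (hf : IsEigenform N f fa)
    (hNR : ∀ v : HeightOneSpectrum (𝓞 k), (N : 𝓞 k) ∈ v.asIdeal → v ∈ R) {t : ℝ} (ht : 1 < t) :
    ∑' x : HeightOneSpectrum (𝓞 k) × ℕ,
        (if (ppow x).2 = 0 then (trmR R (cr a fa) t x).re else 0) =
      ∑' p : Nat.Primes, fib (bU R a) p * (Real.sqrt p * fa p) * (p : ℝ) ^ (-(t + 1)) := by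
  classical
  have hS := cross_summable hB hA hN hf hNR ht
  have hinj : Function.Injective (fun v : HeightOneSpectrum (𝓞 k) => (v, (0 : ℕ))) := by
    intro v w h
    exact congrArg Prod.fst h
  have hF : Summable (fun v : HeightOneSpectrum (𝓞 k) => (trmR R (cr a fa) t (v, 0)).re) :=
    (Complex.reCLM.summable hS).comp_injective hinj
  rw [← hinj.tsum_eq]
  · have e1 : ∀ v : HeightOneSpectrum (𝓞 k),
        (if (ppow (v, (0 : ℕ))).2 = 0 then (trmR R (cr a fa) t (v, 0)).re else 0) =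
          if (Ideal.absNorm v.asIdeal).Prime then (trmR R (cr a fa) t (v, 0)).re else 0 := by
      intro v
      refine if_congr ?_ rfl rfl
      rw [gf6b_ppow]
      simp
    rw [tsum_congr e1, ← (hasSum_fib hF).tsum_eq]
    refine tsum_congr fun p => ?_
    have e2 : ∀ v : {v : HeightOneSpectrum (𝓞 k) // Ideal.absNorm v.asIdeal = (p : ℕ)},
        (trmR R (cr a fa) t ((v : HeightOneSpectrum (𝓞 k)), 0)).re =
          bU R a v * ((Real.sqrt (p : ℕ) * fa p) * ((p : ℕ) : ℝ) ^ (-(t + 1))) :=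
      fun v => gf6b_term R a fa t p.2 v.1 v.2
    calc _ = ∑' v : {v : HeightOneSpectrum (𝓞 k) // Ideal.absNorm v.asIdeal = (p : ℕ)},
          bU R a v * ((Real.sqrt (p : ℕ) * fa p) * ((p : ℕ) : ℝ) ^ (-(t + 1))) := tsum_congr e2
      _ = fib (bU R a) p * ((Real.sqrt (p : ℕ) * fa p) * ((p : ℕ) : ℝ) ^ (-(t + 1))) :=
          tsum_mul_right
      _ = _ := (mul_assoc _ _ _).symm
  · intro x hx
    have h1 : (ppow x).2 = 0 := by
      by_contra h
      exact hx (if_neg h)
    rw [gf6b_ppow] at h1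
    exact ⟨x.1, Prod.ext rfl h1.2.symm⟩

end Pool.Agent.H16.GF
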