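import Pool.Agent.H16.GF.CrossB

/-!
# Job GF-6c: the remaining terms of the mixed Euler product

The norm of the term at `x` is at most `B n * bnd N fa t lam (ppow x)` (`cross_bound`; `n = [k : ℚ]`), so by `sum_ppow_le` (job GF-4, use it) applied to
`G y = if y.2 = 0 then 0 else bnd N fa t lam y` the sum below is in absolute value at most
`B n² ∑' y, G y ≤ B n² (lam C₁ + (log (1 / (t - 1)) + C₂) / lam) / 2` with `C₁` from `wgt_tail` (job GF-5b, use it) and `C₂` from
`rs_diag` (Rs.lean; `s = t + 1`, drop the condition `y.2 ≠ 0` in this part, all terms are nonnegative).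
-/

open NumberField IsDedekindDomain Filter Topology Polynomial CongruenceSubgroup
open scoped MatrixGroups

namespace Pool.Agent.H16.GF

open Pool.Agent.H3.TatePole Pool.Agent.H18.RS Pool.Agent.H1.Tate

variable {k : Type*} [Field k] [NumberField k]

theorem gf6c_core {X : Type*} (pp : X → Nat.Primes × ℕ) (F : X → ℝ) (K : ℝ)
    (G : Nat.Primes × ℕ → ℝ) (n : ℝ) (hK : 0 ≤ K) (hF : ∀ x, |F x| ≤ K * G (pp x))
    (hs : Summable fun x => G (pp x)) (hle : ∑' x, G (pp x) ≤ n * ∑' y, G y) :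
    |∑' x, F x| ≤ K * (n * ∑' y, G y) := by
  have hsF : Summable fun x => |F x| :=
    Summable.of_nonneg_of_le (fun x => abs_nonneg _) hF (hs.mul_left K)
  have h1 : |∑' x, F x| ≤ ∑' x, |F x| := by
    have h2 : Summable fun x => ‖F x‖ := by simpa only [Real.norm_eq_abs] using hsF
    have h3 := norm_tsum_le_tsum_norm h2
    simpa only [Real.norm_eq_abs] using h3
  calc |∑' x, F x| ≤ ∑' x, |F x| := h1
    _ ≤ ∑' x, K * G (pp x) := hsF.tsum_le_tsum hF (hs.mul_left K)
    _ = K * ∑' x, G (pp x) := tsum_mul_left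
    _ ≤ K * (n * ∑' y, G y) := mul_le_mul_of_nonneg_left hle hK

theorem gf6c_split (w e : Nat.Primes × ℕ → ℝ) (hw : ∀ y, 0 ≤ w y) (he : ∀ y, 0 ≤ e y)
    (hws : Summable w) (hes : Summable e) {lam C1 C3 : ℝ} (hlam : 0 < lam)
    (h1 : ∑' y : Nat.Primes × ℕ, (if y.2 = 0 then 0 else w y) ≤ C1) (h3 : ∑' y, e y ≤ C3) :
    ∑' y : Nat.Primes × ℕ, (if y.2 = 0 then 0 else (lam * w y + e y / lam) / 2) ≤
      (lam * C1 + C3 / lam) / 2 := by
  have hw' : Summable fun y : Nat.Primes × ℕ => if y.2 = 0 then 0 else w y := by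
    refine Summable.of_nonneg_of_le (fun y => ?_) (fun y => ?_) hws
    · split_ifs
      · exact le_refl _
      · exact hw y
    · split_ifs
      · exact hw y
      · exact le_refl _
  have hsum : Summable fun y : Nat.Primes × ℕ =>
      (lam * (if y.2 = 0 then 0 else w y) + e y / lam) / 2 :=
    ((hw'.mul_left lam).add (hes.div_const lam)).div_const 2
  have hle : ∀ y : Nat.Primes × ℕ, (if y.2 = 0 then 0 else (lam * w y + e y / lam) / 2) ≤
      (lam * (if y.2 = 0 then 0 else w y) + e y / lam) / 2 := by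
    intro y
    have h4 := he y
    split_ifs
    · positivity
    · exact le_refl _
  have hnn : ∀ y : Nat.Primes × ℕ, 0 ≤ (if y.2 = 0 then 0 else (lam * w y + e y / lam) / 2) := by
    intro y
    have h4 := he y
    have h5 := hw y
    split_ifs
    · exact le_refl _
    · positivity
  calc ∑' y : Nat.Primes × ℕ, (if y.2 = 0 then 0 else (lam * w y + e y / lam) / 2)
      ≤ ∑' y : Nat.Primes × ℕ, (lam * (if y.2 = 0 then 0 else w y) + e y / lam) / 2 :=
        (Summable.of_nonneg_of_le hnn hle hsum).tsum_le_tsum hle hsum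
    _ = (lam * (∑' y : Nat.Primes × ℕ, (if y.2 = 0 then 0 else w y)) + (∑' y, e y) / lam) / 2 := by
        rw [tsum_div_const, (hw'.mul_left lam).tsum_add (hes.div_const lam), tsum_mul_left,
          tsum_div_const]
    _ ≤ (lam * C1 + C3 / lam) / 2 := by
        apply div_le_div_of_nonneg_right _ (by norm_num)
        apply add_le_add
        · exact mul_le_mul_of_nonneg_left h1 hlam.le
        · exact div_le_div_of_nonneg_right h3 hlam.le

theorem gf6c_arith {D C1 C2 L lam : ℝ} (hD : 0 ≤ D) (hL : 0 ≤ L) (hlam : 0 < lam) :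
    D * ((lam * C1 + (L + C2) / lam) / 2) ≤
      (D + |C1| + |C2|) * (lam * (D + |C1| + |C2|) + (L + (D + |C1| + |C2|)) / lam) := by
  have a1 := abs_nonneg C1
  have a2 := abs_nonneg C2
  have b1 := le_abs_self C1
  have b2 := le_abs_self C2
  have e1 : D * C1 ≤ (D + |C1| + |C2|) * (D + |C1| + |C2|) := by
    calc D * C1 ≤ D * |C1| := mul_le_mul_of_nonneg_left b1 hD
      _ ≤ (D + |C1| + |C2|) * (D + |C1| + |C2|) :=
        mul_le_mul (by linarith) (by linarith) a1 (by linarith)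
  have e2 : D * (L + C2) ≤ (D + |C1| + |C2|) * (L + (D + |C1| + |C2|)) := by
    calc D * (L + C2) ≤ D * (L + |C2|) := mul_le_mul_of_nonneg_left (by linarith) hD
      _ ≤ (D + |C1| + |C2|) * (L + (D + |C1| + |C2|)) :=
        mul_le_mul (by linarith) (by linarith) (by linarith) (by linarith)
  have p1 : 0 ≤ (D + |C1| + |C2|) * (D + |C1| + |C2|) := by positivity
  have p2 : 0 ≤ (D + |C1| + |C2|) * (L + (D + |C1| + |C2|)) := by positivity
  have f1 : D * C1 * lam ≤ (D + |C1| + |C2|) * (D + |C1| + |C2|) * lam :=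
    mul_le_mul_of_nonneg_right e1 hlam.le
  have f2 : D * (L + C2) / lam ≤ (D + |C1| + |C2|) * (L + (D + |C1| + |C2|)) / lam :=
    div_le_div_of_nonneg_right e2 hlam.le
  have q1 : 0 ≤ (D + |C1| + |C2|) * (D + |C1| + |C2|) * lam := by positivity
  have q2 : 0 ≤ (D + |C1| + |C2|) * (L + (D + |C1| + |C2|)) / lam := by positivity
  have l1 : D * ((lam * C1 + (L + C2) / lam) / 2) = (D * C1 * lam + D * (L + C2) / lam) / 2 := by
    ring
  have l2 : (D + |C1| + |C2|) * (lam * (D + |C1| + |C2|) + (L + (D + |C1| + |C2|)) / lam) =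
      (D + |C1| + |C2|) * (D + |C1| + |C2|) * lam +
        (D + |C1| + |C2|) * (L + (D + |C1| + |C2|)) / lam := by ring
  rw [l1, l2]
  linarith

theorem cross_rest {R : Finset (HeightOneSpectrum (𝓞 k))}
    {a : HeightOneSpectrum (𝓞 k) → ℕ → ℂ} {B : ℝ} (hB : 0 ≤ B)
    (hA : ∀ v ∉ R, ∀ n, 0 < n → ‖a v n‖ ≤ B * Real.sqrt (Ideal.absNorm v.asIdeal) ^ n)
    {N : ℕ} (hN : 0 < N) {f : CuspForm (Gamma0 N : Subgroup (GL (Fin 2) ℝ)) 2} {fa : ℕ → ℝ}
    (hf : IsEigenform N f fa)
    (hNR : ∀ v : HeightOneSpectrum (𝓞 k), (N : 𝓞 k) ∈ v.asIdeal → v ∈ R) :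
    ∃ C : ℝ, 0 ≤ C ∧ ∀ lam : ℝ, 0 < lam → ∀ t : ℝ, 1 < t → t ≤ 2 →
      |∑' x : HeightOneSpectrum (𝓞 k) × ℕ,
        (if (ppow x).2 = 0 then 0 else (trmR R (cr a fa) t x).re)| ≤
        C * (lam * C + (Real.log (1 / (t - 1)) + C) / lam) := by
  obtain ⟨C1, hC1⟩ := wgt_tail
  obtain ⟨C2, hC2⟩ := rs_diag hN hf
  obtain ⟨n, hn⟩ : ∃ n : ℝ, n = Module.finrank ℚ k := ⟨_, rfl⟩
  have hn0 : 0 ≤ n := by rw [hn]; exact Nat.cast_nonneg _
  have hD : 0 ≤ B * n * n := by positivity
  refine ⟨B * n * n + |C1| + |C2|, by positivity, fun lam hlam t ht ht2 => ?_⟩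
  have hL : 0 ≤ Real.log (1 / (t - 1)) := by
    apply Real.log_nonneg
    rw [le_div_iff₀ (by linarith)]
    linarith
  obtain ⟨G, hG⟩ : ∃ G : Nat.Primes × ℕ → ℝ, G = fun y => if y.2 = 0 then 0 else bnd N fa t lam y :=
    ⟨_, rfl⟩
  have hG0 : ∀ y, 0 ≤ G y := by
    intro y
    rw [hG]
    simp only
    split_ifs
    · exact le_refl _
    · exact bnd_nonneg N fa t hlam y
  have hGs : Summable G := by
    refine Summable.of_nonneg_of_le hG0 (fun y => ?_) (bnd_summable hN hf ht lam)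
    rw [hG]
    simp only
    split_ifs
    · exact bnd_nonneg N fa t hlam y
    · exact le_refl _
  obtain ⟨hs1, hs2⟩ := sum_ppow_le (k := k) hG0 hGs
  have hF : ∀ x : HeightOneSpectrum (𝓞 k) × ℕ,
      |(if (ppow x).2 = 0 then 0 else (trmR R (cr a fa) t x).re)| ≤ (B * n) * G (ppow x) := by
    intro x
    rw [hG]
    simp only
    split_ifs with h0
    · rw [abs_zero, mul_zero]
    · refine (Complex.abs_re_le_norm _).trans ?_
      have h1 := cross_bound (fa := fa) hB hA hNR ht hlam x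
      rw [hn]
      exact h1
  have h1 := gf6c_core (fun x : HeightOneSpectrum (𝓞 k) × ℕ => ppow x)
    (fun x => if (ppow x).2 = 0 then 0 else (trmR R (cr a fa) t x).re) (B * n) G n
    (by positivity) hF hs1 (by rw [hn]; exact hs2)
  have h2 : ∑' y, G y ≤ (lam * C1 + (Real.log (1 / (t - 1)) + C2) / lam) / 2 := by
    have h3 : ∑' y : Nat.Primes × ℕ, evec N fa y ^ 2 * wgt (t + 1) y ≤
        Real.log (1 / (t - 1)) + C2 := by
      have h4 := hC2 (t + 1) (by linarith) (by linarith)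
      have e : t + 1 - 2 = t - 1 := by ring
      rw [e] at h4
      refine le_of_eq_of_le (tsum_congr fun y => ?_) h4
      rw [sq]
    have h5 := gf6c_split (wgt t) (fun y => evec N fa y ^ 2 * wgt (t + 1) y) (wgt_nonneg t)
      (fun y => mul_nonneg (sq_nonneg _) (wgt_nonneg (t + 1) y)) (wgt_summable ht)
      (evec_summable hN hf (by linarith : (2 : ℝ) < t + 1)) hlam (hC1 t ht) h3
    rw [hG]
    exact h5
  refine h1.trans ?_
  have h6 : B * n * (n * ∑' y, G y) ≤
      B * n * n * ((lam * C1 + (Real.log (1 / (t - 1)) + C2) / lam) / 2) := by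
    rw [← mul_assoc]
    exact mul_le_mul_of_nonneg_left h2 hD
  exact h6.trans (gf6c_arith hD hL hlam)

end Pool.Agent.H16.GF
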