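import Mathlib

/-!
# Frobenius traces of the powers for an eigenform of weight two
-/

namespace Pool.Agent.H16.GF

noncomputable section

/-- `powTr a c n = α ^ n + β ^ n`, where `α`, `β` are the roots of `T ² - a T + c`. -/
def powTr (a c : ℝ) : ℕ → ℝ
  | 0 => 2
  | 1 => a
  | n + 2 => a * powTr a c (n + 1) - c * powTr a c n

/-- For a place `v` of norm `q = p ^ f` whose residue characteristic `p` does not divide the level: the
trace of the `n`-th power of the Frobenius at `v` on the two-dimensional representation of the eigenform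
`∑ a n q ^ n` of weight two, that is `α ^ (f n) + β ^ (f n)`, where `α`, `β` are the roots of
`T ² - a p T + p`. -/
def formTrace (a : ℕ → ℝ) (q n : ℕ) : ℝ :=
  powTr (a q.minFac) q.minFac (q.factorization q.minFac * n)

/-- the constant term of the Hecke polynomial at `p` for the level `N` -/
def cst (N p : ℕ) : ℝ := if p ∣ N then 0 else p

/-- the vector of an eigenform in the Hilbert space over the prime powers: `(p, j)` stands for `p ^ (j + 1)` -/
def evec (N : ℕ) (a : ℕ → ℝ) (x : Nat.Primes × ℕ) : ℝ := powTr (a x.1) (cst N x.1) (x.2 + 1)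

/-- the weight of `p ^ (j + 1)` -/
def wgt (s : ℝ) (x : Nat.Primes × ℕ) : ℝ := ((x.1 : ℝ) ^ (-s)) ^ (x.2 + 1) / ((x.2 : ℝ) + 1)

end

end Pool.Agent.H16.GF
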