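import Pool.Agent.H16.GF.Final
import Pool.Agent.H18.RS.Main

/-!
# Modular elliptic curves given by equations
-/

open NumberField IsDedekindDomain Filter Topology Polynomial CongruenceSubgroup
open scoped MatrixGroups

namespace Pool.Agent.H16.GF

open Pool.Agent.H3.TatePole Pool.Agent.H18.RS Pool.Agent.H1.Tate Pool.Agent.H16.HK

noncomputable section

variable {k : Type*} [Field k] [NumberField k]

lemma norm_curveTrace_le {F : (𝓞 k)[X]} {g : ℕ} (hF : F.natDegree = 2 * g + 1)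
    {v : HeightOneSpectrum (𝓞 k)} (hv : GoodAt F v) {n : ℕ} (hn : 0 < n) :
    ‖curveTrace F v n‖ ≤ 2 * g * Real.sqrt (Ideal.absNorm v.asIdeal) ^ n := by
  let _ := Ideal.Quotient.field v.asIdeal
  have h1 := abs_traceH1_le (F := 𝓞 k ⧸ v.asIdeal) (ringChar_ne_two hv.1) (hv.2.2.trans hF) hn
  rw [← nrm_eq_card] at h1
  unfold curveTrace
  rw [Complex.norm_intCast]
  exact h1

/-- The curve `y ^ 2 = F(x)` of genus `g`, as an example of a `Variety`: the bound for its traces is Weil's theorem,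
proved in `Pool.Agent.H1.Weil`. -/
def curve (F : (𝓞 k)[X]) (g : ℕ) (hF : F.natDegree = 2 * g + 1)
    (R : Finset (HeightOneSpectrum (𝓞 k))) (hR : ∀ v, ¬ GoodAt F v → v ∈ R) : Variety k where
  R := R
  a := curveTrace F
  b := fun v n => (Ideal.absNorm v.asIdeal : ℂ) ^ n
  B := 2 * g
  B₂ := 1
  B_nonneg := by positivity
  B₂_nonneg := zero_le_one
  a_le := fun v hv n hn => norm_curveTrace_le hF (by_contra fun h => hv (hR v h)) hn
  b_le := fun v _ n _ => by rw [norm_pow, Complex.norm_natCast, one_mul]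

lemma curveTrace_one {F : (𝓞 k)[X]} {v : HeightOneSpectrum (𝓞 k)} (hv : GoodAt F v) :
    curveTrace F v 1 = ((aV F v * Real.sqrt (nrm v) : ℝ) : ℂ) := by
  unfold curveTrace aV
  rw [if_pos hv, div_mul_cancel₀ _ (Real.sqrt_pos.mpr (nrm_pos v)).ne']
  push_cast
  rfl

section one

variable {R R' : Finset (HeightOneSpectrum (𝓞 k))} {a b : HeightOneSpectrum (𝓞 k) → ℕ → ℂ}
  {B B₂ : ℝ} {bad badP : HeightOneSpectrum (𝓞 k) → Multiset ℂ}

theorem growth_ell (hRR : R ⊆ R') (hB : 0 ≤ B) (hB₂ : 0 ≤ B₂)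
    (ha : ∀ v ∉ R, ∀ n, 0 < n → ‖a v n‖ ≤ B * Real.sqrt (Ideal.absNorm v.asIdeal) ^ n)
    (hb : ∀ v ∉ R, ∀ n, 0 < n → ‖b v n‖ ≤ B₂ * (Ideal.absNorm v.asIdeal : ℝ) ^ n)
    (hbad : ∀ v ∈ R, ∀ α ∈ bad v, ‖α‖ ≤ Ideal.absNorm v.asIdeal)
    (hbadP : ∀ v ∈ R', ∀ α ∈ badP v, ‖α‖ ≤ Ideal.absNorm v.asIdeal)
    {h : ℤ[X]} (hdeg : h.natDegree = 3)
    (hR' : ∀ v, ¬ GoodAt (h.map (Int.castRingHom (𝓞 k))) v → v ∈ R')
    {N : ℕ} (hN : 0 < N) {f : CuspForm (Gamma0 N : Subgroup (GL (Fin 2) ℝ)) 2} {fa : ℕ → ℝ}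
    (hf : IsEigenform N f fa) (hfin : {p : ℕ | p.Prime ∧ fa p ≠ ap h p}.Finite)
    (hW : {p : ℕ | p.Prime ∧ ¬ fa p ^ 2 ≤ 4 * p}.Finite) :
    Tendsto (fun t : ℝ => ((Real.log ‖eulerL R' (ellTr a b h) badP ((t + 1 : ℝ) : ℂ)‖ -
        Real.log ‖eulerL R b bad ((t + 1 : ℝ) : ℂ)‖) / Lam t - 1) -
        mix (bU R a) fa t / Lam t) (𝓝[>] 1) (𝓝 0) := by
  classical
  have ha' : ∀ v ∉ R', ∀ n, 0 < n → ‖a v n‖ ≤ B * Real.sqrt (Ideal.absNorm v.asIdeal) ^ n :=
    fun v hv => ha v fun h => hv (hRR h)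
  have hb' : ∀ v ∉ R', ∀ n, 0 < n → ‖b v n‖ ≤ B₂ * (Ideal.absNorm v.asIdeal : ℝ) ^ n :=
    fun v hv => hb v fun h => hv (hRR h)
  have hgood : ∀ v, v ∉ R' → GoodAt (up k h) v := fun v hv => by_contra fun hc => hv (hR' v hc)
  have hdegU : (up k h).natDegree = 2 * 1 + 1 := by rw [up_natDegree, hdeg]
  have hbU1 : Bdd (bU R a) := ⟨B, abs_bU_le hB ha⟩
  have hbU2 : Bdd (bU R' a) := ⟨B, abs_bU_le hB ha'⟩
  have hc₂ : ∀ v, v ∉ R' → ∀ n, 0 < n → ‖ellTr a b h v n‖ ≤ (B₂ + 1 + B * 2) * nrm v ^ n := by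
    intro v hv n hn
    have h1 := hb' v hv n hn
    have h2 := ha' v hv n hn
    have h3 := norm_curveTrace_le hdegU (hgood v hv) hn
    have hs : Real.sqrt (nrm v) ^ n * Real.sqrt (nrm v) ^ n = nrm v ^ n := by
      rw [← mul_pow, Real.mul_self_sqrt (nrm_pos v).le]
    have hs0 : 0 ≤ Real.sqrt (nrm v) ^ n := pow_nonneg (Real.sqrt_nonneg _) _
    unfold ellTr
    refine (norm_add_le _ _).trans ?_
    refine (add_le_add (norm_add_le _ _) le_rfl).trans ?_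
    rw [norm_mul, norm_pow, Complex.norm_natCast]
    have h7 : ‖a v n‖ * ‖curveTrace (h.map (Int.castRingHom (𝓞 k))) v n‖ ≤
        (B * Real.sqrt (nrm v) ^ n) * (2 * (1 : ℕ) * Real.sqrt (nrm v) ^ n) :=
      mul_le_mul h2 h3 (norm_nonneg _) (mul_nonneg hB hs0)
    have h8 : (B * Real.sqrt (nrm v) ^ n) * (2 * (1 : ℕ) * Real.sqrt (nrm v) ^ n) =
        B * 2 * nrm v ^ n := by
      rw [← hs]; push_cast; ring
    rw [h8] at h7
    have h9 : ((Ideal.absNorm v.asIdeal : ℝ)) ^ n = nrm v ^ n := rfl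
    rw [h9] at h1 ⊢
    linarith
  have hub : Bdd (fun v => bU R' a v * aV (up k h) v) := hbU2.mul (aV_bdd hdegU)
  have hu₁ := reTr_bound hB₂ hb'
  have hu₁' := reTr_bound hB₂ hb
  have hu₂ : ∀ v, v ∉ R' → (fun v => (if v ∈ R' then 0 else reTr b v) +
      (1 + bU R' a v * aV (up k h) v)) v = reTr (ellTr a b h) v := by
    intro v hv
    beta_reduce
    rw [if_neg hv]
    unfold reTr ellTr bU
    rw [if_neg hv]
    have e1 := curveTrace_one (hgood v hv)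
    have e1' : curveTrace (h.map (Int.castRingHom (𝓞 k))) v 1 =
      ((aV (up k h) v * Real.sqrt (nrm v) : ℝ) : ℂ) := e1
    have h3 : ((Ideal.absNorm v.asIdeal : ℂ) ^ 1).re = nrm v := by
      rw [pow_one, Complex.natCast_re]
      rfl
    rw [Complex.add_re, Complex.add_re, e1', Complex.re_mul_ofReal, h3]
    have h4 : Real.sqrt (nrm v) * Real.sqrt (nrm v) = nrm v := Real.mul_self_sqrt (nrm_pos v).le
    have h5 : 0 < Real.sqrt (nrm v) := Real.sqrt_pos.mpr (nrm_pos v)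
    have h6 : (a v 1).re / Real.sqrt (Ideal.absNorm v.asIdeal) * aV (up k h) v =
        (a v 1).re * (aV (up k h) v * Real.sqrt (nrm v)) / nrm v := by
      change (a v 1).re / Real.sqrt (nrm v) * aV (up k h) v = _
      rw [div_mul_eq_mul_div, div_eq_div_iff h5.ne' (nrm_pos v).ne']
      calc (a v 1).re * aV (up k h) v * nrm v
          = (a v 1).re * aV (up k h) v * (Real.sqrt (nrm v) * Real.sqrt (nrm v)) := by
            rw [h4]
        _ = _ := by ring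
    rw [h6]
    have := (nrm_pos v).ne'
    field_simp
    ring
  obtain ⟨C₁, hC₁⟩ := log_eulerL (R := R) (c := b) (D := B₂) hB₂ (bad := bad) hbad hb _ hu₁'
    (fun v hv => if_neg hv)
  obtain ⟨C₂, hC₂⟩ := log_eulerL (R := R') (c := ellTr a b h) (D := B₂ + 1 + B * 2)
    (by positivity) (bad := badP) hbadP hc₂ _ (hu₁.add ((Bdd.const 1).add hub)) hu₂
  obtain ⟨C₃, hC₃⟩ := wsum_close hu₁ hu₁' ((R'.finite_toSet).subset (by
    intro v hv
    by_contra hvn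
    have hvn' : v ∉ R' := hvn
    have hvn2 : v ∉ R := fun h => hvn' (hRR h)
    apply hv
    rw [if_neg hvn', if_neg hvn2]))
  obtain ⟨D, hD⟩ := nrmCoeff_bdd hW
  have hff : {v : HeightOneSpectrum (𝓞 k) | (Ideal.absNorm v.asIdeal).Prime ∧
      aV (up k h) v ≠ nrmCoeff fa (Ideal.absNorm v.asIdeal)}.Finite := by
    refine ((R'.finite_toSet).union (finite_places hfin (fun p hp => hp.1))).subset ?_
    rintro v ⟨hp, hv⟩
    by_cases hg : v ∈ R'
    · left; exact hg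
    · right
      refine ⟨hp, fun he => hv ?_⟩
      rw [aV_up hp (hgood v hg)]
      unfold nrmCoeff
      rw [he]
  obtain ⟨C₄, hC₄⟩ := fib_sum (U := bU R' a) (X := aV (up k h)) (w := nrmCoeff fa)
    hbU2 (aV_bdd hdegU) hD hff
  obtain ⟨C₅, hC₅⟩ := mix_close hbU2 hbU1 (by
    refine (R'.finite_toSet).subset ?_
    intro v hv
    by_contra hvn
    have hvn' : v ∉ R' := hvn
    have hvn2 : v ∉ R := fun h => hvn' (hRR h)
    apply hv
    unfold bU
    rw [if_neg hvn', if_neg hvn2]) hN hf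
  have hmix : ∀ t : ℝ, ∑' p : Nat.Primes, fib (bU R' a) p * nrmCoeff fa p * (p : ℝ) ^ (-t) =
      mix (bU R' a) fa t := by
    intro t
    unfold mix
    refine tsum_congr fun p => ?_
    have hp : (0 : ℝ) < p := Nat.cast_pos.mpr p.2.pos
    unfold nrmCoeff
    have e1 : (p : ℝ) ^ (-(t + 1)) = (p : ℝ) ^ (-t) / (Real.sqrt p * Real.sqrt p) := by
      rw [Real.mul_self_sqrt hp.le, neg_add, Real.rpow_add hp, Real.rpow_neg_one]
      field_simp
    have h5 : Real.sqrt (p : ℝ) ≠ 0 := (Real.sqrt_pos.mpr hp).ne'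
    rw [e1]
    field_simp
  have h2 : Tendsto (fun t => wsum (fun _ : HeightOneSpectrum (𝓞 k) => (1 : ℝ)) t / Lam t)
    (𝓝[>] 1) (𝓝 1) := hasMean_one
  have h3 := (((((tendsto_zero_of_bounded hC₂).sub (tendsto_zero_of_bounded hC₁)).add
    (tendsto_zero_of_bounded hC₃)).add (tendsto_zero_of_bounded hC₄)).add
    (tendsto_zero_of_bounded hC₅)).add (h2.sub_const 1)
  simp only [sub_self, add_zero] at h3
  refine h3.congr' ?_
  filter_upwards [self_mem_nhdsWithin] with t ht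
  have ht' : 1 < t := ht
  have h4 : wsum (fun v => (if v ∈ R' then 0 else reTr b v) +
      (1 + bU R' a v * aV (up k h) v)) t = wsum (fun v => if v ∈ R' then 0 else reTr b v) t +
      (wsum (fun _ : HeightOneSpectrum (𝓞 k) => (1 : ℝ)) t +
        wsum (fun v => bU R' a v * aV (up k h) v) t) := by
    rw [wsum_add hu₁ ((Bdd.const 1).add hub) ht', wsum_add (Bdd.const 1) hub ht']
  rw [h4, hmix]
  ring

end one

section family

variable {ι : Type*} (E : EllFamily k ι) (Y : Variety k)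
  {bad badQ : HeightOneSpectrum (𝓞 k) → Multiset ℂ}
  {badP : ι → HeightOneSpectrum (𝓞 k) → Multiset ℂ}

theorem ell_growth (hR : ∀ j, Y.R ⊆ E.R j) (hbad : FactorBound Y.R bad)
    (hbadQ : FactorBound Y.R badQ) (hbadP : ∀ j, FactorBound (E.R j) (badP j))
    (I : Finset ι) {ε : ℝ} (hε : 0 < ε) :
    ∀ᶠ s : ℝ in 𝓝[>] 2,
      ∑ j ∈ I, ((Real.log ‖eulerL (E.R j) (ellTr Y.a Y.b (E.h j)) (badP j) (s : ℂ)‖ -
        Real.log ‖eulerL Y.R Y.b bad (s : ℂ)‖) / Real.log (1 / (s - 2)) - 1) ^ 2 ≤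
      2 * Module.finrank ℚ k *
        (Real.log ‖eulerL Y.R (sqTr Y.a) badQ (s : ℂ)‖ / Real.log (1 / (s - 2))) + ε := by
  classical
  have hdata := fun j : ι => modular_data (E.cubic j) (E.separable j) (E.modular j)
  choose N hN f fa hE hfin hW using hdata
  have key := family_abs (k := k) (R := Y.R) (a := Y.a) (badQ := badQ) (d := fun _ : ι => 1)
    (N := fun j _ => N j) (f := fun j _ => f j) (fa := fun j _ => fa j) I Y.B_nonneg Y.a_le hbadQ
    (fun j _ => hN j) (fun j _ => hE j)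
    (by
      intro j l j' l' hjj
      have hj : j ≠ j' := by
        rintro rfl
        apply hjj
        rw [Subsingleton.elim l l']
      intro hcon
      refine E.distinct j j' hj (((hcon.union (hfin j)).union (hfin j')).subset ?_)
      rintro p ⟨hp, hp2⟩
      by_cases h1 : fa j p = ap (E.h j) p
      · by_cases h2 : fa j' p = ap (E.h j') p
        · left; left
          refine ⟨hp, ?_⟩
          rw [h1, h2]
          exact_mod_cast hp2
        · right; exact ⟨hp, h2⟩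
      · left; right; exact ⟨hp, h1⟩)
    (fun j t => (Real.log ‖eulerL (E.R j) (ellTr Y.a Y.b (E.h j)) (badP j) ((t + 1 : ℝ) : ℂ)‖ -
        Real.log ‖eulerL Y.R Y.b bad ((t + 1 : ℝ) : ℂ)‖) / Lam t - 1)
    (fun j => by
      have := growth_ell (hR j) Y.B_nonneg Y.B₂_nonneg Y.a_le Y.b_le hbad (hbadP j) (E.cubic j)
        (E.good j) (hN j) (hE j) (hfin j) (hW j)
      simpa only [Finset.univ_unique, Finset.sum_singleton] using this) hε
  have key' := to_s (P := fun s L => ∑ j ∈ I,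
      ((Real.log ‖eulerL (E.R j) (ellTr Y.a Y.b (E.h j)) (badP j) (s : ℂ)‖ -
        Real.log ‖eulerL Y.R Y.b bad (s : ℂ)‖) / L - 1) ^ 2 / ((1 : ℕ) : ℝ) ≤
      2 * Module.finrank ℚ k * (Real.log ‖eulerL Y.R (sqTr Y.a) badQ (s : ℂ)‖ / L) + ε) key
  simpa only [Nat.cast_one, div_one] using key'

theorem ell_growth_abs (hR : ∀ j, Y.R ⊆ E.R j) (hbad : FactorBound Y.R bad)
    (hbadP : ∀ j, FactorBound (E.R j) (badP j)) (I : Finset ι) {ε : ℝ} (hε : 0 < ε) :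
    ∀ᶠ s : ℝ in 𝓝[>] 2,
      ∑ j ∈ I, ((Real.log ‖eulerL (E.R j) (ellTr Y.a Y.b (E.h j)) (badP j) (s : ℂ)‖ -
        Real.log ‖eulerL Y.R Y.b bad (s : ℂ)‖) / Real.log (1 / (s - 2)) - 1) ^ 2 ≤
      2 * Module.finrank ℚ k * Y.B ^ 2 + ε := by
  set n : ℝ := (Module.finrank ℚ k : ℝ) with hn
  have hn0 : 0 ≤ n := Nat.cast_nonneg _
  have h0 : FactorBound Y.R (fun _ : HeightOneSpectrum (𝓞 k) => (0 : Multiset ℂ)) := by
    intro v _ α hα
    simp at hα
  filter_upwards [ell_growth E Y hR hbad h0 hbadP I (half_pos hε),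
    self_le Y h0 (show 0 < ε / (4 * n + 1) by positivity)] with s h1 h2
  refine h1.trans ?_
  have h3 := mul_le_mul_of_nonneg_left h2 (show 0 ≤ 2 * n by positivity)
  have h4 : 2 * n * (ε / (4 * n + 1)) ≤ ε / 2 := by
    rw [← mul_div_assoc, div_le_iff₀ (by positivity)]
    nlinarith
  linarith

section pole

variable {r : ι → ℤ} {ρ : ℤ}

lemma ell_tendsto_pole (I : Finset ι) (hρ : HasPole (eulerL Y.R Y.b bad) 2 ρ)
    (hr : ∀ j ∈ I, HasPole (eulerL (E.R j) (ellTr Y.a Y.b (E.h j)) (badP j)) 2 (r j)) :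
    Tendsto (fun s : ℝ =>
      ∑ j ∈ I, ((Real.log ‖eulerL (E.R j) (ellTr Y.a Y.b (E.h j)) (badP j) (s : ℂ)‖ -
        Real.log ‖eulerL Y.R Y.b bad (s : ℂ)‖) / Real.log (1 / (s - 2)) - 1) ^ 2)
      (𝓝[>] 2) (𝓝 (∑ j ∈ I, ((r j : ℝ) - ρ - 1) ^ 2)) := by
  refine tendsto_finsetSum I fun j hj => ?_
  have h1 := ((Pool.Agent.H8.TW.tendsto_of_hasPole (hr j hj)).sub
    (Pool.Agent.H8.TW.tendsto_of_hasPole hρ)).sub_const 1
  refine (h1.pow 2).congr fun s => ?_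
  rw [sub_div]

theorem ell_pole_le (hR : ∀ j, Y.R ⊆ E.R j) (hbad : FactorBound Y.R bad)
    (hbadP : ∀ j, FactorBound (E.R j) (badP j)) (I : Finset ι)
    (hρ : HasPole (eulerL Y.R Y.b bad) 2 ρ)
    (hr : ∀ j ∈ I, HasPole (eulerL (E.R j) (ellTr Y.a Y.b (E.h j)) (badP j)) 2 (r j)) :
    ∑ j ∈ I, ((r j : ℝ) - ρ - 1) ^ 2 ≤ 2 * Module.finrank ℚ k * Y.B ^ 2 := by
  refine le_of_forall_pos_le_add fun ε hε => ?_
  exact le_of_tendsto (ell_tendsto_pole E Y I hρ hr) (ell_growth_abs E Y hR hbad hbadP I hε)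

theorem ell_pole_le_self (hR : ∀ j, Y.R ⊆ E.R j) (hbad : FactorBound Y.R bad)
    (hbadQ : FactorBound Y.R badQ) (hbadP : ∀ j, FactorBound (E.R j) (badP j)) (I : Finset ι)
    (hρ : HasPole (eulerL Y.R Y.b bad) 2 ρ)
    (hr : ∀ j ∈ I, HasPole (eulerL (E.R j) (ellTr Y.a Y.b (E.h j)) (badP j)) 2 (r j))
    {rQ : ℤ} (hQ : HasPole (eulerL Y.R (sqTr Y.a) badQ) 2 rQ) :
    ∑ j ∈ I, ((r j : ℝ) - ρ - 1) ^ 2 ≤ 2 * (Module.finrank ℚ k : ℝ) * (rQ : ℝ) := by
  refine le_of_forall_pos_le_add fun ε hε => ?_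
  exact le_of_tendsto_of_tendsto (ell_tendsto_pole E Y I hρ hr)
    (((Pool.Agent.H8.TW.tendsto_of_hasPole hQ).const_mul _).add_const ε)
    (ell_growth E Y hR hbad hbadQ hbadP I hε)

/-- the number of exceptions -/
theorem ell_exceptions (hR : ∀ j, Y.R ⊆ E.R j) (hbad : FactorBound Y.R bad)
    (hbadP : ∀ j, FactorBound (E.R j) (badP j)) (hρ : HasPole (eulerL Y.R Y.b bad) 2 ρ)
    (hr : ∀ j, HasPole (eulerL (E.R j) (ellTr Y.a Y.b (E.h j)) (badP j)) 2 (r j)) :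
    {j | r j ≠ ρ + 1}.Finite ∧
      ({j | r j ≠ ρ + 1}.ncard : ℝ) ≤ 2 * Module.finrank ℚ k * Y.B ^ 2 := by
  have h1 : ∀ I : Finset ι, (∀ j ∈ I, r j ≠ ρ + 1) →
      (I.card : ℝ) ≤ 2 * Module.finrank ℚ k * Y.B ^ 2 := by
    intro I hI
    refine le_trans ?_ (ell_pole_le E Y hR hbad hbadP I hρ (fun j _ => hr j))
    rw [← nsmul_one, ← Finset.sum_const]
    refine Finset.sum_le_sum fun j hj => ?_
    have h4 : (1 : ℤ) ≤ (r j - ρ - 1) ^ 2 := by
      have h5 : r j - ρ - 1 ≠ 0 := fun h0 => hI j hj (by omega)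
      have := sq_pos_of_ne_zero h5
      omega
    exact_mod_cast h4
  have hfin : {j | r j ≠ ρ + 1}.Finite := by
    by_contra hinf
    obtain ⟨n, hn⟩ := exists_nat_gt (2 * Module.finrank ℚ k * Y.B ^ 2)
    obtain ⟨I, hI, hIc⟩ := Set.Infinite.exists_subset_card_eq hinf n
    have := h1 I (fun j hj => hI hj)
    rw [hIc] at this
    linarith
  refine ⟨hfin, ?_⟩
  have h2 := h1 hfin.toFinset (fun j hj => by simpa using hj)
  rwa [Set.ncard_eq_toFinset_card _ hfin]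

end pole

end family

end

end Pool.Agent.H16.GF
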