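import Pool.Agent.H16.GF.Roots

/-!
# Job GF-2a: summability over all prime powers

Put `x_p = p ^ (-s)`, `s > 2`, so `0 < x_p` and `x_p p ² < 1`; `sum_local` (H18/RS/Euler.lean) gives the summability of
`a (p ^ k) ² x_p ^ k`, `Hecke.pow` the recurrence with `c = cst N p`. With `local_log` (Roots.lean, job GF-1, use it):
`∑ j, evec N a (p, j) ² * wgt s (p, j) = - log |locP c c x_p|`, and `local_identity` (LocalId.lean):
`L_p * locP = 1 - c ² x_p ²` with `L_p = ∑' k, a (p ^ k) ² x_p ^ k` (`1 - c² x_p² ≥ 1 - p⁻² > 0`, `cdx_le` for positivity), so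
`locP ≠ 0`; `locP > 0` is `locP_pos` (LocalPos.lean).
All terms are `≥ 0`; for a finite set `F` of primes
`∑_{p ∈ F} ∑ j = ∑_{p ∈ F} - log locP = log ∏_{p ∈ F} L_p / (1 - c² x_p²) ≤ log (K * ∑' n, a n ² n ^ (-s))`, where
`K = exp (2 ∑' p, p ^ (-2))` (`1 / (1 - y) ≤ exp (2 y)` for `0 ≤ y ≤ 1/2`; note `c² x_p² ≤ p⁻²` as `x_p ≤ p⁻²`), and
`∏_{p ∈ F} L_p ≤ ∑' n, a n ² n ^ (-s)` because `L_p ≥ 1` for all `p` (terms `≥ 0`, the term `k = 0` is `1`) and the Euler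
product converges (`EulerProduct.eulerProduct_hasProd`, see `euler_lower` in H18/RS/Euler.lean for the same use; finite products of
factors `≥ 1` are at most the limit). A nonnegative double series with bounded finite partial sums is summable
(`summable_of_sum_le`, or `summable_prod_of_nonneg`).
-/

namespace Pool.Agent.H16.GF

open Pool.Agent.H18.RS

theorem gf2a_prod_le {f : Nat.Primes → ℝ} {A : ℝ} (hf : HasProd f A) (h1 : ∀ p, 1 ≤ f p)
    (F : Finset Nat.Primes) : ∏ p ∈ F, f p ≤ A := by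
  refine ge_of_tendsto hf ?_
  filter_upwards [Filter.eventually_ge_atTop F] with G hG
  classical
  have h2 : 1 ≤ ∏ p ∈ G \ F, f p :=
    Finset.prod_induction _ (fun x => (1 : ℝ) ≤ x)
      (fun a b ha hb => one_le_mul_of_one_le_of_one_le ha hb) le_rfl (fun p _ => h1 p)
  rw [← Finset.prod_sdiff hG]
  exact le_mul_of_one_le_left (Finset.prod_nonneg fun p _ => zero_le_one.trans (h1 p)) h2

theorem gf2a_log_summable {f : Nat.Primes → ℝ} {A : ℝ} (hf : HasProd f A) (h1 : ∀ p, 1 ≤ f p) :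
    Summable fun p => Real.log (f p) := by
  refine summable_of_sum_le (c := Real.log A) (fun p => Real.log_nonneg (h1 p)) fun F => ?_
  have hpos : ∀ p, 0 < f p := fun p => zero_lt_one.trans_le (h1 p)
  rw [← Real.log_prod (fun p _ => (hpos p).ne')]
  exact Real.log_le_log (Finset.prod_pos fun p _ => hpos p) (gf2a_prod_le hf h1 F)

theorem gf2a_neg_log {y : ℝ} (h0 : 0 ≤ y) (h1 : y ≤ 1 / 4) : -Real.log (1 - y) ≤ 2 * y := by
  have h2 : 0 < 1 - y := by linarith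
  have h3 : Real.exp (-(2 * y)) ≤ 1 - y := by
    rw [Real.exp_neg]
    have h4 : 1 + 2 * y ≤ Real.exp (2 * y) := by
      have := Real.add_one_le_exp (2 * y)
      linarith
    have h5 : (Real.exp (2 * y))⁻¹ ≤ (1 + 2 * y)⁻¹ := inv_anti₀ (by positivity) h4
    refine h5.trans ?_
    rw [inv_le_iff_one_le_mul₀ (by positivity)]
    nlinarith
  have h6 := (Real.le_log_iff_exp_le h2).2 h3
  linarith

theorem diag_summable {N : ℕ} (hN : 0 < N) {a : ℕ → ℝ} (ha : Hecke N a)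
    (hsa : ∀ s : ℝ, 2 < s → Summable fun n : ℕ => a n ^ 2 * (n : ℝ) ^ (-s)) {s : ℝ} (hs : 2 < s) :
    Summable fun x : Nat.Primes × ℕ => evec N a x ^ 2 * wgt s x := by
  -- local data
  have hx0 : ∀ p : Nat.Primes, 0 < ((p : ℕ) : ℝ) ^ (-s) := fun p =>
    Real.rpow_pos_of_pos (by exact_mod_cast p.2.pos) _
  have hp2 : ∀ p : Nat.Primes, (2 : ℝ) ≤ ((p : ℕ) : ℝ) := fun p => by exact_mod_cast p.2.two_le
  have hxp : ∀ p : Nat.Primes, ((p : ℕ) : ℝ) ^ (-s) * ((p : ℕ) : ℝ) ^ 2 < 1 := by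
    intro p
    have hp0 : (0 : ℝ) < (p : ℕ) := by linarith [hp2 p]
    rw [← Real.rpow_natCast, ← Real.rpow_add hp0]
    exact Real.rpow_lt_one_of_one_lt_of_neg (by linarith [hp2 p]) (by push_cast; linarith)
  have hc0 : ∀ p : Nat.Primes, 0 ≤ cst N (p : ℕ) := by
    intro p
    unfold cst
    split_ifs
    · exact le_rfl
    · positivity
  have hcp : ∀ p : Nat.Primes, cst N (p : ℕ) ≤ ((p : ℕ) : ℝ) := by
    intro p
    unfold cst
    split_ifs
    · positivity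
    · exact le_rfl
  have ha0 : ∀ p : Nat.Primes, a ((p : ℕ) ^ 0) = 1 := fun p => by simp [ha.one]
  have ha1 : ∀ p : Nat.Primes, a ((p : ℕ) ^ 1) = a p := fun p => by simp
  have hpw : ∀ (p : Nat.Primes) (k : ℕ), a ((p : ℕ) ^ (k + 2)) =
      a p * a ((p : ℕ) ^ (k + 1)) - cst N (p : ℕ) * a ((p : ℕ) ^ k) := fun p k => ha.pow p.2 k
  have hsum : ∀ (p : Nat.Primes) (x : ℝ), 0 ≤ x → x * ((p : ℕ) : ℝ) ^ 2 < 1 →
      Summable fun k : ℕ => a ((p : ℕ) ^ k) ^ 2 * x ^ k := fun p x h h' => sum_local hsa p.2 x h h'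
  have hid : ∀ p : Nat.Primes, (∑' k : ℕ, a ((p : ℕ) ^ k) * a ((p : ℕ) ^ k) *
      (((p : ℕ) : ℝ) ^ (-s)) ^ k) * locP (a p) (a p) (cst N p) (cst N p) (((p : ℕ) : ℝ) ^ (-s)) =
      1 - cst N p * cst N p * (((p : ℕ) : ℝ) ^ (-s)) ^ 2 := fun p =>
    (local_identity (α := fun k => a ((p : ℕ) ^ k)) (β := fun k => a ((p : ℕ) ^ k))
      (ha0 p) (ha1 p) (hpw p) (ha0 p) (ha1 p) (hpw p) (hx0 p).le
      (hsum p _ (hx0 p).le (hxp p)) (hsum p _ (hx0 p).le (hxp p))).2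
  have hPpos : ∀ p : Nat.Primes,
      0 < locP (a p) (a p) (cst N p) (cst N p) (((p : ℕ) : ℝ) ^ (-s)) := fun p =>
    locP_pos (α := fun k => a ((p : ℕ) ^ k)) (β := fun k => a ((p : ℕ) ^ k)) (hp2 p) (hc0 p)
      (hcp p) (hc0 p) (hcp p) (ha0 p) (ha1 p) (hpw p) (ha0 p) (ha1 p) (hpw p)
      (fun x h h' => hsum p x h h') (fun x h h' => hsum p x h h') _ (hx0 p).le (hxp p)
  have hlog : ∀ p : Nat.Primes, HasSum (fun j : ℕ => evec N a (p, j) ^ 2 * wgt s (p, j))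
      (-Real.log (locP (a p) (a p) (cst N p) (cst N p) (((p : ℕ) : ℝ) ^ (-s)))) := by
    intro p
    have h := local_log (u := fun k => a ((p : ℕ) ^ k)) (w := fun k => a ((p : ℕ) ^ k))
      (ha0 p) (ha1 p) (hpw p) (ha0 p) (ha1 p) (hpw p) (hx0 p).le
      (hsum p _ (hx0 p).le (hxp p)) (hsum p _ (hx0 p).le (hxp p))
    rw [abs_of_pos (hPpos p)] at h
    refine h.congr_fun ?_
    intro j
    simp only [evec, wgt]
    ring
  have hcx : ∀ p : Nat.Primes,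
      cst N p * cst N p * (((p : ℕ) : ℝ) ^ (-s)) ^ 2 ≤ 1 / 4 := fun p =>
    cdx_le (hp2 p) (hc0 p) (hcp p) (hc0 p) (hcp p) (hx0 p).le (hxp p)
  have hcx0 : ∀ p : Nat.Primes,
      0 ≤ cst N p * cst N p * (((p : ℕ) : ℝ) ^ (-s)) ^ 2 := fun p =>
    mul_nonneg (mul_nonneg (hc0 p) (hc0 p)) (sq_nonneg _)
  have hcx2 : ∀ p : Nat.Primes,
      cst N p * cst N p * (((p : ℕ) : ℝ) ^ (-s)) ^ 2 ≤ 1 / ((p : ℕ) : ℝ) ^ 2 := by
    intro p
    have hpp : (0 : ℝ) < ((p : ℕ) : ℝ) ^ 2 := by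
      have := hp2 p
      positivity
    rw [le_div_iff₀ hpp]
    have h1 : cst N p * cst N p ≤ ((p : ℕ) : ℝ) * ((p : ℕ) : ℝ) :=
      mul_le_mul (hcp p) (hcp p) (hc0 p) (by linarith [hp2 p])
    calc cst N p * cst N p * (((p : ℕ) : ℝ) ^ (-s)) ^ 2 * ((p : ℕ) : ℝ) ^ 2
        ≤ ((p : ℕ) : ℝ) * ((p : ℕ) : ℝ) * (((p : ℕ) : ℝ) ^ (-s)) ^ 2 * ((p : ℕ) : ℝ) ^ 2 := by
          gcongr
      _ = (((p : ℕ) : ℝ) ^ (-s) * ((p : ℕ) : ℝ) ^ 2) ^ 2 := by ring
      _ ≤ 1 := pow_le_one₀ (mul_nonneg (hx0 p).le hpp.le) (hxp p).le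
  -- Euler product
  have hnorm := sum_ab hsa hsa hs
  have hprod := EulerProduct.eulerProduct_hasProd (f := fun n : ℕ => a n * a n * (n : ℝ) ^ (-s))
    (by simp [ha.one])
    (by
      intro m n hmn
      rw [ha.mul hmn]
      push_cast
      rw [Real.mul_rpow (by positivity) (by positivity)]
      ring) hnorm (by simp [ha.zero])
  have hconv : ∀ p : Nat.Primes, ∑' k : ℕ, a ((p : ℕ) ^ k) * a ((p : ℕ) ^ k) *
      (((p : ℕ) ^ k : ℕ) : ℝ) ^ (-s) =
      ∑' k : ℕ, a ((p : ℕ) ^ k) * a ((p : ℕ) ^ k) * (((p : ℕ) : ℝ) ^ (-s)) ^ k := by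
    intro p
    have hp0 : (0 : ℝ) < (p : ℕ) := by linarith [hp2 p]
    refine tsum_congr fun k => ?_
    congr 1
    push_cast
    rw [← Real.rpow_natCast, ← Real.rpow_natCast, ← Real.rpow_mul hp0.le,
      ← Real.rpow_mul hp0.le]
    ring_nf
  have hL1 : ∀ p : Nat.Primes, 1 ≤ ∑' k : ℕ, a ((p : ℕ) ^ k) * a ((p : ℕ) ^ k) *
      (((p : ℕ) : ℝ) ^ (-s)) ^ k := by
    intro p
    have hsm : Summable fun k : ℕ => a ((p : ℕ) ^ k) * a ((p : ℕ) ^ k) *
        (((p : ℕ) : ℝ) ^ (-s)) ^ k := by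
      refine (hsum p _ (hx0 p).le (hxp p)).congr fun k => ?_
      ring
    have h := hsm.le_tsum 0 (fun k _ => mul_nonneg (mul_self_nonneg _) (pow_nonneg (hx0 p).le k))
    refine le_trans (le_of_eq ?_) h
    rw [ha0 p]
    simp
  have hprod2 : HasProd (fun p : Nat.Primes => ∑' k : ℕ, a ((p : ℕ) ^ k) * a ((p : ℕ) ^ k) *
      (((p : ℕ) : ℝ) ^ (-s)) ^ k) (∑' n : ℕ, a n * a n * (n : ℝ) ^ (-s)) := by
    refine hprod.congr_fun ?_
    intro p
    exact (hconv p).symm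
  have hsl := gf2a_log_summable hprod2 hL1
  have hs2 : Summable fun p : Nat.Primes => 2 * (1 / ((p : ℕ) : ℝ) ^ 2) :=
    ((Real.summable_one_div_nat_pow.2 (le_refl 2)).mul_left 2).comp_injective
      Nat.Primes.coe_nat_injective
  have hfin : Summable fun p : Nat.Primes =>
      -Real.log (locP (a p) (a p) (cst N p) (cst N p) (((p : ℕ) : ℝ) ^ (-s))) := by
    refine Summable.of_nonneg_of_le (fun p => ?_) (fun p => ?_) (hsl.add hs2)
    · refine (hlog p).nonneg fun j => mul_nonneg (sq_nonneg _) ?_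
      unfold wgt
      have := hx0 p
      positivity
    · have hL0 : 0 < ∑' k : ℕ, a ((p : ℕ) ^ k) * a ((p : ℕ) ^ k) *
          (((p : ℕ) : ℝ) ^ (-s)) ^ k := zero_lt_one.trans_le (hL1 p)
      have h1 := congrArg Real.log (hid p)
      rw [Real.log_mul hL0.ne' (hPpos p).ne'] at h1
      have h2 := gf2a_neg_log (hcx0 p) (hcx p)
      have h3 := hcx2 p
      linarith
  refine (summable_prod_of_nonneg (fun x => ?_)).2 ⟨fun p => (hlog p).summable, ?_⟩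
  · refine mul_nonneg (sq_nonneg _) ?_
    unfold wgt
    have := hx0 x.1
    positivity
  · refine hfin.congr fun p => ?_
    exact (hlog p).tsum_eq.symm

end Pool.Agent.H16.GF
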