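import Pool.Agent.H16.GF.EulerDiag

/-!
# Job GF-2b: the Euler product over all prime powers

Put `x_p = p ^ (-s)`, `s > 2`, so `0 < x_p` and `x_p p ² < 1`; `sum_local` (H18/RS/Euler.lean) gives the summability of
`a (p ^ k) ² x_p ^ k`, `Hecke.pow` the recurrence with `c = cst N p`. With `local_log` (Roots.lean, job GF-1, use it):
`∑ j, evec N₁ a (p, j) * evec N₂ b (p, j) * wgt s (p, j) = - log |locP ... x_p|`, and `local_identity` (LocalId.lean):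
`L_p * locP = 1 - c d x_p ²` with `L_p = ∑' k, a (p ^ k) b (p ^ k) x_p ^ k` (`1 - c d x_p² ≥ 1 - p⁻² > 0`, `cdx_le` for positivity), so
`locP ≠ 0`; `locP > 0` is `locP_pos` (LocalPos.lean).
`pair_summable`: `|e f| ≤ (e² + f²) / 2` and `diag_summable` (EulerDiag.lean, job GF-2a, use it), for the double series.
Then by `tsum_prod`, `∑' (p, j) = ∑' p, - log locP_p`; the exponential of it is
`∏' p, 1 / locP_p = ∏' p, L_p / (1 - c d x_p²)` (`HasSum.rexp`), and compare with `HasProd L_p (∑' n, a n b n n ^ (-s))`: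
`1 / locP_p ≤ L_p exp (2 p ^ (-2))` with `L_p > 0` (`= (1 - cdx²) / locP > 0`); see `hasProd_le_of` in H18/RS/Euler.lean.
So `C = exp (2 ∑' p, p ^ (-2))`.
-/

namespace Pool.Agent.H16.GF

open Pool.Agent.H18.RS

theorem gf2b_exp {y t : ℝ} (hy : 0 ≤ y) (hyt : y ≤ t) (hy4 : y ≤ 1 / 4) :
    Real.exp (-(2 * t)) ≤ 1 - y := by
  have h0 : Real.exp (-(2 * t)) ≤ Real.exp (-(2 * y)) := Real.exp_le_exp.2 (by linarith)
  refine h0.trans ?_
  rw [Real.exp_neg]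
  have h1 : 1 + 2 * y ≤ Real.exp (2 * y) := by
    have := Real.add_one_le_exp (2 * y)
    linarith
  have h2 : (Real.exp (2 * y))⁻¹ ≤ (1 + 2 * y)⁻¹ := inv_anti₀ (by positivity) h1
  refine h2.trans ?_
  rw [inv_le_iff_one_le_mul₀ (by positivity)]
  nlinarith

theorem gf2b_x (p : Nat.Primes) {s : ℝ} (hs : 2 < s) : 0 ≤ ((p : ℕ) : ℝ) ^ (-s) ∧
    ((p : ℕ) : ℝ) ^ (-s) * ((p : ℕ) : ℝ) ^ 2 < 1 := by
  have hp2 : (2 : ℝ) ≤ (p : ℕ) := by exact_mod_cast p.2.two_le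
  have hp0 : (0 : ℝ) < (p : ℕ) := by linarith
  refine ⟨by positivity, ?_⟩
  rw [← Real.rpow_natCast, ← Real.rpow_add hp0]
  exact Real.rpow_lt_one_of_one_lt_of_neg (by linarith) (by push_cast; linarith)

theorem gf2b_conv (a b : ℕ → ℝ) (p : Nat.Primes) (s : ℝ) :
    ∑' k : ℕ, a (p ^ k) * b (p ^ k) * (((p : ℕ) ^ k : ℕ) : ℝ) ^ (-s) =
      ∑' k : ℕ, a (p ^ k) * b (p ^ k) * (((p : ℕ) : ℝ) ^ (-s)) ^ k := by
  have hp0 : (0 : ℝ) < (p : ℕ) := by exact_mod_cast p.2.pos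
  refine tsum_congr fun k => ?_
  congr 1
  push_cast
  rw [← Real.rpow_natCast, ← Real.rpow_natCast, ← Real.rpow_mul hp0.le,
    ← Real.rpow_mul hp0.le]
  ring_nf

theorem gf2b_cst (N : ℕ) (p : Nat.Primes) : 0 ≤ cst N p ∧ cst N p ≤ ((p : ℕ) : ℝ) := by
  have hp0 : (0 : ℝ) < (p : ℕ) := by exact_mod_cast p.2.pos
  unfold cst
  split_ifs <;> constructor <;> linarith

theorem gf2b_local {N₁ N₂ : ℕ} {a b : ℕ → ℝ} (ha : Hecke N₁ a)
    (hb : Hecke N₂ b)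
    (hsa : ∀ s : ℝ, 2 < s → Summable fun n : ℕ => a n ^ 2 * (n : ℝ) ^ (-s))
    (hsb : ∀ s : ℝ, 2 < s → Summable fun n : ℕ => b n ^ 2 * (n : ℝ) ^ (-s)) {s : ℝ} (hs : 2 < s)
    (p : Nat.Primes) : ∃ P : ℝ, 0 < P ∧
      HasSum (fun j : ℕ => evec N₁ a (p, j) * evec N₂ b (p, j) * wgt s (p, j)) (-Real.log P) ∧
      Real.exp (-Real.log P - 2 / ((p : ℕ) : ℝ) ^ 2) ≤
        ∑' k : ℕ, a (p ^ k) * b (p ^ k) * (((p : ℕ) ^ k : ℕ) : ℝ) ^ (-s) := by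
  have hp : (p : ℕ).Prime := p.2
  have hp2 : (2 : ℝ) ≤ (p : ℕ) := by exact_mod_cast hp.two_le
  have hp0 : (0 : ℝ) < (p : ℕ) := by linarith
  obtain ⟨hx0, hx1⟩ := gf2b_x p hs
  obtain ⟨hc0, hc1⟩ := gf2b_cst N₁ p
  obtain ⟨hd0, hd1⟩ := gf2b_cst N₂ p
  have ha0 : a ((p : ℕ) ^ 0) = 1 := by simp [ha.one]
  have hb0 : b ((p : ℕ) ^ 0) = 1 := by simp [hb.one]
  have ha1 : a ((p : ℕ) ^ 1) = a p := by simp
  have hb1 : b ((p : ℕ) ^ 1) = b p := by simp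
  have hPpos : 0 < locP (a p) (b p) (cst N₁ p) (cst N₂ p) (((p : ℕ) : ℝ) ^ (-s)) :=
    locP_pos (α := fun k => a ((p : ℕ) ^ k)) (β := fun k => b ((p : ℕ) ^ k)) hp2 hc0 hc1 hd0 hd1
      ha0 ha1 (fun k => ha.pow hp k) hb0 hb1 (fun k => hb.pow hp k)
      (fun x hx hxp => sum_local hsa hp x hx hxp) (fun x hx hxp => sum_local hsb hp x hx hxp)
      _ hx0 hx1
  have hlog := local_log (u := fun k => a ((p : ℕ) ^ k)) (w := fun k => b ((p : ℕ) ^ k))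
    (a := a p) (b := b p) (c := cst N₁ p) (d := cst N₂ p) ha0 ha1 (fun k => ha.pow hp k)
    hb0 hb1 (fun k => hb.pow hp k) hx0 (sum_local hsa hp _ hx0 hx1) (sum_local hsb hp _ hx0 hx1)
  have hid := (local_identity (α := fun k => a ((p : ℕ) ^ k)) (β := fun k => b ((p : ℕ) ^ k))
    (a := a p) (b := b p) (c := cst N₁ p) (d := cst N₂ p) ha0 ha1 (fun k => ha.pow hp k)
    hb0 hb1 (fun k => hb.pow hp k) hx0 (sum_local hsa hp _ hx0 hx1)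
    (sum_local hsb hp _ hx0 hx1)).2
  have hcd := cdx_le hp2 hc0 hc1 hd0 hd1 hx0 hx1
  rw [abs_of_pos hPpos] at hlog
  refine ⟨locP (a p) (b p) (cst N₁ p) (cst N₂ p) (((p : ℕ) : ℝ) ^ (-s)), hPpos, hlog, ?_⟩
  rw [gf2b_conv]
  set x : ℝ := ((p : ℕ) : ℝ) ^ (-s) with hx
  set P : ℝ := locP (a p) (b p) (cst N₁ p) (cst N₂ p) x with hP
  have hy0 : 0 ≤ cst N₁ p * cst N₂ p * x ^ 2 := by positivity
  have hyt : cst N₁ p * cst N₂ p * x ^ 2 ≤ 1 / ((p : ℕ) : ℝ) ^ 2 := by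
    have h1 : cst N₁ p * cst N₂ p ≤ ((p : ℕ) : ℝ) * ((p : ℕ) : ℝ) := mul_le_mul hc1 hd1 hd0 hp0.le
    have h2 : cst N₁ p * cst N₂ p * x ^ 2 ≤ ((p : ℕ) : ℝ) * ((p : ℕ) : ℝ) * x ^ 2 :=
      mul_le_mul_of_nonneg_right h1 (sq_nonneg x)
    have h3 : ((p : ℕ) : ℝ) * ((p : ℕ) : ℝ) * x ^ 2 = (x * ((p : ℕ) : ℝ) ^ 2) * x := by ring
    have h4 : (x * ((p : ℕ) : ℝ) ^ 2) * x ≤ 1 * x := mul_le_mul_of_nonneg_right hx1.le hx0
    have h5 : x ≤ 1 / ((p : ℕ) : ℝ) ^ 2 := by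
      rw [le_div_iff₀ (by positivity)]
      exact hx1.le
    linarith
  have hexp := gf2b_exp hy0 hyt hcd
  have hsplit : Real.exp (-Real.log P - 2 / ((p : ℕ) : ℝ) ^ 2) =
      Real.exp (-(2 * (1 / ((p : ℕ) : ℝ) ^ 2))) / P := by
    rw [sub_eq_add_neg, Real.exp_add, Real.exp_neg (Real.log P), Real.exp_log hPpos, mul_comm,
      ← div_eq_mul_inv]
    congr 2
    ring
  rw [hsplit, div_le_iff₀ hPpos]
  exact hexp.trans hid.ge

theorem gf2b_pair {N₁ N₂ : ℕ} (hN₁ : 0 < N₁) (hN₂ : 0 < N₂) {a b : ℕ → ℝ} (ha : Hecke N₁ a)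
    (hb : Hecke N₂ b)
    (hsa : ∀ s : ℝ, 2 < s → Summable fun n : ℕ => a n ^ 2 * (n : ℝ) ^ (-s))
    (hsb : ∀ s : ℝ, 2 < s → Summable fun n : ℕ => b n ^ 2 * (n : ℝ) ^ (-s)) {s : ℝ}
    (hs : 2 < s) :
    Summable fun x : Nat.Primes × ℕ => evec N₁ a x * evec N₂ b x * wgt s x := by
  refine Summable.of_norm_bounded
    ((diag_summable hN₁ ha hsa hs).add (diag_summable hN₂ hb hsb hs)) fun x => ?_
  have h0 : 0 ≤ wgt s x := by
    unfold wgt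
    positivity
  rw [norm_mul, norm_mul, Real.norm_eq_abs, Real.norm_eq_abs, Real.norm_eq_abs, abs_of_nonneg h0,
    ← add_mul]
  refine mul_le_mul_of_nonneg_right ?_ h0
  nlinarith [sq_nonneg (|evec N₁ a x| - |evec N₂ b x|), sq_abs (evec N₁ a x),
    sq_abs (evec N₂ b x), sq_nonneg (evec N₁ a x), sq_nonneg (evec N₂ b x)]

theorem euler_log {N₁ N₂ : ℕ} (hN₁ : 0 < N₁) (hN₂ : 0 < N₂) {a b : ℕ → ℝ} (ha : Hecke N₁ a)
    (hb : Hecke N₂ b)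
    (hsa : ∀ s : ℝ, 2 < s → Summable fun n : ℕ => a n ^ 2 * (n : ℝ) ^ (-s))
    (hsb : ∀ s : ℝ, 2 < s → Summable fun n : ℕ => b n ^ 2 * (n : ℝ) ^ (-s)) :
    ∃ C : ℝ, 0 < C ∧ ∀ s : ℝ, 2 < s → s ≤ 3 →
      Real.exp (∑' x : Nat.Primes × ℕ, evec N₁ a x * evec N₂ b x * wgt s x) ≤
        C * ∑' n : ℕ, a n * b n * (n : ℝ) ^ (-s) := by
  have hsum2 : Summable fun p : Nat.Primes => 2 / ((p : ℕ) : ℝ) ^ 2 := by
    have h1 : Summable fun n : ℕ => 2 / (n : ℝ) ^ 2 := by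
      have := (Real.summable_one_div_nat_pow.2 (le_refl 2)).mul_left 2
      refine this.congr fun n => ?_
      rw [mul_one_div]
    exact h1.comp_injective Nat.Primes.coe_nat_injective
  refine ⟨Real.exp (∑' p : Nat.Primes, 2 / ((p : ℕ) : ℝ) ^ 2), Real.exp_pos _, fun s hs _ => ?_⟩
  have hpair := gf2b_pair hN₁ hN₂ ha hb hsa hsb hs
  choose P hP0 hP1 hP2 using gf2b_local ha hb hsa hsb hs
  have hu : HasSum (fun p => -Real.log (P p))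
      (∑' x : Nat.Primes × ℕ, evec N₁ a x * evec N₂ b x * wgt s x) :=
    hpair.hasSum.prod_fiberwise hP1
  have hexp := (hu.sub hsum2.hasSum).rexp
  have hprod := EulerProduct.eulerProduct_hasProd (f := fun n : ℕ => a n * b n * (n : ℝ) ^ (-s))
    (by simp [ha.one, hb.one])
    (by
      intro m n hmn
      rw [ha.mul hmn, hb.mul hmn]
      push_cast
      rw [Real.mul_rpow (by positivity) (by positivity)]
      ring) (sum_ab hsa hsb hs) (by simp [ha.zero])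
  have hle := hasProd_le_of hexp hprod (fun p => (Real.exp_pos _).le) (fun p => hP2 p)
  rw [sub_eq_add_neg, Real.exp_add, Real.exp_neg] at hle
  have hpos := Real.exp_pos (∑' p : Nat.Primes, 2 / ((p : ℕ) : ℝ) ^ 2)
  rw [← div_eq_mul_inv, div_le_iff₀ hpos] at hle
  linarith

end Pool.Agent.H16.GF
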