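import Pool.Agent.H16.GF.Defs
import Pool.Agent.H16.HK.FDefs
import Pool.Agent.H18.RS.Defs

/-!
# Varieties over `k` and families of modular abelian varieties, given by their Frobenius traces
-/

open NumberField IsDedekindDomain CongruenceSubgroup Polynomial
open scoped MatrixGroups

namespace Pool.Agent.H16.GF

noncomputable section

/-- The Frobenius traces of a smooth projective variety `Y` over `k`: for `v` outside the finite set `R`
and `n ≥ 1`, `a v n` and `b v n` are the traces of the `n`-th power of the Frobenius at `v` on `H¹(Y)`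
and on `H²(Y)`. The bounds are those of Deligne, `B` and `B₂` are the Betti numbers. -/
structure Variety (k : Type*) [Field k] [NumberField k] where
  R : Finset (HeightOneSpectrum (𝓞 k))
  a : HeightOneSpectrum (𝓞 k) → ℕ → ℂ
  b : HeightOneSpectrum (𝓞 k) → ℕ → ℂ
  B : ℝ
  B₂ : ℝ
  B_nonneg : 0 ≤ B
  B₂_nonneg : 0 ≤ B₂
  a_le : ∀ v ∉ R, ∀ n, 0 < n → ‖a v n‖ ≤ B * Real.sqrt (Ideal.absNorm v.asIdeal) ^ n
  b_le : ∀ v ∉ R, ∀ n, 0 < n → ‖b v n‖ ≤ B₂ * (Ideal.absNorm v.asIdeal : ℝ) ^ n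

/-- `log |L(s)| / log (1 / (s - 2))`, the growth of `L` at `s > 2`; it tends to the order of the pole of `L` at `2` as
`s → 2+` if `L` is meromorphic at `2`. -/
def gam (L : ℂ → ℂ) (s : ℝ) : ℝ := Real.log ‖L (s : ℂ)‖ / Real.log (1 / (s - 2))

/-- A family of modular abelian varieties `A_j` over `k`, `j ∈ ι`: `H¹(A_j)` is the sum of the
representations (over `ℚ`, restricted to `k`) of `d j` eigenforms `f j l` of weight `2` for `Γ₀(N j l)` with
real coefficients `coeff j l`, and any two of the eigenforms of the whole family have different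
coefficients at infinitely many primes. `R j` is a finite set of places which contains the
places above the levels, and `b j v n` is the trace of the `n`-th power of the Frobenius at `v ∉ R j` on `H²(A_j)`. -/
structure Family (k : Type*) [Field k] [NumberField k] (ι : Type*) where
  d : ι → ℕ
  d_pos : ∀ j, 0 < d j
  N : (j : ι) → Fin (d j) → ℕ
  N_pos : ∀ j l, 0 < N j l
  f : (j : ι) → (l : Fin (d j)) → CuspForm (Gamma0 (N j l) : Subgroup (GL (Fin 2) ℝ)) 2
  coeff : (j : ι) → Fin (d j) → ℕ → ℝ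
  eigen : ∀ j l, Pool.Agent.H18.RS.IsEigenform (N j l) (f j l) (coeff j l)
  distinct : ∀ j l j' l', (⟨j, l⟩ : Σ j, Fin (d j)) ≠ ⟨j', l'⟩ →
    {p : ℕ | p.Prime ∧ coeff j l p ≠ coeff j' l' p}.Infinite
  R : ι → Finset (HeightOneSpectrum (𝓞 k))
  level : ∀ j l (v : HeightOneSpectrum (𝓞 k)), (N j l : 𝓞 k) ∈ v.asIdeal → v ∈ R j
  b : ι → HeightOneSpectrum (𝓞 k) → ℕ → ℂ
  B : ι → ℝ
  B_nonneg : ∀ j, 0 ≤ B j
  b_le : ∀ j, ∀ v ∉ R j, ∀ n, 0 < n → ‖b j v n‖ ≤ B j * (Ideal.absNorm v.asIdeal : ℝ) ^ n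

/-- A family of modular elliptic curves `E_j : y ^ 2 = h j (x)` over `ℚ`, `j ∈ ι`, considered over `k`; any two
of them have different `a_p` at infinitely many primes `p`, that is, they are not isogenous over `ℚ`. `R j` is
a finite set of places which contains the even ones and those of bad reduction of `h j`. -/
structure EllFamily (k : Type*) [Field k] [NumberField k] (ι : Type*) where
  h : ι → ℤ[X]
  cubic : ∀ j, (h j).natDegree = 3
  separable : ∀ j, ((h j).map (Int.castRingHom ℚ)).Separable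
  modular : ∀ j, Pool.Agent.H18.RS.IsModular (h j)
  distinct : ∀ i j, i ≠ j → {p : ℕ | p.Prime ∧ Pool.Agent.H18.RS.ap (h i) p ≠
    Pool.Agent.H18.RS.ap (h j) p}.Infinite
  R : ι → Finset (HeightOneSpectrum (𝓞 k))
  good : ∀ j v, ¬ Pool.Agent.H1.Tate.GoodAt ((h j).map (Int.castRingHom (𝓞 k))) v → v ∈ R j

variable {k : Type*} [Field k] [NumberField k]

/-- The trace of the `n`-th power of the Frobenius at `v` on
`H²(Y × A) = H²(Y) ⊕ H¹(Y) ⊗ H¹(A) ⊕ H²(A)`, when its traces on `H¹(Y)`, `H²(Y)`, `H²(A)` are `a v n`,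
`b v n`, `bA v n`, and its trace on `H¹(A)` is the sum of the `formTrace` of the `fa l`. -/
def prodTr (a b : HeightOneSpectrum (𝓞 k) → ℕ → ℂ) {d : ℕ} (fa : Fin d → ℕ → ℝ)
    (bA : HeightOneSpectrum (𝓞 k) → ℕ → ℂ) (v : HeightOneSpectrum (𝓞 k)) (n : ℕ) : ℂ :=
  b v n + a v n * ((∑ l, formTrace (fa l) (Ideal.absNorm v.asIdeal) n : ℝ) : ℂ) + bA v n

/-- The trace of the `n`-th power of the Frobenius at `v` on `H¹(Y) ⊗ H¹(Y)^∨(-1)`, when its trace on
`H¹(Y)` is `a v n`. -/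
def sqTr (a : HeightOneSpectrum (𝓞 k) → ℕ → ℂ) (v : HeightOneSpectrum (𝓞 k)) (n : ℕ) : ℂ :=
  ((‖a v n‖ ^ 2 : ℝ) : ℂ)

/-- The trace of the `n`-th power of the Frobenius at `v` on `H¹` of the curve `y ^ 2 = F(x)`. -/
def curveTrace (F : (𝓞 k)[X]) (v : HeightOneSpectrum (𝓞 k)) (n : ℕ) : ℂ :=
  letI := Ideal.Quotient.field v.asIdeal
  (Pool.Agent.H1.Tate.traceH1 (𝓞 k ⧸ v.asIdeal) (F.map (Ideal.Quotient.mk v.asIdeal)) n : ℂ)

/-- The trace of the `n`-th power of the Frobenius at `v` on `H²(Y × E)`, `E : y ^ 2 = h(x)`, when its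
traces on `H¹(Y)` and `H²(Y)` are `a v n` and `b v n`. -/
def ellTr (a b : HeightOneSpectrum (𝓞 k) → ℕ → ℂ) (h : ℤ[X]) (v : HeightOneSpectrum (𝓞 k)) (n : ℕ) : ℂ :=
  b v n + a v n * curveTrace (h.map (Int.castRingHom (𝓞 k))) v n + (Ideal.absNorm v.asIdeal : ℂ) ^ n

end

end Pool.Agent.H16.GF
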