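import Pool.Agent.H16.GF.Main

/-!
# The family theorem in the variable `s`
-/

open NumberField IsDedekindDomain Filter Topology Polynomial CongruenceSubgroup
open scoped MatrixGroups

namespace Pool.Agent.H16.GF

open Pool.Agent.H3.TatePole Pool.Agent.H18.RS Pool.Agent.H1.Tate Pool.Agent.H16.HK

noncomputable section

variable {k : Type*} [Field k] [NumberField k]

/-- the bound `∏ (1 - α q ^ (-s))⁻¹` for the other factors: every `α` has absolute value at most `q` -/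
def FactorBound (R : Finset (HeightOneSpectrum (𝓞 k)))
    (bad : HeightOneSpectrum (𝓞 k) → Multiset ℂ) : Prop :=
  ∀ v ∈ R, ∀ α ∈ bad v, ‖α‖ ≤ Ideal.absNorm v.asIdeal

lemma to_s {P : ℝ → ℝ → Prop} (h : ∀ᶠ t : ℝ in 𝓝[>] 1, P (t + 1) (Lam t)) :
    ∀ᶠ s : ℝ in 𝓝[>] 2, P s (Real.log (1 / (s - 2))) := by
  filter_upwards [Pool.Agent.H8.TW.tendsto_sub_one.eventually h] with s hs
  have e1 : (s - 1 : ℝ) + 1 = s := by ring
  have e2 : Lam (s - 1) = Real.log (1 / (s - 2)) := by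
    unfold Lam
    rw [show s - 1 - 1 = s - 2 by ring]
  rwa [e1, e2] at hs

/-- a weighted sum of squares with a small perturbation -/
lemma perturb_sum {ι : Type*} (I : Finset ι) {d : ι → ℕ} {x y : ι → ℝ → ℝ} {C : ℝ} (hC : 0 ≤ C)
    {F : Filter ℝ}
    (h : ∀ ε : ℝ, 0 < ε → ∀ᶠ t in F, ∑ j ∈ I, x j t ^ 2 / d j ≤ C + ε)
    (hxy : ∀ j ∈ I, Tendsto (fun t => y j t - x j t) F (𝓝 0)) {ε : ℝ} (hε : 0 < ε) :
    ∀ᶠ t in F, ∑ j ∈ I, y j t ^ 2 / d j ≤ C + ε := by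
  -- `y² ≤ (1 + η) x² + (1 + 1 / η) (y - x)²`
  set η : ℝ := ε / (4 * (C + 1 + ε)) with hη
  have hη0 : 0 < η := by positivity
  have h1 := h (ε / 4) (by positivity)
  have h2 : Tendsto (fun t => ∑ j ∈ I, (1 + 1 / η) * ((y j t - x j t) ^ 2 / d j)) F (𝓝 0) := by
    have := tendsto_finsetSum I fun j hj =>
      ((((hxy j hj).pow 2).div_const (d j : ℝ)).const_mul (1 + 1 / η))
    simpa using this
  filter_upwards [h1, h2.eventually_le_const (show 0 < ε / 4 by positivity)] with t h3 h4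
  have h5 : ∑ j ∈ I, y j t ^ 2 / d j ≤ (1 + η) * ∑ j ∈ I, x j t ^ 2 / d j +
      ∑ j ∈ I, (1 + 1 / η) * ((y j t - x j t) ^ 2 / d j) := by
    rw [Finset.mul_sum, ← Finset.sum_add_distrib]
    refine Finset.sum_le_sum fun j _ => ?_
    rw [← mul_div_assoc, ← mul_div_assoc, ← add_div]
    refine div_le_div_of_nonneg_right ?_ (Nat.cast_nonneg _)
    have h6 : 0 ≤ (η * x j t - (y j t - x j t)) ^ 2 / η := by positivity
    have h7 : (1 + η) * x j t ^ 2 + (1 + 1 / η) * (y j t - x j t) ^ 2 - y j t ^ 2 =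
        (η * x j t - (y j t - x j t)) ^ 2 / η := by
      field_simp
      ring
    linarith
  have h8 : (1 + η) * ∑ j ∈ I, x j t ^ 2 / d j ≤ (1 + η) * (C + ε / 4) :=
    mul_le_mul_of_nonneg_left h3 (by positivity)
  have h9 : η * (C + ε / 4) ≤ ε / 4 := by
    rw [hη, div_mul_eq_mul_div, div_le_div_iff₀ (by positivity) (by norm_num)]
    nlinarith
  linarith

section family

variable {ι : Type*} (A : Family k ι) (Y : Variety k)
  {bad badQ : HeightOneSpectrum (𝓞 k) → Multiset ℂ}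
  {badA badP : ι → HeightOneSpectrum (𝓞 k) → Multiset ℂ}

theorem growth (hR : ∀ j, Y.R ⊆ A.R j) (hbad : FactorBound Y.R bad) (hbadQ : FactorBound Y.R badQ)
    (hbadA : ∀ j, FactorBound (A.R j) (badA j)) (hbadP : ∀ j, FactorBound (A.R j) (badP j))
    (I : Finset ι) {ε : ℝ} (hε : 0 < ε) :
    ∀ᶠ s : ℝ in 𝓝[>] 2,
      ∑ j ∈ I, ((Real.log ‖eulerL (A.R j) (prodTr Y.a Y.b (A.coeff j) (A.b j)) (badP j) (s : ℂ)‖ -
        Real.log ‖eulerL Y.R Y.b bad (s : ℂ)‖ -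
        Real.log ‖eulerL (A.R j) (A.b j) (badA j) (s : ℂ)‖) / Real.log (1 / (s - 2))) ^ 2 / A.d j ≤
      2 * Module.finrank ℚ k *
        (Real.log ‖eulerL Y.R (sqTr Y.a) badQ (s : ℂ)‖ / Real.log (1 / (s - 2))) + ε :=
  to_s (P := fun s L => ∑ j ∈ I,
      ((Real.log ‖eulerL (A.R j) (prodTr Y.a Y.b (A.coeff j) (A.b j)) (badP j) (s : ℂ)‖ -
        Real.log ‖eulerL Y.R Y.b bad (s : ℂ)‖ -
        Real.log ‖eulerL (A.R j) (A.b j) (badA j) (s : ℂ)‖) / L) ^ 2 / A.d j ≤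
      2 * Module.finrank ℚ k * (Real.log ‖eulerL Y.R (sqTr Y.a) badQ (s : ℂ)‖ / L) + ε)
    (family_growth' I hR Y.B_nonneg Y.B₂_nonneg A.B_nonneg Y.a_le Y.b_le A.b_le hbad hbadA hbadP
      hbadQ A.N_pos A.eigen A.level A.distinct hε)

theorem self_le (hbadQ : FactorBound Y.R badQ) {ε : ℝ} (hε : 0 < ε) :
    ∀ᶠ s : ℝ in 𝓝[>] 2,
      Real.log ‖eulerL Y.R (sqTr Y.a) badQ (s : ℂ)‖ / Real.log (1 / (s - 2)) ≤ Y.B ^ 2 + ε := by
  obtain ⟨C, hC⟩ := growth_self (badQ := badQ) Y.B_nonneg Y.a_le hbadQ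
  refine to_s (P := fun s L => Real.log ‖eulerL Y.R (sqTr Y.a) badQ (s : ℂ)‖ / L ≤ Y.B ^ 2 + ε) ?_
  have h2 : Tendsto (fun t => wsum (fun _ : HeightOneSpectrum (𝓞 k) => (1 : ℝ)) t / Lam t)
    (𝓝[>] 1) (𝓝 1) := hasMean_one
  have h3 : Tendsto (fun t => C / Lam t) (𝓝[>] 1) (𝓝 0) := Lam_tendsto.const_div_atTop C
  have h4 := (h2.const_mul (Y.B ^ 2)).add h3
  rw [mul_one, add_zero] at h4
  filter_upwards [h4.eventually_le_const (show Y.B ^ 2 < Y.B ^ 2 + ε by linarith),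
    self_mem_nhdsWithin, Lam_tendsto.eventually_gt_atTop 0] with t ht h5 h6
  refine le_trans ?_ ht
  rw [← mul_div_assoc, ← add_div]
  exact div_le_div_of_nonneg_right (hC t h5).2 h6.le

theorem growth_abs (hR : ∀ j, Y.R ⊆ A.R j) (hbad : FactorBound Y.R bad)
    (hbadA : ∀ j, FactorBound (A.R j) (badA j)) (hbadP : ∀ j, FactorBound (A.R j) (badP j))
    (I : Finset ι) {ε : ℝ} (hε : 0 < ε) :
    ∀ᶠ s : ℝ in 𝓝[>] 2,
      ∑ j ∈ I, ((Real.log ‖eulerL (A.R j) (prodTr Y.a Y.b (A.coeff j) (A.b j)) (badP j) (s : ℂ)‖ -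
        Real.log ‖eulerL Y.R Y.b bad (s : ℂ)‖ -
        Real.log ‖eulerL (A.R j) (A.b j) (badA j) (s : ℂ)‖) / Real.log (1 / (s - 2))) ^ 2 / A.d j ≤
      2 * Module.finrank ℚ k * Y.B ^ 2 + ε := by
  set n : ℝ := (Module.finrank ℚ k : ℝ) with hn
  have hn0 : 0 ≤ n := Nat.cast_nonneg _
  have h0 : FactorBound Y.R (fun _ : HeightOneSpectrum (𝓞 k) => (0 : Multiset ℂ)) := by
    intro v _ α hα
    simp at hα
  filter_upwards [growth A Y hR hbad h0 hbadA hbadP I (half_pos hε),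
    self_le Y h0 (show 0 < ε / (4 * n + 1) by positivity)] with s h1 h2
  refine h1.trans ?_
  have h3 := mul_le_mul_of_nonneg_left h2 (show 0 ≤ 2 * n by positivity)
  have h4 : 2 * n * (ε / (4 * n + 1)) ≤ ε / 2 := by
    rw [← mul_div_assoc, div_le_iff₀ (by positivity)]
    nlinarith
  linarith

section pole

variable {r ρA : ι → ℤ} {ρ : ℤ}

lemma tendsto_pole (I : Finset ι) (hρ : HasPole (eulerL Y.R Y.b bad) 2 ρ)
    (hA : ∀ j ∈ I, HasPole (eulerL (A.R j) (A.b j) (badA j)) 2 (ρA j))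
    (hr : ∀ j ∈ I, HasPole (eulerL (A.R j) (prodTr Y.a Y.b (A.coeff j) (A.b j)) (badP j)) 2 (r j)) :
    Tendsto (fun s : ℝ =>
      ∑ j ∈ I, ((Real.log ‖eulerL (A.R j) (prodTr Y.a Y.b (A.coeff j) (A.b j)) (badP j) (s : ℂ)‖ -
        Real.log ‖eulerL Y.R Y.b bad (s : ℂ)‖ -
        Real.log ‖eulerL (A.R j) (A.b j) (badA j) (s : ℂ)‖) / Real.log (1 / (s - 2))) ^ 2 / A.d j)
      (𝓝[>] 2) (𝓝 (∑ j ∈ I, ((r j : ℝ) - ρ - ρA j) ^ 2 / A.d j)) := by
  refine tendsto_finsetSum I fun j hj => ?_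
  have h1 := (((Pool.Agent.H8.TW.tendsto_of_hasPole (hr j hj)).sub
    (Pool.Agent.H8.TW.tendsto_of_hasPole hρ)).sub
    (Pool.Agent.H8.TW.tendsto_of_hasPole (hA j hj)))
  refine ((h1.pow 2).div_const _).congr fun s => ?_
  rw [sub_div, sub_div]

theorem pole_le (hR : ∀ j, Y.R ⊆ A.R j) (hbad : FactorBound Y.R bad)
    (hbadA : ∀ j, FactorBound (A.R j) (badA j)) (hbadP : ∀ j, FactorBound (A.R j) (badP j))
    (I : Finset ι) (hρ : HasPole (eulerL Y.R Y.b bad) 2 ρ)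
    (hA : ∀ j ∈ I, HasPole (eulerL (A.R j) (A.b j) (badA j)) 2 (ρA j))
    (hr : ∀ j ∈ I, HasPole (eulerL (A.R j) (prodTr Y.a Y.b (A.coeff j) (A.b j)) (badP j)) 2 (r j)) :
    ∑ j ∈ I, ((r j : ℝ) - ρ - ρA j) ^ 2 / A.d j ≤ 2 * Module.finrank ℚ k * Y.B ^ 2 := by
  refine le_of_forall_pos_le_add fun ε hε => ?_
  exact le_of_tendsto (tendsto_pole A Y I hρ hA hr) (growth_abs A Y hR hbad hbadA hbadP I hε)

theorem pole_le_self (hR : ∀ j, Y.R ⊆ A.R j) (hbad : FactorBound Y.R bad)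
    (hbadQ : FactorBound Y.R badQ)
    (hbadA : ∀ j, FactorBound (A.R j) (badA j)) (hbadP : ∀ j, FactorBound (A.R j) (badP j))
    (I : Finset ι) (hρ : HasPole (eulerL Y.R Y.b bad) 2 ρ)
    (hA : ∀ j ∈ I, HasPole (eulerL (A.R j) (A.b j) (badA j)) 2 (ρA j))
    (hr : ∀ j ∈ I, HasPole (eulerL (A.R j) (prodTr Y.a Y.b (A.coeff j) (A.b j)) (badP j)) 2 (r j))
    {rQ : ℤ} (hQ : HasPole (eulerL Y.R (sqTr Y.a) badQ) 2 rQ) :
    ∑ j ∈ I, ((r j : ℝ) - ρ - ρA j) ^ 2 / A.d j ≤ 2 * Module.finrank ℚ k * rQ := by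
  refine le_of_forall_pos_le_add fun ε hε => ?_
  exact le_of_tendsto_of_tendsto (tendsto_pole A Y I hρ hA hr)
    (((Pool.Agent.H8.TW.tendsto_of_hasPole hQ).const_mul _).add_const ε)
    (growth A Y hR hbad hbadQ hbadA hbadP I hε)

/-- the number of exceptions -/
theorem exceptions {x : ι → ℤ} {C : ℝ} {D : ℕ} (hD : ∀ j, A.d j ≤ D)
    (h : ∀ I : Finset ι, ∑ j ∈ I, (x j : ℝ) ^ 2 / A.d j ≤ C) :
    {j | x j ≠ 0}.Finite ∧ ({j | x j ≠ 0}.ncard : ℝ) ≤ C * D := by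
  have h1 : ∀ I : Finset ι, (∀ j ∈ I, x j ≠ 0) → (I.card : ℝ) ≤ C * D := by
    intro I hI
    rcases I.eq_empty_or_nonempty with rfl | ⟨j₀, hj₀⟩
    · have := h ∅
      simp only [Finset.sum_empty] at this
      simp only [Finset.card_empty, Nat.cast_zero]
      positivity
    · have hD0 : 0 < D := (A.d_pos j₀).trans_le (hD j₀)
      have hD1 : (0 : ℝ) < D := by exact_mod_cast hD0
      have h2 : (I.card : ℝ) * (1 / D) ≤ C := by
        refine le_trans ?_ (h I)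
        rw [← nsmul_eq_mul]
        refine Finset.card_nsmul_le_sum I _ _ fun j hj => ?_
        have h3 : (1 : ℝ) ≤ (x j : ℝ) ^ 2 := by
          have h4 : (1 : ℤ) ≤ x j ^ 2 := by
            have := sq_pos_of_ne_zero (hI j hj)
            omega
          exact_mod_cast h4
        have h5 : (0 : ℝ) < A.d j := by exact_mod_cast A.d_pos j
        have h6 : (A.d j : ℝ) ≤ D := by exact_mod_cast hD j
        exact div_le_div₀ (sq_nonneg _) h3 h5 h6
      rw [mul_one_div, div_le_iff₀ hD1] at h2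
      exact h2
  have hfin : {j | x j ≠ 0}.Finite := by
    by_contra hinf
    obtain ⟨n, hn⟩ := exists_nat_gt (C * D)
    obtain ⟨I, hI, hIc⟩ := Set.Infinite.exists_subset_card_eq hinf n
    have := h1 I (fun j hj => hI hj)
    rw [hIc] at this
    linarith
  refine ⟨hfin, ?_⟩
  have h2 := h1 hfin.toFinset (fun j hj => by simpa using hj)
  rwa [Set.ncard_eq_toFinset_card _ hfin]

end pole

end family

end

end Pool.Agent.H16.GF
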