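import Pool.Agent.H16.GF.Tr
import Pool.Agent.H16.GF.Bessel

/-!
# The growth of `L₂(s, Y × A) / (L₂(s, Y) L₂(s, A))`
-/

open NumberField IsDedekindDomain Filter Topology Polynomial CongruenceSubgroup
open scoped MatrixGroups

namespace Pool.Agent.H16.GF

open Pool.Agent.H3.TatePole Pool.Agent.H18.RS Pool.Agent.H1.Tate Pool.Agent.H16.HK

noncomputable section

variable {k : Type*} [Field k] [NumberField k]

/-- the vector of `Y` in the Hilbert space over the prime powers -/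
def cvec (U : HeightOneSpectrum (𝓞 k) → ℝ) (y : Nat.Primes × ℕ) : ℝ :=
  if y.2 = 0 then fib U y.1 * Real.sqrt y.1 else 0

lemma evec_zero (N : ℕ) (a : ℕ → ℝ) (p : Nat.Primes) : evec N a (p, 0) = a p := by
  unfold evec
  rfl

lemma wgt_zero (s : ℝ) (p : Nat.Primes) : wgt s (p, 0) = (p : ℝ) ^ (-s) := by
  unfold wgt
  simp

lemma cvec_zero (U : HeightOneSpectrum (𝓞 k) → ℝ) (p : Nat.Primes) :
    cvec U (p, 0) = fib U p * Real.sqrt p := by
  unfold cvec
  simp

lemma prime_inj : Function.Injective (fun p : Nat.Primes => ((p, 0) : Nat.Primes × ℕ)) :=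
  fun _ _ h => congrArg Prod.fst h

lemma tsum_zero_part {G : Nat.Primes × ℕ → ℝ} (hG : ∀ y, y.2 ≠ 0 → G y = 0) :
    ∑' y, G y = ∑' p : Nat.Primes, G (p, 0) := by
  symm
  refine prime_inj.tsum_eq (f := G) ?_
  intro y hy
  have : y.2 = 0 := by
    by_contra h
    exact hy (hG y h)
  exact ⟨y.1, by rw [← this]⟩

lemma summable_zero_part {G : Nat.Primes × ℕ → ℝ} (hG : ∀ y, y.2 ≠ 0 → G y = 0) :
    Summable G ↔ Summable (fun p : Nat.Primes => G (p, 0)) := by
  symm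
  refine prime_inj.summable_iff (f := G) ?_
  intro y hy
  refine hG y fun h => hy ⟨y.1, ?_⟩
  rw [← h]

lemma cvec_sq {U : HeightOneSpectrum (𝓞 k) → ℝ} (hU : Bdd U) {t : ℝ} (ht : 1 < t) :
    Summable (fun y => cvec U y ^ 2 * wgt (t + 1) y) ∧
    ∑' y, cvec U y ^ 2 * wgt (t + 1) y ≤ Module.finrank ℚ k * wsum (fun v => U v ^ 2) t := by
  obtain ⟨h1, h2⟩ := fib_sq_sum (k := k) hU ht
  have h0 : ∀ y : Nat.Primes × ℕ, y.2 ≠ 0 → cvec U y ^ 2 * wgt (t + 1) y = 0 := by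
    intro y hy
    unfold cvec
    rw [if_neg hy]
    ring
  have h3 : ∀ p : Nat.Primes, cvec U (p, 0) ^ 2 * wgt (t + 1) (p, 0) =
      fib U p ^ 2 * (p : ℝ) ^ (-t) := by
    intro p
    have hp : (0 : ℝ) < p := Nat.cast_pos.mpr p.2.pos
    rw [cvec_zero, wgt_zero, mul_pow, Real.sq_sqrt hp.le, mul_assoc]
    congr 1
    nth_rewrite 1 [← Real.rpow_one (p : ℝ)]
    rw [← Real.rpow_add hp]
    congr 1
    ring
  constructor
  · rw [summable_zero_part h0]
    exact h1.congr fun p => (h3 p).symm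
  · rw [tsum_zero_part h0, tsum_congr h3]
    exact h2

/-- the mixed sum of `Y` and the form -/
def mix (U : HeightOneSpectrum (𝓞 k) → ℝ) (fa : ℕ → ℝ) (t : ℝ) : ℝ :=
  ∑' p : Nat.Primes, fib U p * (Real.sqrt p * fa p) * (p : ℝ) ^ (-(t + 1))

lemma mix_eq (U : HeightOneSpectrum (𝓞 k) → ℝ) (N : ℕ) (fa : ℕ → ℝ) (t : ℝ) :
    mix U fa t = ∑' y, cvec U y * evec N fa y * wgt (t + 1) y := by
  rw [tsum_zero_part]
  · refine tsum_congr fun p => ?_
    rw [cvec_zero, wgt_zero, evec_zero]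
    ring
  · intro y hy
    unfold cvec
    rw [if_neg hy]
    ring

lemma mix_close {U U' : HeightOneSpectrum (𝓞 k) → ℝ} (hU : Bdd U) (hU' : Bdd U')
    (hfin : {v | U v ≠ U' v}.Finite) {N : ℕ} (hN : 0 < N)
    {f : CuspForm (Gamma0 N : Subgroup (GL (Fin 2) ℝ)) 2} {fa : ℕ → ℝ} (hf : IsEigenform N f fa) :
    ∃ C : ℝ, ∀ t : ℝ, 1 < t → |mix U fa t - mix U' fa t| ≤ C := by
  classical
  let S : Set Nat.Primes := {p | ∃ v ∈ {v | U v ≠ U' v}, Ideal.absNorm v.asIdeal = (p : ℕ)}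
  have hS : S.Finite := by
    refine Set.Finite.of_finite_image (f := fun p : Nat.Primes => (p : ℕ)) ?_
      (fun _ _ _ _ h => Subtype.ext h)
    refine (hfin.image (fun v => Ideal.absNorm v.asIdeal)).subset ?_
    rintro _ ⟨p, ⟨v, hv, hvp⟩, rfl⟩
    exact ⟨v, hv, hvp⟩
  have hS' : ∀ p : Nat.Primes, p ∉ S → fib U p = fib U' p := by
    intro p hp
    unfold fib
    refine tsum_congr fun v => ?_
    by_contra hne
    exact hp ⟨v, hne, v.2⟩
  refine ⟨∑ p ∈ hS.toFinset, |(fib U p - fib U' p) * (Real.sqrt p * fa p)|, fun t ht => ?_⟩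
  have hev := evec_summable hN hf (by linarith : (2 : ℝ) < t + 1)
  have s1 := mul_summable (wgt_nonneg (t + 1)) (cvec_sq hU ht).1 hev
  have s2 := mul_summable (wgt_nonneg (t + 1)) (cvec_sq hU' ht).1 hev
  have h1 : mix U fa t - mix U' fa t =
      ∑' p : Nat.Primes, (fib U p - fib U' p) * (Real.sqrt p * fa p) * (p : ℝ) ^ (-(t + 1)) := by
    rw [mix_eq U N, mix_eq U' N, ← s1.tsum_sub s2, tsum_zero_part]
    · refine tsum_congr fun p => ?_
      rw [cvec_zero, cvec_zero, wgt_zero, evec_zero]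
      ring
    · intro y hy
      unfold cvec
      rw [if_neg hy, if_neg hy]
      ring
  rw [h1, tsum_eq_sum (s := hS.toFinset)]
  · refine (Finset.abs_sum_le_sum_abs _ _).trans (Finset.sum_le_sum fun p _ => ?_)
    rw [abs_mul]
    have h2 : |(p : ℝ) ^ (-(t + 1))| ≤ 1 := by
      rw [abs_of_nonneg (Real.rpow_nonneg (Nat.cast_nonneg _) _)]
      exact Real.rpow_le_one_of_one_le_of_nonpos (by exact_mod_cast p.2.one_lt.le) (by linarith)
    exact (mul_le_mul_of_nonneg_left h2 (abs_nonneg _)).trans (by rw [mul_one])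
  · intro p hp
    rw [hS' p (by simpa using hp), sub_self, zero_mul, zero_mul]

section

variable {R : Finset (HeightOneSpectrum (𝓞 k))} {a : HeightOneSpectrum (𝓞 k) → ℕ → ℂ} {B : ℝ}

lemma abs_bU_le (hB : 0 ≤ B)
    (hA : ∀ v ∉ R, ∀ n, 0 < n → ‖a v n‖ ≤ B * Real.sqrt (Ideal.absNorm v.asIdeal) ^ n)
    (v : HeightOneSpectrum (𝓞 k)) : |bU R a v| ≤ B := by
  unfold bU
  split_ifs with h
  · rw [abs_zero]; exact hB
  · have h1 : 0 < Real.sqrt (Ideal.absNorm v.asIdeal) := Real.sqrt_pos.mpr (nrm_pos v)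
    rw [abs_div, abs_of_pos h1, div_le_iff₀ h1]
    refine (Complex.abs_re_le_norm _).trans ((hA v h 1 one_pos).trans ?_)
    rw [pow_one]

theorem cross_first (hB : 0 ≤ B)
    (hA : ∀ v ∉ R, ∀ n, 0 < n → ‖a v n‖ ≤ B * Real.sqrt (Ideal.absNorm v.asIdeal) ^ n)
    {N : ℕ} (hN : 0 < N) {f : CuspForm (Gamma0 N : Subgroup (GL (Fin 2) ℝ)) 2} {fa : ℕ → ℝ}
    (hf : IsEigenform N f fa)
    (hNR : ∀ v : HeightOneSpectrum (𝓞 k), (N : 𝓞 k) ∈ v.asIdeal → v ∈ R) :
    Tendsto (fun t : ℝ => (∑' x, (trmR R (cr a fa) t x).re - mix (bU R a) fa t) / Lam t)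
      (𝓝[>] 1) (𝓝 0) := by
  obtain ⟨C, hC0, hC⟩ := cross_rest hB hA hN hf hNR
  have h1 : ∀ t : ℝ, 1 < t → ∑' x, (trmR R (cr a fa) t x).re - mix (bU R a) fa t =
      ∑' x : HeightOneSpectrum (𝓞 k) × ℕ,
        (if (ppow x).2 = 0 then 0 else (trmR R (cr a fa) t x).re) := by
    intro t ht
    have hs : Summable (fun x => (trmR R (cr a fa) t x).re) :=
      Complex.reCLM.summable (cross_summable hB hA hN hf hNR ht)
    have h2 := cross_prime hB hA hN hf hNR ht
    have e1 : Summable (fun x : HeightOneSpectrum (𝓞 k) × ℕ =>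
        (if (ppow x).2 = 0 then (trmR R (cr a fa) t x).re else 0)) := by
      refine Summable.of_norm_bounded hs.norm fun x => ?_
      split_ifs
      · exact le_rfl
      · rw [norm_zero]; exact norm_nonneg _
    unfold mix
    rw [← h2, ← hs.tsum_sub e1]
    refine tsum_congr fun x => ?_
    split_ifs <;> ring
  rw [Metric.tendsto_nhds]
  intro ε hε
  have hlam : 0 < (2 * C + 1) / ε := by positivity
  have hK := Lam_tendsto.eventually_gt_atTop
    (2 * C * ((2 * C + 1) / ε * C + C / ((2 * C + 1) / ε)) / ε)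
  filter_upwards [Ioc_mem_nhdsGT (show (1 : ℝ) < 2 by norm_num), Lam_tendsto.eventually_gt_atTop 0,
    hK] with t ht hL hL2
  have h2 := hC _ hlam t ht.1 ht.2
  rw [← h1 t ht.1] at h2
  rw [Real.dist_eq, sub_zero, abs_div, abs_of_pos hL, div_lt_iff₀ hL]
  refine h2.trans_lt ?_
  have e0 : Real.log (1 / (t - 1)) = Lam t := rfl
  rw [e0]
  set lam := (2 * C + 1) / ε with hlamdef
  have h3 : 2 * C * (lam * C + C / lam) / ε < Lam t := hL2
  rw [div_lt_iff₀ hε] at h3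
  have h4 : C * (lam * C + (Lam t + C) / lam) = C * (lam * C + C / lam) + C * (Lam t / lam) := by
    field_simp
    ring
  have h5 : C * (Lam t / lam) ≤ Lam t * ε / 2 := by
    rw [hlamdef, div_div_eq_mul_div, ← mul_div_assoc, div_le_div_iff₀ (by positivity) (by norm_num)]
    nlinarith [mul_pos hL hε]
  rw [h4]
  nlinarith

end

end

end Pool.Agent.H16.GF
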