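import Pool.Agent.H16.HK.LogF

/-!
# Job GF-3: the logarithm of an Euler product, without a bound for the single traces

As `log_eulerL` in `Pool/Agent/H16/HK/LogF.lean`, but the traces are only assumed to be absolutely summable with all
powers. `lamF R c bad t v = ∑' n, trm c t v n` for `v ∉ R` (definition), `lamF_bad` bounds the finitely many factors at `R` by
`Multiset.card (bad v)`, `exp_lamF` shows `exp (lamF ..) =` the local factor. `lamF` is summable over `v` (for `v ∉ R`:
`‖lamF‖ ≤ ∑' n, ‖trm‖`, which is summable by `Summable.prod` of the hypothesis, for instance `Summable.prod_factor`/`summable_prod_of_nonneg`),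
so `eulerL = exp (∑' v, lamF)`, `log ‖·‖ = ∑' v, (lamF v).re = ∑_{v ∈ R} (lamF v).re + ∑'_{v ∉ R} ∑' n (trm).re`, and
`Summable.tsum_prod` turns the last sum into the sum over the pairs. `C = ∑ v ∈ R, card (bad v)`.
-/

open NumberField IsDedekindDomain Filter Topology Polynomial

namespace Pool.Agent.H16.GF

open Pool.Agent.H3.TatePole Pool.Agent.H1.Tate Pool.Agent.H16.HK

noncomputable section

variable {k : Type*} [Field k] [NumberField k]

/-- the term of the logarithm of an Euler product at `v` and the exponent `n + 1` -/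
def trm (c : HeightOneSpectrum (𝓞 k) → ℕ → ℂ) (t : ℝ) (x : HeightOneSpectrum (𝓞 k) × ℕ) : ℂ :=
  c x.1 (x.2 + 1) * ((nrm x.1 ^ (-(t + 1)) : ℝ) : ℂ) ^ (x.2 + 1) / ((x.2 : ℂ) + 1)

open Classical in
/-- the same, `0` at the places of `R` -/
def trmR (R : Finset (HeightOneSpectrum (𝓞 k))) (c : HeightOneSpectrum (𝓞 k) → ℕ → ℂ) (t : ℝ)
    (x : HeightOneSpectrum (𝓞 k) × ℕ) : ℂ := if x.1 ∈ R then 0 else trm c t x

theorem log_eulerL_gen {R : Finset (HeightOneSpectrum (𝓞 k))}
    {c : HeightOneSpectrum (𝓞 k) → ℕ → ℂ} {bad : HeightOneSpectrum (𝓞 k) → Multiset ℂ}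
    (hbad : ∀ v ∈ R, ∀ α ∈ bad v, ‖α‖ ≤ nrm v)
    (hs : ∀ t : ℝ, 1 < t → t ≤ 2 → Summable (trmR R c t)) :
    ∃ C : ℝ, ∀ t : ℝ, 1 < t → t ≤ 2 →
      |Real.log ‖eulerL R c bad ((t + 1 : ℝ) : ℂ)‖ - ∑' x, (trmR R c t x).re| ≤ C := by
  classical
  refine ⟨∑ v ∈ R, (Multiset.card (bad v) : ℝ), fun t ht ht2 => ?_⟩
  have hg := hs t ht ht2
  have hh : Summable (fun v => ∑' n, trmR R c t (v, n)) := hg.prod
  have hlam : ∀ v, v ∉ R → lamF R c bad t v = ∑' n, trmR R c t (v, n) := by
    intro v hv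
    unfold lamF
    rw [if_neg hv]
    refine tsum_congr fun n => ?_
    simp only [trmR, trm, if_neg hv]
  have hz : ∀ v, v ∈ R → ∑' n, trmR R c t (v, n) = 0 := by
    intro v hv
    have h0 : (fun n => trmR R c t (v, n)) = fun _ => 0 := by
      funext n
      simp only [trmR, if_pos hv]
    rw [h0, tsum_zero]
  have hfin : ∀ v, v ∉ R → lamF R c bad t v - ∑' n, trmR R c t (v, n) = 0 := by
    intro v hv
    rw [hlam v hv, sub_self]
  have hdiff : Summable (fun v => lamF R c bad t v - ∑' n, trmR R c t (v, n)) :=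
    summable_of_ne_finset_zero (s := R) hfin
  have hsuml : Summable (lamF R c bad t) := by
    refine (hdiff.add hh).congr fun v => ?_
    ring
  have hprod : eulerL R c bad ((t + 1 : ℝ) : ℂ) = Complex.exp (∑' v, lamF R c bad t v) := by
    unfold eulerL
    rw [← (hsuml.hasSum.cexp).tprod_eq]
    exact tprod_congr fun v => (exp_lamF ht v (hbad v)).symm
  have htot : ∑' v, lamF R c bad t v = ∑ v ∈ R, lamF R c bad t v + ∑' x, trmR R c t x := by
    have h1 : ∑' v, lamF R c bad t v =
        ∑' v, (lamF R c bad t v - ∑' n, trmR R c t (v, n)) + ∑' v, ∑' n, trmR R c t (v, n) := by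
      rw [← hdiff.tsum_add hh]
      exact tsum_congr fun v => by ring
    rw [h1, ← hg.tsum_prod, tsum_eq_sum (s := R) (fun v hv => hfin v hv)]
    congr 1
    refine Finset.sum_congr rfl fun v hv => ?_
    rw [hz v hv, sub_zero]
  rw [hprod, Complex.norm_exp, Real.log_exp, htot, Complex.add_re, Complex.re_tsum hg,
    add_sub_cancel_right]
  refine (Complex.abs_re_le_norm _).trans ((norm_sum_le _ _).trans ?_)
  exact Finset.sum_le_sum fun v hv => lamF_bad ht hv (hbad v hv)

end

end Pool.Agent.H16.GF
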