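import Pool.Agent.H16.GF.Growth
import Pool.Agent.H16.GF.FDefs
import Pool.Agent.H18.RS.Core
import Pool.Agent.H8.TW.Main

/-!
# The family theorem
-/

open NumberField IsDedekindDomain Filter Topology Polynomial CongruenceSubgroup
open scoped MatrixGroups

namespace Pool.Agent.H16.GF

open Pool.Agent.H3.TatePole Pool.Agent.H18.RS Pool.Agent.H1.Tate Pool.Agent.H16.HK

noncomputable section

variable {k : Type*} [Field k] [NumberField k]

section one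

variable {R R' : Finset (HeightOneSpectrum (𝓞 k))} {a b bA : HeightOneSpectrum (𝓞 k) → ℕ → ℂ}
  {B B₂ B₃ : ℝ} {bad badA badP : HeightOneSpectrum (𝓞 k) → Multiset ℂ}

/-- the growth for one abelian variety of dimension `d` -/
theorem growth_one (hRR : R ⊆ R') (hB : 0 ≤ B) (hB₂ : 0 ≤ B₂) (hB₃ : 0 ≤ B₃)
    (ha : ∀ v ∉ R, ∀ n, 0 < n → ‖a v n‖ ≤ B * Real.sqrt (Ideal.absNorm v.asIdeal) ^ n)
    (hb : ∀ v ∉ R, ∀ n, 0 < n → ‖b v n‖ ≤ B₂ * (Ideal.absNorm v.asIdeal : ℝ) ^ n)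
    (hbA : ∀ v ∉ R', ∀ n, 0 < n → ‖bA v n‖ ≤ B₃ * (Ideal.absNorm v.asIdeal : ℝ) ^ n)
    (hbad : ∀ v ∈ R, ∀ α ∈ bad v, ‖α‖ ≤ Ideal.absNorm v.asIdeal)
    (hbadA : ∀ v ∈ R', ∀ α ∈ badA v, ‖α‖ ≤ Ideal.absNorm v.asIdeal)
    (hbadP : ∀ v ∈ R', ∀ α ∈ badP v, ‖α‖ ≤ Ideal.absNorm v.asIdeal)
    {d : ℕ} {N : Fin d → ℕ} (hN : ∀ l, 0 < N l)
    {f : (l : Fin d) → CuspForm (Gamma0 (N l) : Subgroup (GL (Fin 2) ℝ)) 2}
    {fa : Fin d → ℕ → ℝ} (hf : ∀ l, IsEigenform (N l) (f l) (fa l))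
    (hNR : ∀ l, ∀ v : HeightOneSpectrum (𝓞 k), (N l : 𝓞 k) ∈ v.asIdeal → v ∈ R') :
    Tendsto (fun t : ℝ => (Real.log ‖eulerL R' (prodTr a b fa bA) badP ((t + 1 : ℝ) : ℂ)‖ -
        Real.log ‖eulerL R b bad ((t + 1 : ℝ) : ℂ)‖ -
        Real.log ‖eulerL R' bA badA ((t + 1 : ℝ) : ℂ)‖) / Lam t -
        ∑ l, mix (bU R a) (fa l) t / Lam t) (𝓝[>] 1) (𝓝 0) := by
  classical
  have ha' : ∀ v ∉ R', ∀ n, 0 < n → ‖a v n‖ ≤ B * Real.sqrt (Ideal.absNorm v.asIdeal) ^ n :=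
    fun v hv => ha v fun h => hv (hRR h)
  have hb' : ∀ v ∉ R', ∀ n, 0 < n → ‖b v n‖ ≤ B₂ * (Ideal.absNorm v.asIdeal : ℝ) ^ n :=
    fun v hv => hb v fun h => hv (hRR h)
  have hcs : ∀ l, ∀ t : ℝ, 1 < t → Summable (trmR R' (cr a (fa l)) t) := fun l t ht =>
    cross_summable hB ha' (hN l) (hf l) (hNR l) ht
  have hbs : ∀ t : ℝ, 1 < t → Summable (trmR R' b t) := fun t ht => trmR_summable hB₂ hb' ht
  have hAs : ∀ t : ℝ, 1 < t → Summable (trmR R' bA t) := fun t ht => trmR_summable hB₃ hbA ht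
  have hprod : ∀ t : ℝ, trmR R' (prodTr a b fa bA) t = fun x =>
      trmR R' b t x + ∑ l, trmR R' (cr a (fa l)) t x + trmR R' bA t x := by
    intro t
    funext x
    rw [← trmR_sum, ← trmR_add, ← trmR_add]
    congr 1
    funext v n
    unfold prodTr cr
    push_cast
    rw [Finset.mul_sum]
  have hps : ∀ t : ℝ, 1 < t → Summable (trmR R' (prodTr a b fa bA) t) := by
    intro t ht
    rw [hprod t]
    exact ((hbs t ht).add (summable_sum fun l _ => hcs l t ht)).add (hAs t ht)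
  have hsplit : ∀ t : ℝ, 1 < t → ∑' x, (trmR R' (prodTr a b fa bA) t x).re =
      ∑' x, (trmR R' b t x).re + ∑ l, ∑' x, (trmR R' (cr a (fa l)) t x).re +
        ∑' x, (trmR R' bA t x).re := by
    intro t ht
    have e1 : HasSum (fun x => (trmR R' b t x).re) (∑' x, (trmR R' b t x).re) :=
      (Complex.reCLM.summable (hbs t ht)).hasSum
    have e2 : HasSum (fun x => ∑ l, (trmR R' (cr a (fa l)) t x).re)
        (∑ l, ∑' x, (trmR R' (cr a (fa l)) t x).re) :=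
      hasSum_sum fun l _ => (Complex.reCLM.summable (hcs l t ht)).hasSum
    have e3 : HasSum (fun x => (trmR R' bA t x).re) (∑' x, (trmR R' bA t x).re) :=
      (Complex.reCLM.summable (hAs t ht)).hasSum
    rw [← ((e1.add e2).add e3).tsum_eq]
    refine tsum_congr fun x => ?_
    rw [hprod t]
    simp only [Complex.add_re, Complex.re_sum]
  obtain ⟨C₁, hC₁⟩ := log_eulerL_gen (R := R') (c := prodTr a b fa bA) (bad := badP) hbadP
    (fun t ht _ => hps t ht)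
  obtain ⟨C₂, hC₂⟩ := log_close (R := R) hRR hB₂ hb (bad := bad) hbad
  obtain ⟨C₃, hC₃⟩ := log_close (R := R') (R' := R') (Finset.Subset.refl _) hB₃ hbA (bad := badA)
    hbadA
  have h1 : ∀ t : ℝ, 1 < t → t ≤ 2 →
      |Real.log ‖eulerL R' (prodTr a b fa bA) badP ((t + 1 : ℝ) : ℂ)‖ -
        Real.log ‖eulerL R b bad ((t + 1 : ℝ) : ℂ)‖ -
        Real.log ‖eulerL R' bA badA ((t + 1 : ℝ) : ℂ)‖ -
        ∑ l, ∑' x, (trmR R' (cr a (fa l)) t x).re| ≤ C₁ + C₂ + C₃ := by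
    intro t ht ht2
    have h1 := abs_le.mp (hC₁ t ht ht2)
    have h2 := abs_le.mp (hC₂ t ht ht2)
    have h3 := abs_le.mp (hC₃ t ht ht2)
    rw [hsplit t ht] at h1
    rw [abs_le]
    constructor <;> linarith [h1.1, h1.2, h2.1, h2.2, h3.1, h3.2]
  have h2 := tendsto_zero_of_bounded' h1
  have hbU1 : Bdd (bU R a) := ⟨B, abs_bU_le hB ha⟩
  have hbU2 : Bdd (bU R' a) := ⟨B, abs_bU_le hB ha'⟩
  have hfin : {v | bU R' a v ≠ bU R a v}.Finite := by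
    refine (R'.finite_toSet).subset ?_
    intro v hv
    by_contra hvn
    have hvn' : v ∉ R' := hvn
    have hvn2 : v ∉ R := fun h => hvn' (hRR h)
    apply hv
    unfold bU
    rw [if_neg hvn', if_neg hvn2]
  have h3 : Tendsto (fun t : ℝ => ∑ l, ((∑' x, (trmR R' (cr a (fa l)) t x).re -
      mix (bU R' a) (fa l) t) / Lam t + (mix (bU R' a) (fa l) t - mix (bU R a) (fa l) t) / Lam t))
      (𝓝[>] 1) (𝓝 0) := by
    have h4 : ∀ l ∈ (Finset.univ : Finset (Fin d)), Tendsto (fun t : ℝ =>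
        ((∑' x, (trmR R' (cr a (fa l)) t x).re -
        mix (bU R' a) (fa l) t) / Lam t + (mix (bU R' a) (fa l) t - mix (bU R a) (fa l) t) / Lam t))
        (𝓝[>] 1) (𝓝 (0 + 0)) := by
      intro l _
      obtain ⟨C, hC⟩ := mix_close hbU2 hbU1 hfin (hN l) (hf l)
      exact (cross_first hB ha' (hN l) (hf l) (hNR l)).add (tendsto_zero_of_bounded hC)
    have := tendsto_finsetSum _ h4
    simpa using this
  have h5 := h2.add h3
  rw [add_zero] at h5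
  refine h5.congr fun t => ?_
  rw [sub_div, Finset.sum_div, sub_add_eq_add_sub, add_sub_assoc, ← Finset.sum_sub_distrib,
    sub_eq_add_neg _ (∑ l, mix (bU R a) (fa l) t / Lam t), ← Finset.sum_neg_distrib]
  congr 1
  refine Finset.sum_congr rfl fun l _ => ?_
  ring

end one

section self

variable {R : Finset (HeightOneSpectrum (𝓞 k))} {a : HeightOneSpectrum (𝓞 k) → ℕ → ℂ}
  {B : ℝ} {badQ : HeightOneSpectrum (𝓞 k) → Multiset ℂ}

lemma sqTr_bound (ha : ∀ v ∉ R, ∀ n, 0 < n → ‖a v n‖ ≤ B * Real.sqrt (Ideal.absNorm v.asIdeal) ^ n) :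
    ∀ v, v ∉ R → ∀ n, 0 < n → ‖sqTr a v n‖ ≤ B ^ 2 * nrm v ^ n := by
  intro v hv n hn
  unfold sqTr
  rw [Complex.norm_real, Real.norm_of_nonneg (sq_nonneg _)]
  have h1 := ha v hv n hn
  have h2 : ‖a v n‖ ^ 2 ≤ (B * Real.sqrt (Ideal.absNorm v.asIdeal) ^ n) ^ 2 :=
    pow_le_pow_left₀ (norm_nonneg _) h1 2
  refine h2.trans (le_of_eq ?_)
  rw [mul_pow, ← pow_mul, mul_comm n 2, pow_mul, Real.sq_sqrt (Nat.cast_nonneg _)]
  rfl

/-- the growth of `L(|a|²)` -/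
theorem growth_self (hB : 0 ≤ B)
    (ha : ∀ v ∉ R, ∀ n, 0 < n → ‖a v n‖ ≤ B * Real.sqrt (Ideal.absNorm v.asIdeal) ^ n)
    (hbadQ : ∀ v ∈ R, ∀ α ∈ badQ v, ‖α‖ ≤ Ideal.absNorm v.asIdeal) :
    ∃ C : ℝ, ∀ t : ℝ, 1 < t →
      wsum (fun v => bU R a v ^ 2) t ≤ Real.log ‖eulerL R (sqTr a) badQ ((t + 1 : ℝ) : ℂ)‖ + C ∧
      Real.log ‖eulerL R (sqTr a) badQ ((t + 1 : ℝ) : ℂ)‖ ≤
        B ^ 2 * wsum (fun _ : HeightOneSpectrum (𝓞 k) => (1 : ℝ)) t + C := by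
  classical
  have hc := sqTr_bound ha
  have hub := reTr_bound (sq_nonneg B) hc
  obtain ⟨C, hC⟩ := log_eulerL (R := R) (c := sqTr a) (sq_nonneg B) (bad := badQ) hbadQ hc _ hub
    (fun v hv => if_neg hv)
  have hre : ∀ v : HeightOneSpectrum (𝓞 k), reTr (sqTr a) v = ‖a v 1‖ ^ 2 / nrm v := by
    intro v
    unfold reTr sqTr
    rw [Complex.ofReal_re]
  have hbU : Bdd (bU R a) := ⟨B, abs_bU_le hB ha⟩
  have hbU2 : Bdd (fun v => bU R a v ^ 2) := by simpa [sq] using hbU.mul hbU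
  refine ⟨C, fun t ht => ?_⟩
  have h1 := abs_le.mp (hC t ht)
  have h2 : wsum (fun v => bU R a v ^ 2) t ≤
      wsum (fun v => if v ∈ R then 0 else reTr (sqTr a) v) t := by
    refine wsum_mono hbU2 hub (fun v => ?_) ht
    unfold bU
    split_ifs with h
    · simp
    · rw [hre, div_pow, Real.sq_sqrt (Nat.cast_nonneg _)]
      refine div_le_div_of_nonneg_right ?_ (Nat.cast_nonneg _)
      rw [← sq_abs]
      exact pow_le_pow_left₀ (abs_nonneg _) (Complex.abs_re_le_norm _) 2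
  have h3 : wsum (fun v => if v ∈ R then 0 else reTr (sqTr a) v) t ≤
      B ^ 2 * wsum (fun _ : HeightOneSpectrum (𝓞 k) => (1 : ℝ)) t := by
    rw [← wsum_const_mul]
    refine wsum_mono hub ((Bdd.const (B ^ 2)).mul (Bdd.const 1)) (fun v => ?_) ht
    split_ifs with h
    · positivity
    · rw [mul_one, hre, div_le_iff₀ (nrm_pos v)]
      have h4 := hc v h 1 one_pos
      unfold sqTr at h4
      rw [Complex.norm_real, Real.norm_of_nonneg (sq_nonneg _), pow_one] at h4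
      exact h4
  constructor <;> linarith [h1.1, h1.2]

end self

section family

variable {R : Finset (HeightOneSpectrum (𝓞 k))} {a b : HeightOneSpectrum (𝓞 k) → ℕ → ℂ}
  {B B₂ : ℝ} {bad badQ : HeightOneSpectrum (𝓞 k) → Multiset ℂ}
  {ι : Type*} {R' : ι → Finset (HeightOneSpectrum (𝓞 k))}
  {bA : ι → HeightOneSpectrum (𝓞 k) → ℕ → ℂ} {B₃ : ι → ℝ}
  {badA badP : ι → HeightOneSpectrum (𝓞 k) → Multiset ℂ}
  {d : ι → ℕ} {N : (j : ι) → Fin (d j) → ℕ}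
  {f : (j : ι) → (l : Fin (d j)) → CuspForm (Gamma0 (N j l) : Subgroup (GL (Fin 2) ℝ)) 2}
  {fa : (j : ι) → Fin (d j) → ℕ → ℝ}

/-- the sum of the squares of the mixed sums -/
theorem mix_bessel (I : Finset ι) (hB : 0 ≤ B)
    (ha : ∀ v ∉ R, ∀ n, 0 < n → ‖a v n‖ ≤ B * Real.sqrt (Ideal.absNorm v.asIdeal) ^ n)
    (hN : ∀ j l, 0 < N j l) (hf : ∀ j l, IsEigenform (N j l) (f j l) (fa j l))
    (hne : ∀ j l j' l', (⟨j, l⟩ : Σ j, Fin (d j)) ≠ ⟨j', l'⟩ →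
      {p : ℕ | p.Prime ∧ fa j l p ≠ fa j' l' p}.Infinite) :
    ∃ K : ℝ, 0 ≤ K ∧ ∀ t : ℝ, 1 < t → t ≤ 2 →
      ∑ j ∈ I, ∑ l, mix (bU R a) (fa j l) t ^ 2 ≤
        2 * (Lam t + K) * (Module.finrank ℚ k * wsum (fun v => bU R a v ^ 2) t) := by
  classical
  set S : Finset (Σ j, Fin (d j)) := I.sigma (fun _ => Finset.univ) with hS
  have hdiag := fun p : Σ j, Fin (d j) => rs_diag (hN p.1 p.2) (hf p.1 p.2)
  choose C₁ hC₁ using hdiag
  have hoff : ∀ p q : Σ j, Fin (d j), p ≠ q → ∃ C : ℝ, ∀ s : ℝ, 2 < s → s ≤ 3 →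
      ∑' x : Nat.Primes × ℕ, evec (N p.1 p.2) (fa p.1 p.2) x * evec (N q.1 q.2) (fa q.1 q.2) x *
        wgt s x ≤ C := fun p q hpq =>
    rs_offdiag (hN p.1 p.2) (hN q.1 q.2) (hf p.1 p.2) (hf q.1 q.2) (hne p.1 p.2 q.1 q.2 hpq)
  choose! C₂ hC₂ using hoff
  set K : ℝ := ∑ i ∈ S, |C₁ i| + ∑ i ∈ S, ∑ j ∈ S, |C₂ i j| with hK
  have hK0 : 0 ≤ K := by positivity
  have hK1 : ∀ i ∈ S, C₁ i ≤ K := by
    intro i hi
    have h1 : |C₁ i| ≤ ∑ i ∈ S, |C₁ i| :=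
      Finset.single_le_sum (f := fun i => |C₁ i|) (fun _ _ => abs_nonneg _) hi
    have h2 : 0 ≤ ∑ i ∈ S, ∑ j ∈ S, |C₂ i j| := by positivity
    linarith [le_abs_self (C₁ i)]
  have hK2 : ∀ i ∈ S, ∀ j ∈ S, C₂ i j ≤ K := by
    intro i hi j hj
    have h1 : |C₂ i j| ≤ ∑ j ∈ S, |C₂ i j| :=
      Finset.single_le_sum (f := fun j => |C₂ i j|) (fun _ _ => abs_nonneg _) hj
    have h2 : ∑ j ∈ S, |C₂ i j| ≤ ∑ i ∈ S, ∑ j ∈ S, |C₂ i j| :=
      Finset.single_le_sum (f := fun i => ∑ j ∈ S, |C₂ i j|)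
        (fun _ _ => Finset.sum_nonneg fun _ _ => abs_nonneg _) hi
    have h3 : 0 ≤ ∑ i ∈ S, |C₁ i| := by positivity
    linarith [le_abs_self (C₂ i j)]
  refine ⟨S.card * K, by positivity, fun t ht ht2 => ?_⟩
  have hU : Bdd (bU R a) := ⟨B, abs_bU_le hB ha⟩
  obtain ⟨hs1, hs2⟩ := cvec_sq hU ht
  have hL : 0 ≤ Lam t := by
    unfold Lam
    refine Real.log_nonneg ?_
    rw [le_div_iff₀ (by linarith)]
    linarith
  have e0 : Real.log (1 / (t + 1 - 2)) = Lam t := by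
    unfold Lam
    rw [show t + 1 - 2 = t - 1 by ring]
  have hB := bessel_gen S (g := wgt (t + 1)) (c := cvec (bU R a))
    (e := fun p => evec (N p.1 p.2) (fa p.1 p.2)) (wgt_nonneg _) hs1
    (fun p _ => evec_summable (hN p.1 p.2) (hf p.1 p.2) (by linarith)) hL hK0
    (fun p hp => by
      have := hC₁ p (t + 1) (by linarith) (by linarith)
      rw [e0] at this
      linarith [hK1 p hp])
    (fun p hp q hq hpq => (hC₂ p q hpq (t + 1) (by linarith) (by linarith)).trans (hK2 p hp q hq))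
  have h1 : ∑ j ∈ I, ∑ l, mix (bU R a) (fa j l) t ^ 2 =
      ∑ p ∈ S, (∑' y, cvec (bU R a) y * evec (N p.1 p.2) (fa p.1 p.2) y * wgt (t + 1) y) ^ 2 := by
    rw [hS, Finset.sum_sigma]
    refine Finset.sum_congr rfl fun j _ => Finset.sum_congr rfl fun l _ => ?_
    rw [mix_eq (bU R a) (N j l)]
  rw [h1]
  exact hB.trans (mul_le_mul_of_nonneg_left hs2 (by positivity))

/-- the family theorem in the variable `t = s - 1` -/
theorem family_abs (I : Finset ι) (hB : 0 ≤ B)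
    (ha : ∀ v ∉ R, ∀ n, 0 < n → ‖a v n‖ ≤ B * Real.sqrt (Ideal.absNorm v.asIdeal) ^ n)
    (hbadQ : ∀ v ∈ R, ∀ α ∈ badQ v, ‖α‖ ≤ Ideal.absNorm v.asIdeal)
    (hN : ∀ j l, 0 < N j l) (hf : ∀ j l, IsEigenform (N j l) (f j l) (fa j l))
    (hne : ∀ j l j' l', (⟨j, l⟩ : Σ j, Fin (d j)) ≠ ⟨j', l'⟩ →
      {p : ℕ | p.Prime ∧ fa j l p ≠ fa j' l' p}.Infinite) (x : ι → ℝ → ℝ)
    (hxm : ∀ j, Tendsto (fun t => x j t - ∑ l, mix (bU R a) (fa j l) t / Lam t) (𝓝[>] 1) (𝓝 0))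
    {ε : ℝ} (hε : 0 < ε) :
    ∀ᶠ t : ℝ in 𝓝[>] 1, ∑ j ∈ I, x j t ^ 2 / d j ≤
      2 * Module.finrank ℚ k *
        (Real.log ‖eulerL R (sqTr a) badQ ((t + 1 : ℝ) : ℂ)‖ / Lam t) + ε := by
  classical
  obtain ⟨K, hK0, hK⟩ := mix_bessel (k := k) (R := R) (a := a) I hB ha hN hf hne
  obtain ⟨C, hC⟩ := growth_self (badQ := badQ) hB ha hbadQ
  set n : ℝ := (Module.finrank ℚ k : ℝ) with hn
  have hn0 : 0 ≤ n := Nat.cast_nonneg _
  set m : ι → ℝ → ℝ := fun j t => ∑ l, mix (bU R a) (fa j l) t / Lam t with hm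
  set Q : ℝ → ℝ := fun t => wsum (fun v => bU R a v ^ 2) t / Lam t with hQ
  set y : ℝ → ℝ := fun t => Real.log ‖eulerL R (sqTr a) badQ ((t + 1 : ℝ) : ℂ)‖ / Lam t with hy
  have hU : Bdd (bU R a) := ⟨B, abs_bU_le hB ha⟩
  have hU2 : Bdd (fun v => bU R a v ^ 2) := by
    have := hU.mul hU
    simpa only [sq] using this
  have hQb : ∃ K : ℝ, ∀ᶠ t in 𝓝[>] 1, |Q t| ≤ K := by
    obtain ⟨C, hC⟩ := hU2
    exact ⟨2 * C, eventually_abs_mean_le hC⟩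
  have hinv : Tendsto (fun t => 1 / Lam t) (𝓝[>] 1) (𝓝 0) := by
    simpa using Lam_tendsto.const_div_atTop (1 : ℝ)
  have hle2 : ∀ᶠ t : ℝ in 𝓝[>] 1, t ≤ 2 := by
    filter_upwards [Ioc_mem_nhdsGT (show (1 : ℝ) < 2 by norm_num)] with t ht
    exact ht.2
  have hL0 := Lam_tendsto.eventually_gt_atTop 0
  -- the sum of all squares
  have hsq : ∀ᶠ t in 𝓝[>] 1, ∑ j ∈ I, ∑ l, (mix (bU R a) (fa j l) t / Lam t) ^ 2 ≤
      2 * n * Q t + 2 * n * K * (Q t * (1 / Lam t)) := by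
    filter_upwards [self_mem_nhdsWithin, hL0, hle2] with t h2 h3 h4
    have h5 := hK t h2 h4
    have e1 : ∑ j ∈ I, ∑ l, (mix (bU R a) (fa j l) t / Lam t) ^ 2 =
        (∑ j ∈ I, ∑ l, mix (bU R a) (fa j l) t ^ 2) / Lam t ^ 2 := by
      rw [Finset.sum_div]
      refine Finset.sum_congr rfl fun j _ => ?_
      rw [Finset.sum_div]
      exact Finset.sum_congr rfl fun l _ => by rw [div_pow]
    have e2 : 2 * n * Q t + 2 * n * K * (Q t * (1 / Lam t)) =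
        2 * (Lam t + K) * (n * wsum (fun v => bU R a v ^ 2) t) / Lam t ^ 2 := by
      simp only [hQ]
      field_simp
    rw [e1, e2]
    exact div_le_div_of_nonneg_right h5 (by positivity)
  -- Cauchy-Schwarz in the fibres
  have hcs : ∀ t, ∑ j ∈ I, m j t ^ 2 / d j ≤
      ∑ j ∈ I, ∑ l, (mix (bU R a) (fa j l) t / Lam t) ^ 2 := by
    intro t
    refine Finset.sum_le_sum fun j _ => ?_
    have h1 : m j t ^ 2 ≤ (d j : ℝ) * ∑ l, (mix (bU R a) (fa j l) t / Lam t) ^ 2 := by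
      have := sq_sum_le_card_mul_sum_sq (s := (Finset.univ : Finset (Fin (d j))))
        (f := fun l => mix (bU R a) (fa j l) t / Lam t)
      rwa [Finset.card_univ, Fintype.card_fin] at this
    rcases Nat.eq_zero_or_pos (d j) with h0 | h0
    · have h9 : (d j : ℝ) = 0 := by exact_mod_cast h0
      rw [h9, div_zero]
      exact Finset.sum_nonneg fun _ _ => sq_nonneg _
    · rw [div_le_iff₀ (by exact_mod_cast h0), mul_comm]
      exact h1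
  -- boundedness of `m`
  obtain ⟨KQ, hKQ⟩ := hQb
  have hmb : ∀ j ∈ I, ∃ K' : ℝ, ∀ᶠ t in 𝓝[>] 1, |x j t + m j t| ≤ K' := by
    intro j hj
    have h1 := (hxm j).eventually (Metric.ball_mem_nhds (0 : ℝ) one_pos)
    have h2 := hinv.eventually_le_const (show (0 : ℝ) < 1 by norm_num)
    refine ⟨2 * (1 + d j * (2 * n * KQ + 2 * n * K * KQ)) + 1, ?_⟩
    filter_upwards [h1, h2, hsq, hKQ, hL0] with t g1 g2 g3 g4 g5
    rw [Real.dist_eq, sub_zero] at g1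
    have hQt := abs_le.mp g4
    have hKQ0 : 0 ≤ KQ := (abs_nonneg _).trans g4
    have g6 : m j t ^ 2 ≤ (d j : ℝ) * (2 * n * KQ + 2 * n * K * KQ) := by
      have k1 : m j t ^ 2 ≤ (d j : ℝ) * ∑ l, (mix (bU R a) (fa j l) t / Lam t) ^ 2 := by
        have := sq_sum_le_card_mul_sum_sq (s := (Finset.univ : Finset (Fin (d j))))
          (f := fun l => mix (bU R a) (fa j l) t / Lam t)
        rwa [Finset.card_univ, Fintype.card_fin] at this
      have k2 : ∑ l, (mix (bU R a) (fa j l) t / Lam t) ^ 2 ≤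
          ∑ j ∈ I, ∑ l, (mix (bU R a) (fa j l) t / Lam t) ^ 2 :=
        Finset.single_le_sum (f := fun j => ∑ l, (mix (bU R a) (fa j l) t / Lam t) ^ 2)
          (fun _ _ => Finset.sum_nonneg fun _ _ => sq_nonneg _) hj
      have k3 : 2 * n * Q t + 2 * n * K * (Q t * (1 / Lam t)) ≤ 2 * n * KQ + 2 * n * K * KQ := by
        have k4 : 2 * n * Q t ≤ 2 * n * KQ := mul_le_mul_of_nonneg_left hQt.2 (by positivity)
        have k5 : Q t * (1 / Lam t) ≤ KQ := by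
          have : 0 ≤ 1 / Lam t := by positivity
          calc Q t * (1 / Lam t) ≤ KQ * (1 / Lam t) := mul_le_mul_of_nonneg_right hQt.2 this
            _ ≤ KQ * 1 := mul_le_mul_of_nonneg_left g2 hKQ0
            _ = KQ := mul_one _
        have k6 := mul_le_mul_of_nonneg_left k5 (show 0 ≤ 2 * n * K by positivity)
        linarith
      exact k1.trans (mul_le_mul_of_nonneg_left (k2.trans (g3.trans k3)) (Nat.cast_nonneg _))
    have g7 : |m j t| ≤ 1 + d j * (2 * n * KQ + 2 * n * K * KQ) := by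
      have : |m j t| ≤ 1 + m j t ^ 2 := by
        rw [← sq_abs]
        nlinarith [sq_nonneg (|m j t| - 1), abs_nonneg (m j t)]
      linarith
    have g8 : |x j t - m j t| ≤ 1 := le_of_lt g1
    have g9 := abs_le.mp g7
    have g10 := abs_le.mp g8
    rw [abs_le]
    constructor <;> linarith [g9.1, g9.2, g10.1, g10.2]
  set E : ℝ → ℝ := fun t => ∑ j ∈ I, (x j t + m j t) * (x j t - m j t) / d j +
    2 * n * K * (Q t * (1 / Lam t)) + 2 * n * (C * (1 / Lam t)) with hE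
  have hEt : Tendsto E (𝓝[>] 1) (𝓝 0) := by
    have e1 : Tendsto (fun t => ∑ j ∈ I, (x j t + m j t) * (x j t - m j t) / d j) (𝓝[>] 1)
        (𝓝 0) := by
      have := tendsto_finsetSum I fun j hj => (Pool.Agent.H18.RS.prod_zero (hmb j hj) (hxm j)).div_const (d j : ℝ)
      simpa using this
    have e2 : Tendsto (fun t => 2 * n * K * (Q t * (1 / Lam t))) (𝓝[>] 1) (𝓝 0) := by
      simpa using (Pool.Agent.H18.RS.prod_zero ⟨KQ, hKQ⟩ hinv).const_mul (2 * n * K)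
    have e3 : Tendsto (fun t => 2 * n * (C * (1 / Lam t))) (𝓝[>] 1) (𝓝 0) := by
      simpa using (hinv.const_mul C).const_mul (2 * n)
    have := (e1.add e2).add e3
    rw [add_zero, add_zero] at this
    exact this
  filter_upwards [hEt.eventually_le_const hε, self_mem_nhdsWithin, hL0, hsq] with t h1 h2 h3 h4
  have h2' : 1 < t := h2
  have h5 : Q t ≤ y t + C * (1 / Lam t) := by
    have := (hC t h2').1
    simp only [hQ, hy]
    rw [mul_one_div, ← add_div]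
    exact div_le_div_of_nonneg_right this h3.le
  have h6 : ∑ j ∈ I, x j t ^ 2 / d j = ∑ j ∈ I, m j t ^ 2 / d j +
      ∑ j ∈ I, (x j t + m j t) * (x j t - m j t) / d j := by
    rw [← Finset.sum_add_distrib]
    exact Finset.sum_congr rfl fun j _ => by ring
  have h7 := hcs t
  have h8 := mul_le_mul_of_nonneg_left h5 (show 0 ≤ 2 * n by positivity)
  simp only [hE] at h1
  rw [h6]
  linarith

/-- the family of the abelian varieties -/
theorem family_growth' (I : Finset ι) (hRR : ∀ j, R ⊆ R' j) (hB : 0 ≤ B) (hB₂ : 0 ≤ B₂)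
    (hB₃ : ∀ j, 0 ≤ B₃ j)
    (ha : ∀ v ∉ R, ∀ n, 0 < n → ‖a v n‖ ≤ B * Real.sqrt (Ideal.absNorm v.asIdeal) ^ n)
    (hb : ∀ v ∉ R, ∀ n, 0 < n → ‖b v n‖ ≤ B₂ * (Ideal.absNorm v.asIdeal : ℝ) ^ n)
    (hbA : ∀ j, ∀ v ∉ R' j, ∀ n, 0 < n → ‖bA j v n‖ ≤ B₃ j * (Ideal.absNorm v.asIdeal : ℝ) ^ n)
    (hbad : ∀ v ∈ R, ∀ α ∈ bad v, ‖α‖ ≤ Ideal.absNorm v.asIdeal)
    (hbadA : ∀ j, ∀ v ∈ R' j, ∀ α ∈ badA j v, ‖α‖ ≤ Ideal.absNorm v.asIdeal)
    (hbadP : ∀ j, ∀ v ∈ R' j, ∀ α ∈ badP j v, ‖α‖ ≤ Ideal.absNorm v.asIdeal)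
    (hbadQ : ∀ v ∈ R, ∀ α ∈ badQ v, ‖α‖ ≤ Ideal.absNorm v.asIdeal)
    (hN : ∀ j l, 0 < N j l) (hf : ∀ j l, IsEigenform (N j l) (f j l) (fa j l))
    (hNR : ∀ j l, ∀ v : HeightOneSpectrum (𝓞 k), (N j l : 𝓞 k) ∈ v.asIdeal → v ∈ R' j)
    (hne : ∀ j l j' l', (⟨j, l⟩ : Σ j, Fin (d j)) ≠ ⟨j', l'⟩ →
      {p : ℕ | p.Prime ∧ fa j l p ≠ fa j' l' p}.Infinite) {ε : ℝ} (hε : 0 < ε) :
    ∀ᶠ t : ℝ in 𝓝[>] 1,
      ∑ j ∈ I, ((Real.log ‖eulerL (R' j) (prodTr a b (fa j) (bA j)) (badP j) ((t + 1 : ℝ) : ℂ)‖ -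
        Real.log ‖eulerL R b bad ((t + 1 : ℝ) : ℂ)‖ -
        Real.log ‖eulerL (R' j) (bA j) (badA j) ((t + 1 : ℝ) : ℂ)‖) / Lam t) ^ 2 / d j ≤
      2 * Module.finrank ℚ k *
        (Real.log ‖eulerL R (sqTr a) badQ ((t + 1 : ℝ) : ℂ)‖ / Lam t) + ε :=
  family_abs I hB ha hbadQ hN hf hne (fun j t =>
      (Real.log ‖eulerL (R' j) (prodTr a b (fa j) (bA j)) (badP j) ((t + 1 : ℝ) : ℂ)‖ -
        Real.log ‖eulerL R b bad ((t + 1 : ℝ) : ℂ)‖ -
        Real.log ‖eulerL (R' j) (bA j) (badA j) ((t + 1 : ℝ) : ℂ)‖) / Lam t)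
    (fun j => growth_one (hRR j) hB hB₂ (hB₃ j) ha hb (hbA j) hbad (hbadA j) (hbadP j) (hN j) (hf j)
      (hNR j)) hε

end family

end

end Pool.Agent.H16.GF
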