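import Pool.Agent.H16.GF.Defs
import Pool.Agent.H18.RS.Euler

/-!
# Job GF-1: the logarithm of the local Rankin-Selberg factor

Over `ℂ` write `T ² - a T + c = (T - α₁) (T - α₂)`, `T ² - b T + d = (T - β₁) (T - β₂)` (for instance
`α = (a ± √(a² - 4 c)) / 2`, `IsAlgClosed`). Then `powTr a c n = α₁ ^ n + α₂ ^ n` (two-step induction), and
`locP a b c d x = ∏ (1 - α_i β_j x)` (ring, from `α₁ + α₂ = a`, `α₁ α₂ = c`, ...).
For the sequence `u k` (with `u 0 = 1`, `u 1 = a`, `u (k + 2) = a u (k + 1) - c u k`) one has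
`u (k + 1) - α₂ u k = α₁ ^ (k + 1)`, so `|α₁| ^ (2 k + 2) x ^ k ≤ 2 u (k + 1) ² x ^ k + 2 |α₂| ² u k ² x ^ k` is summable whenever
`∑ u k ² x ^ k` is (for `x > 0`; `sum_shift_sq`), hence tends to `0`, so `|α₁| ² x < 1` (if `|α₁|² x ≥ 1` the terms
`|α₁|² (|α₁|² x) ^ k` do not tend to `0`; `x > 0`, and `α₁ ≠ 0`). The same for `α₂`, `β₁`, `β₂`. So `|α_i β_j x| < 1` for
the given `x` (`|α_i|² x < 1` and `|β_j|² x < 1` give `|α_i β_j| x < 1`).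
`Complex.hasSum_taylorSeries_neg_log` : `∑ z ^ n / n = - log (1 - z)`; add the four series with `z = α_i β_j x`:
the sum of the `(j + 1)`-st terms is `powTr a c (j + 1) * powTr b d (j + 1) * x ^ (j + 1) / (j + 1)` (a real number), and the real part of
the sum is `- ∑ log ‖1 - α_i β_j x‖ = - log ‖locP a b c d x‖` (`Complex.log_re`). For `x = 0` everything is `0`.
-/

namespace Pool.Agent.H16.GF

open Pool.Agent.H18.RS

theorem gf1_roots (a c : ℝ) : ∃ α₁ α₂ : ℂ, α₁ + α₂ = a ∧ α₁ * α₂ = c := by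
  obtain ⟨s, hs⟩ := IsAlgClosed.exists_pow_nat_eq ((a : ℂ) ^ 2 - 4 * c) (n := 2) (by norm_num)
  refine ⟨(a + s) / 2, (a - s) / 2, by ring, ?_⟩
  linear_combination (-1 / 4 : ℂ) * hs

theorem gf1_pow {a c : ℝ} {α₁ α₂ : ℂ} (h1 : α₁ + α₂ = a) (h2 : α₁ * α₂ = c) :
    ∀ n : ℕ, (powTr a c n : ℂ) = α₁ ^ n + α₂ ^ n
  | 0 => by
    simp only [powTr, pow_zero]
    norm_num
  | 1 => by simp only [powTr, pow_one, h1]
  | n + 2 => by
    rw [powTr]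
    push_cast
    rw [gf1_pow h1 h2 (n + 1), gf1_pow h1 h2 n, ← h1, ← h2]
    ring

theorem gf1_seq {u : ℕ → ℝ} {a c : ℝ} {α₁ α₂ : ℂ} (h1 : α₁ + α₂ = a) (h2 : α₁ * α₂ = c)
    (hu0 : u 0 = 1) (hu1 : u 1 = a) (hu : ∀ k, u (k + 2) = a * u (k + 1) - c * u k) :
    ∀ k : ℕ, (u (k + 1) : ℂ) - α₂ * u k = α₁ ^ (k + 1) := by
  intro k
  induction k with
  | zero =>
    rw [hu1, hu0, ← h1]
    push_cast
    ring
  | succ k ih =>
    rw [hu k]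
    push_cast
    rw [← h1, ← h2, pow_succ, ← ih]
    ring

theorem gf1_small {u : ℕ → ℝ} {a c x : ℝ} {α₁ α₂ : ℂ} (h1 : α₁ + α₂ = a) (h2 : α₁ * α₂ = c)
    (hu0 : u 0 = 1) (hu1 : u 1 = a) (hu : ∀ k, u (k + 2) = a * u (k + 1) - c * u k)
    (hx : 0 < x) (hsu : Summable fun k => u k ^ 2 * x ^ k) : ‖α₁‖ ^ 2 * x < 1 := by
  have hs2 := sum_shift_sq hx hsu
  have hseq := gf1_seq h1 h2 hu0 hu1 hu
  have hsum : Summable fun k : ℕ => (‖α₁‖ ^ (k + 1)) ^ 2 * x ^ k := by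
    refine Summable.of_nonneg_of_le (fun k => by positivity) (fun k => ?_)
      ((hs2.mul_left 2).add (hsu.mul_left (2 * ‖α₂‖ ^ 2)))
    have h0 : 0 ≤ x ^ k := pow_nonneg hx.le k
    have h3 : ‖α₁‖ ^ (k + 1) ≤ |u (k + 1)| + ‖α₂‖ * |u k| := by
      rw [← norm_pow, ← hseq k]
      refine (norm_sub_le _ _).trans ?_
      rw [norm_mul, Complex.norm_real, Complex.norm_real, Real.norm_eq_abs, Real.norm_eq_abs]
    have h4 : (‖α₁‖ ^ (k + 1)) ^ 2 ≤ (|u (k + 1)| + ‖α₂‖ * |u k|) ^ 2 :=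
      pow_le_pow_left₀ (by positivity) h3 2
    have h5 : (|u (k + 1)| + ‖α₂‖ * |u k|) ^ 2 ≤ 2 * u (k + 1) ^ 2 + 2 * ‖α₂‖ ^ 2 * u k ^ 2 := by
      nlinarith [sq_nonneg (|u (k + 1)| - ‖α₂‖ * |u k|), sq_abs (u (k + 1)), sq_abs (u k)]
    calc (‖α₁‖ ^ (k + 1)) ^ 2 * x ^ k ≤
          (2 * u (k + 1) ^ 2 + 2 * ‖α₂‖ ^ 2 * u k ^ 2) * x ^ k :=
          mul_le_mul_of_nonneg_right (h4.trans h5) h0
      _ = _ := by ring
  have ht := hsum.tendsto_atTop_zero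
  by_contra hc
  have hr : 1 ≤ ‖α₁‖ ^ 2 * x := not_lt.mp hc
  have hpos : 0 < ‖α₁‖ ^ 2 := by
    by_contra h
    have h' : ‖α₁‖ ^ 2 = 0 := le_antisymm (not_lt.mp h) (sq_nonneg _)
    rw [h', zero_mul] at hr
    linarith
  have hge : ∀ k : ℕ, ‖α₁‖ ^ 2 ≤ (‖α₁‖ ^ (k + 1)) ^ 2 * x ^ k := by
    intro k
    have e : (‖α₁‖ ^ (k + 1)) ^ 2 * x ^ k = ‖α₁‖ ^ 2 * (‖α₁‖ ^ 2 * x) ^ k := by
      rw [mul_pow]; ring
    rw [e]
    exact le_mul_of_one_le_right hpos.le (one_le_pow₀ hr)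
  have := ge_of_tendsto' ht hge
  linarith

theorem gf1_norm {α β : ℂ} {x : ℝ} (hx : 0 < x) (h1 : ‖α‖ ^ 2 * x < 1) (h2 : ‖β‖ ^ 2 * x < 1) :
    ‖α * β * x‖ < 1 := by
  have h3 : ‖α * β * x‖ ^ 2 < 1 := by
    rw [norm_mul, norm_mul, Complex.norm_real, Real.norm_eq_abs, abs_of_pos hx]
    calc (‖α‖ * ‖β‖ * x) ^ 2 = (‖α‖ ^ 2 * x) * (‖β‖ ^ 2 * x) := by ring
      _ < 1 := mul_lt_one_of_nonneg_of_lt_one_left (by positivity) h1 h2.le
  by_contra hc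
  have h4 : 1 ≤ ‖α * β * x‖ := not_lt.mp hc
  have h5 : 1 ≤ ‖α * β * x‖ ^ 2 := one_le_pow₀ h4
  linarith

theorem gf1_ne {z : ℂ} (hz : ‖z‖ < 1) : ‖1 - z‖ ≠ 0 := by
  intro h
  rw [norm_eq_zero, sub_eq_zero] at h
  rw [← h, norm_one] at hz
  exact lt_irrefl _ hz

theorem local_log {u w : ℕ → ℝ} {a b c d x : ℝ} (hu0 : u 0 = 1) (hu1 : u 1 = a)
    (hu : ∀ k, u (k + 2) = a * u (k + 1) - c * u k) (hw0 : w 0 = 1) (hw1 : w 1 = b)
    (hw : ∀ k, w (k + 2) = b * w (k + 1) - d * w k) (hx : 0 ≤ x)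
    (hsu : Summable fun k => u k ^ 2 * x ^ k) (hsw : Summable fun k => w k ^ 2 * x ^ k) :
    HasSum (fun j : ℕ => powTr a c (j + 1) * powTr b d (j + 1) * (x ^ (j + 1) / ((j : ℝ) + 1)))
      (-Real.log |locP a b c d x|) := by
  rcases hx.eq_or_lt with h | hx0
  · subst h
    have h0 : (fun j : ℕ => powTr a c (j + 1) * powTr b d (j + 1) *
        ((0 : ℝ) ^ (j + 1) / ((j : ℝ) + 1))) = fun _ => 0 := by
      funext j
      simp
    have h1 : -Real.log |locP a b c d 0| = 0 := by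
      simp [locP]
    rw [h0, h1]
    exact hasSum_zero
  obtain ⟨α₁, α₂, hα1, hα2⟩ := gf1_roots a c
  obtain ⟨β₁, β₂, hβ1, hβ2⟩ := gf1_roots b d
  have a1 := gf1_small hα1 hα2 hu0 hu1 hu hx0 hsu
  have a2 := gf1_small (by rw [add_comm]; exact hα1) (by rw [mul_comm]; exact hα2) hu0 hu1 hu hx0
    hsu
  have b1 := gf1_small hβ1 hβ2 hw0 hw1 hw hx0 hsw
  have b2 := gf1_small (by rw [add_comm]; exact hβ1) (by rw [mul_comm]; exact hβ2) hw0 hw1 hw hx0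
    hsw
  have n11 := gf1_norm hx0 a1 b1
  have n12 := gf1_norm hx0 a1 b2
  have n21 := gf1_norm hx0 a2 b1
  have n22 := gf1_norm hx0 a2 b2
  have hs := Complex.reCLM.hasSum
    (((Complex.hasSum_taylorSeries_neg_log' n11).add (Complex.hasSum_taylorSeries_neg_log' n12)).add
    ((Complex.hasSum_taylorSeries_neg_log' n21).add (Complex.hasSum_taylorSeries_neg_log' n22)))
  have hval : Complex.reCLM (-Complex.log (1 - α₁ * β₁ * x) + -Complex.log (1 - α₁ * β₂ * x) +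
      (-Complex.log (1 - α₂ * β₁ * x) + -Complex.log (1 - α₂ * β₂ * x))) =
      -Real.log |locP a b c d x| := by
    have hP : ((locP a b c d x : ℝ) : ℂ) = (1 - α₁ * β₁ * x) * (1 - α₁ * β₂ * x) *
        ((1 - α₂ * β₁ * x) * (1 - α₂ * β₂ * x)) := by
      unfold locP
      push_cast
      rw [← hα1, ← hα2, ← hβ1, ← hβ2]
      ring
    have hP2 : |locP a b c d x| = ‖1 - α₁ * β₁ * x‖ * ‖1 - α₁ * β₂ * x‖ *
        (‖1 - α₂ * β₁ * x‖ * ‖1 - α₂ * β₂ * x‖) := by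
      rw [← norm_mul, ← norm_mul, ← norm_mul, ← hP, Complex.norm_real, Real.norm_eq_abs]
    have m11 := gf1_ne n11
    have m12 := gf1_ne n12
    have m21 := gf1_ne n21
    have m22 := gf1_ne n22
    rw [hP2, Real.log_mul (mul_ne_zero m11 m12) (mul_ne_zero m21 m22), Real.log_mul m11 m12,
      Real.log_mul m21 m22]
    simp only [Complex.reCLM_apply, Complex.add_re, Complex.neg_re, Complex.log_re]
    ring
  rw [hval] at hs
  refine hs.congr_fun ?_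
  intro j
  have hc : ((powTr a c (j + 1) * powTr b d (j + 1) * (x ^ (j + 1) / ((j : ℝ) + 1)) : ℝ) : ℂ) =
      (α₁ * β₁ * x) ^ (j + 1) / (j + 1) + (α₁ * β₂ * x) ^ (j + 1) / (j + 1) +
      ((α₂ * β₁ * x) ^ (j + 1) / (j + 1) + (α₂ * β₂ * x) ^ (j + 1) / (j + 1)) := by
    push_cast
    rw [gf1_pow hα1 hα2, gf1_pow hβ1 hβ2, mul_pow, mul_pow, mul_pow, mul_pow, mul_pow, mul_pow,
      mul_pow, mul_pow]
    ring
  rw [Complex.reCLM_apply, ← hc, Complex.ofReal_re]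

end Pool.Agent.H16.GF
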