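import Pool.Agent.H16.GF.CrossP
import Pool.Agent.H16.GF.CrossR
import Pool.Agent.H1.Tate.Bessel

/-!
# The parts of the logarithm of `L₂(s, Y × A)`
-/

open NumberField IsDedekindDomain Filter Topology Polynomial CongruenceSubgroup
open scoped MatrixGroups

namespace Pool.Agent.H16.GF

open Pool.Agent.H3.TatePole Pool.Agent.H18.RS Pool.Agent.H1.Tate Pool.Agent.H16.HK

noncomputable section

variable {k : Type*} [Field k] [NumberField k]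

/-- `O(1) / log (1 / (t - 1)) → 0`, for a bound near `1` only -/
lemma tendsto_zero_of_bounded' {f : ℝ → ℝ} {C : ℝ} (h : ∀ t : ℝ, 1 < t → t ≤ 2 → |f t| ≤ C) :
    Tendsto (fun t => f t / Lam t) (𝓝[>] 1) (𝓝 0) := by
  have hL := Lam_tendsto
  have hC : Tendsto (fun s => C / Lam s) (𝓝[>] 1) (𝓝 0) := hL.const_div_atTop C
  refine squeeze_zero_norm' ?_ hC
  filter_upwards [Ioc_mem_nhdsGT (show (1 : ℝ) < 2 by norm_num), hL.eventually_gt_atTop 0]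
    with s hs hs2
  rw [Real.norm_eq_abs, abs_div, abs_of_pos hs2]
  have := h s hs.1 hs.2
  gcongr

section linear

variable {R : Finset (HeightOneSpectrum (𝓞 k))}

lemma trmR_add (c d : HeightOneSpectrum (𝓞 k) → ℕ → ℂ) (t : ℝ)
    (x : HeightOneSpectrum (𝓞 k) × ℕ) :
    trmR R (fun v n => c v n + d v n) t x = trmR R c t x + trmR R d t x := by
  unfold trmR trm
  split_ifs
  · simp
  · ring

lemma trmR_sum {ι : Type*} (S : Finset ι) (c : ι → HeightOneSpectrum (𝓞 k) → ℕ → ℂ) (t : ℝ)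
    (x : HeightOneSpectrum (𝓞 k) × ℕ) :
    trmR R (fun v n => ∑ i ∈ S, c i v n) t x = ∑ i ∈ S, trmR R (c i) t x := by
  unfold trmR trm
  split_ifs
  · simp
  · rw [Finset.sum_mul, Finset.sum_div]

lemma trmR_bound {c : HeightOneSpectrum (𝓞 k) → ℕ → ℂ} {D : ℝ} (hD : 0 ≤ D)
    (hc : ∀ v, v ∉ R → ∀ n, 0 < n → ‖c v n‖ ≤ D * nrm v ^ n) {t : ℝ}
    (x : HeightOneSpectrum (𝓞 k) × ℕ) :
    ‖trmR R c t x‖ ≤ D * (nrm x.1 ^ (-t)) ^ (x.2 + 1) := by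
  have hy0 : 0 ≤ nrm x.1 ^ (-t) := Real.rpow_nonneg (nrm_pos _).le _
  unfold trmR
  split_ifs with h
  · rw [norm_zero]
    exact mul_nonneg hD (pow_nonneg hy0 _)
  · unfold trm
    have hx0 : 0 ≤ nrm x.1 ^ (-(t + 1)) := Real.rpow_nonneg (nrm_pos _).le _
    rw [norm_div, norm_mul, norm_pow, Complex.norm_real, Real.norm_of_nonneg hx0]
    have h1 := hc x.1 h (x.2 + 1) (Nat.succ_pos _)
    have h2 : (1 : ℝ) ≤ ‖(x.2 : ℂ) + 1‖ := by
      have : ((x.2 : ℂ) + 1) = ((x.2 + 1 : ℕ) : ℂ) := by push_cast; rfl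
      rw [this, Complex.norm_natCast]
      exact_mod_cast Nat.succ_le_succ (Nat.zero_le x.2)
    rw [div_le_iff₀ (by linarith)]
    have e1 : nrm x.1 * nrm x.1 ^ (-(t + 1)) = nrm x.1 ^ (-t) := by
      nth_rewrite 1 [← Real.rpow_one (nrm x.1)]
      rw [← Real.rpow_add (nrm_pos _)]
      congr 1
      ring
    have h3 : ‖c x.1 (x.2 + 1)‖ * (nrm x.1 ^ (-(t + 1))) ^ (x.2 + 1) ≤
        (D * nrm x.1 ^ (x.2 + 1)) * (nrm x.1 ^ (-(t + 1))) ^ (x.2 + 1) :=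
      mul_le_mul_of_nonneg_right h1 (pow_nonneg hx0 _)
    have h4 : (D * nrm x.1 ^ (x.2 + 1)) * (nrm x.1 ^ (-(t + 1))) ^ (x.2 + 1) =
        D * (nrm x.1 ^ (-t)) ^ (x.2 + 1) := by
      rw [mul_assoc, ← mul_pow, e1]
    rw [h4] at h3
    have h5 : 0 ≤ D * (nrm x.1 ^ (-t)) ^ (x.2 + 1) := mul_nonneg hD (pow_nonneg hy0 _)
    nlinarith

lemma geo_summable {t : ℝ} (ht : 1 < t) :
    Summable (fun x : HeightOneSpectrum (𝓞 k) × ℕ => (nrm x.1 ^ (-t)) ^ (x.2 + 1)) := by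
  have hy0 : ∀ v : HeightOneSpectrum (𝓞 k), 0 ≤ nrm v ^ (-t) := fun v =>
    Real.rpow_nonneg (nrm_pos _).le _
  have hy1 : ∀ v : HeightOneSpectrum (𝓞 k), nrm v ^ (-t) ≤ 1 / 2 := fun v => (rpow_aux v ht).2.1
  have hg : ∀ v : HeightOneSpectrum (𝓞 k),
      HasSum (fun n : ℕ => (nrm v ^ (-t)) ^ (n + 1)) (nrm v ^ (-t) * (1 - nrm v ^ (-t))⁻¹) := by
    intro v
    have h1 := (hasSum_geometric_of_lt_one (hy0 v) (by linarith [hy1 v])).mul_left (nrm v ^ (-t))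
    simpa only [← pow_succ'] using h1
  rw [summable_prod_of_nonneg (fun x => pow_nonneg (hy0 x.1) _)]
  refine ⟨fun v => (hg v).summable, ?_⟩
  refine Summable.of_nonneg_of_le (fun v => tsum_nonneg fun n => pow_nonneg (hy0 v) _)
    (fun v => ?_) ((summable_nrm (k := k) ht).mul_left 2)
  rw [(hg v).tsum_eq]
  have h6 : (1 - nrm v ^ (-t))⁻¹ ≤ 2 := by
    rw [inv_le_comm₀ (by linarith [hy1 v]) (by norm_num)]
    linarith [hy1 v]
  have := mul_le_mul_of_nonneg_left h6 (hy0 v)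
  linarith

lemma trmR_summable {c : HeightOneSpectrum (𝓞 k) → ℕ → ℂ} {D : ℝ} (hD : 0 ≤ D)
    (hc : ∀ v, v ∉ R → ∀ n, 0 < n → ‖c v n‖ ≤ D * nrm v ^ n) {t : ℝ} (ht : 1 < t) :
    Summable (trmR R c t) :=
  Summable.of_norm_bounded ((geo_summable ht).mul_left D) fun x => trmR_bound hD hc x

lemma reTr_bound {c : HeightOneSpectrum (𝓞 k) → ℕ → ℂ} {D : ℝ} (hD : 0 ≤ D)
    (hc : ∀ v, v ∉ R → ∀ n, 0 < n → ‖c v n‖ ≤ D * nrm v ^ n) [∀ v, Decidable (v ∈ R)] :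
    Bdd (fun v => if v ∈ R then 0 else reTr c v) := by
  refine ⟨D, fun v => ?_⟩
  beta_reduce
  split_ifs with h
  · rw [abs_zero]; exact hD
  · unfold reTr
    rw [abs_div, abs_of_pos (nrm_pos v), div_le_iff₀ (nrm_pos v)]
    refine (Complex.abs_re_le_norm _).trans ((hc v h 1 one_pos).trans ?_)
    rw [pow_one]

/-- the logarithm of an Euler product with bounded traces -/
lemma log_close {R' : Finset (HeightOneSpectrum (𝓞 k))} (hRR : R ⊆ R')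
    {c : HeightOneSpectrum (𝓞 k) → ℕ → ℂ} {D : ℝ} (hD : 0 ≤ D)
    (hc : ∀ v, v ∉ R → ∀ n, 0 < n → ‖c v n‖ ≤ D * nrm v ^ n)
    {bad : HeightOneSpectrum (𝓞 k) → Multiset ℂ} (hbad : ∀ v ∈ R, ∀ α ∈ bad v, ‖α‖ ≤ nrm v) :
    ∃ C : ℝ, ∀ t : ℝ, 1 < t → t ≤ 2 →
      |Real.log ‖eulerL R c bad ((t + 1 : ℝ) : ℂ)‖ - ∑' x, (trmR R' c t x).re| ≤ C := by
  classical
  have hc' : ∀ v, v ∉ R' → ∀ n, 0 < n → ‖c v n‖ ≤ D * nrm v ^ n := fun v hv =>
    hc v (fun h => hv (hRR h))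
  have hb1 := reTr_bound hD hc
  have hb2 := reTr_bound hD hc'
  obtain ⟨C₁, hC₁⟩ := log_eulerL (R := R) (c := c) hD (bad := bad) hbad hc _ hb1
    (fun v hv => if_neg hv)
  have h0 : ∀ v ∈ R', ∀ α ∈ (fun _ : HeightOneSpectrum (𝓞 k) => (0 : Multiset ℂ)) v,
      ‖α‖ ≤ nrm v := by
    intro v _ α hα
    simp at hα
  obtain ⟨C₂, hC₂⟩ := log_eulerL (R := R') (c := c) hD h0 hc' _ hb2 (fun v hv => if_neg hv)
  obtain ⟨C₃, hC₃⟩ := log_eulerL_gen (R := R') (c := c) h0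
    (fun t ht _ => trmR_summable hD hc' ht)
  obtain ⟨C₄, hC₄⟩ := wsum_close hb1 hb2 ((R'.finite_toSet).subset (by
    intro v hv
    by_contra hvn
    have hvn' : v ∉ R' := hvn
    have hvn2 : v ∉ R := fun h => hvn' (hRR h)
    apply hv
    rw [if_neg hvn', if_neg hvn2]))
  refine ⟨C₁ + C₂ + C₃ + C₄, fun t ht ht2 => ?_⟩
  have h1 := abs_le.mp (hC₁ t ht)
  have h2 := abs_le.mp (hC₂ t ht)
  have h3 := abs_le.mp (hC₃ t ht ht2)
  have h4 := abs_le.mp (hC₄ t ht)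
  rw [abs_le]
  constructor <;> linarith [h1.1, h1.2, h2.1, h2.2, h3.1, h3.2, h4.1, h4.2]

end linear

end

end Pool.Agent.H16.GF
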